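import Mathlib

set_option autoImplicit false

open MeasureTheory Filter Topology Set

namespace Pool.Agent.TH942.RA

/-- The integral over `(0, ∞)` is at most a constant plus the integral for `u = η`. -/
theorem Abel.bound {u : ℝ → ℝ} {k : ℝ} (hk : 0 ≤ k)
    (hint : ∀ x : ℝ, 0 < x → IntegrableOn (fun T : ℝ => T ^ k * u T * Real.exp (-(x * T))) (Ioi 0))
    {η T1 : ℝ} (hη : 0 ≤ η) (hT1 : 0 < T1) (hu : ∀ T, T1 ≤ T → |u T| ≤ η) {s : ℂ} (hs : 0 < s.re) :
    ‖∫ T in Ioi (0 : ℝ), Complex.exp (-(s * T)) * ((T ^ k * u T : ℝ) : ℂ)‖ ≤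
      Real.exp T1 * (∫ T in Ioc 0 T1, |T ^ k * u T * Real.exp (-(1 * T))|) +
        η * ((1 / s.re) ^ (k + 1) * Real.Gamma (k + 1)) := by
  set x := s.re with hx
  have h1 : ‖∫ T in Ioi (0 : ℝ), Complex.exp (-(s * T)) * ((T ^ k * u T : ℝ) : ℂ)‖ ≤
      ∫ T in Ioi (0 : ℝ), |T ^ k * u T * Real.exp (-(x * T))| := by
    refine (norm_integral_le_integral_norm _).trans (le_of_eq ?_)
    refine setIntegral_congr_fun measurableSet_Ioi fun T _ => ?_
    simp only [norm_mul, Complex.norm_exp, Complex.norm_real, Real.norm_eq_abs, Complex.neg_re,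
      Complex.mul_re, Complex.ofReal_re, Complex.ofReal_im, mul_zero, sub_zero, abs_mul,
      Real.abs_exp, ← hx]
    ring
  have hI : IntegrableOn (fun T : ℝ => |T ^ k * u T * Real.exp (-(x * T))|) (Ioi 0) :=
    (hint x hs).abs
  have hI1 : IntegrableOn (fun T : ℝ => |T ^ k * u T * Real.exp (-(1 * T))|) (Ioi 0) :=
    (hint 1 one_pos).abs
  have h2 : ∫ T in Ioi (0 : ℝ), |T ^ k * u T * Real.exp (-(x * T))| =
      (∫ T in Ioc 0 T1, |T ^ k * u T * Real.exp (-(x * T))|) +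
        ∫ T in Ioi T1, |T ^ k * u T * Real.exp (-(x * T))| := by
    rw [← setIntegral_union (Ioc_disjoint_Ioi le_rfl) measurableSet_Ioi
      (hI.mono_set Ioc_subset_Ioi_self) (hI.mono_set (Ioi_subset_Ioi hT1.le)),
      Ioc_union_Ioi_eq_Ioi hT1.le]
  have h3 : (∫ T in Ioc 0 T1, |T ^ k * u T * Real.exp (-(x * T))|) ≤
      Real.exp T1 * (∫ T in Ioc 0 T1, |T ^ k * u T * Real.exp (-(1 * T))|) := by
    rw [← integral_const_mul]
    refine setIntegral_mono_on (hI.mono_set Ioc_subset_Ioi_self)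
      ((hI1.mono_set Ioc_subset_Ioi_self).const_mul _) measurableSet_Ioc
      fun T hT => ?_
    rw [abs_mul, abs_mul _ (Real.exp (-(1 * T))), Real.abs_exp, Real.abs_exp, mul_left_comm,
      ← Real.exp_add]
    refine mul_le_mul_of_nonneg_left (Real.exp_le_exp.2 ?_) (abs_nonneg _)
    have : 0 ≤ x * T := mul_nonneg hs.le hT.1.le
    linarith [hT.2]
  have hE : IntegrableOn (fun T : ℝ => T ^ k * Real.exp (-(x * T))) (Ioi 0) := by
    have := integrableOn_rpow_mul_exp_neg_mul_rpow (s := k) (p := 1) (b := x) (by linarith)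
      one_pos hs
    simpa only [Real.rpow_one, neg_mul] using this
  have h4 : (∫ T in Ioi T1, |T ^ k * u T * Real.exp (-(x * T))|) ≤
      η * ((1 / x) ^ (k + 1) * Real.Gamma (k + 1)) := by
    have h5 := Real.integral_rpow_mul_exp_neg_mul_Ioi (a := k + 1) (r := x) (by linarith) hs
    simp only [add_sub_cancel_right] at h5
    rw [← h5, ← integral_const_mul]
    refine le_trans (setIntegral_mono_on (hI.mono_set (Ioi_subset_Ioi hT1.le))
      ((hE.mono_set (Ioi_subset_Ioi hT1.le)).const_mul η) measurableSet_Ioi fun T hT => ?_)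
      (setIntegral_mono_set (hE.const_mul η) ?_ (Ioi_subset_Ioi hT1.le).eventuallyLE)
    · have hT0 : 0 < T := hT1.trans hT
      rw [abs_mul, abs_mul, Real.abs_exp, abs_of_nonneg (Real.rpow_nonneg hT0.le k)]
      have h6 : |u T| ≤ η := hu T (le_of_lt hT)
      have h7 : 0 ≤ T ^ k * Real.exp (-(x * T)) :=
        mul_nonneg (Real.rpow_nonneg hT0.le k) (Real.exp_pos _).le
      calc T ^ k * |u T| * Real.exp (-(x * T)) = |u T| * (T ^ k * Real.exp (-(x * T))) := by ring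
        _ ≤ η * (T ^ k * Real.exp (-(x * T))) := mul_le_mul_of_nonneg_right h6 h7
    · refine (ae_restrict_iff' measurableSet_Ioi).2 (ae_of_all _ fun T hT => ?_)
      exact mul_nonneg hη (mul_nonneg (Real.rpow_nonneg (le_of_lt hT) k) (Real.exp_pos _).le)
  linarith

/-- an Abelian theorem in angles -/
theorem abel_limit {u : ℝ → ℝ} (hu : Measurable u) {k : ℝ} (hk : 0 ≤ k)
    (hint : ∀ x : ℝ, 0 < x → IntegrableOn (fun T : ℝ => T ^ k * u T * Real.exp (-(x * T))) (Ioi 0))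
    (hlim : Tendsto u atTop (𝓝 0)) {K ε : ℝ} (hK : 0 < K) (hε : 0 < ε) :
    ∃ δ : ℝ, 0 < δ ∧ ∀ s : ℂ, 0 < s.re → ‖s‖ ≤ K * s.re → ‖s‖ < δ →
      ‖s ^ ((k : ℂ) + 1) * ∫ T in Ioi (0 : ℝ), Complex.exp (-(s * T)) * ((T ^ k * u T : ℝ) : ℂ)‖ ≤ ε := by
  have hG : 0 < Real.Gamma (k + 1) := Real.Gamma_pos_of_pos (by linarith)
  have hKG : 0 < K ^ (k + 1) * Real.Gamma (k + 1) := mul_pos (Real.rpow_pos_of_pos hK _) hG
  set η : ℝ := ε / 2 / (K ^ (k + 1) * Real.Gamma (k + 1)) with hηd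
  have hη : 0 < η := div_pos (half_pos hε) hKG
  obtain ⟨T0, hT0⟩ : ∃ T0 : ℝ, ∀ T, T0 ≤ T → |u T| ≤ η := by
    have := hlim.eventually (Metric.closedBall_mem_nhds (0 : ℝ) hη)
    obtain ⟨T0, h⟩ := eventually_atTop.1 this
    exact ⟨T0, fun T hT => by simpa [Metric.mem_closedBall, Real.dist_eq] using h T hT⟩
  set T1 : ℝ := max T0 1 with hT1d
  have hT1 : 0 < T1 := lt_of_lt_of_le one_pos (le_max_right _ _)
  have hub : ∀ T, T1 ≤ T → |u T| ≤ η := fun T hT => hT0 T ((le_max_left _ _).trans hT)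
  set M : ℝ := Real.exp T1 * (∫ T in Ioc 0 T1, |T ^ k * u T * Real.exp (-(1 * T))|) with hMd
  have hM : 0 ≤ M := mul_nonneg (Real.exp_pos _).le (integral_nonneg fun T => abs_nonneg _)
  refine ⟨min 1 (ε / (2 * (M + 1))), lt_min one_pos (by positivity), fun s hs hsK hsd => ?_⟩
  have hb := Abel.bound hk hint hη.le hT1 hub hs
  have hs0 : 0 < ‖s‖ := lt_of_lt_of_le hs (Complex.re_le_norm s)
  have hs1 : ‖s‖ < 1 := hsd.trans_le (min_le_left _ _)
  have hs2 : ‖s‖ < ε / (2 * (M + 1)) := hsd.trans_le (min_le_right _ _)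
  have hn : ‖s ^ ((k : ℂ) + 1)‖ = ‖s‖ ^ (k + 1) := by
    have : ((k : ℂ) + 1) = ((k + 1 : ℝ) : ℂ) := by push_cast; rfl
    rw [this, Complex.norm_cpow_real]
  rw [norm_mul, hn]
  have hp : 0 ≤ ‖s‖ ^ (k + 1) := Real.rpow_nonneg hs0.le _
  refine (mul_le_mul_of_nonneg_left hb hp).trans ?_
  rw [mul_add]
  have hA : ‖s‖ ^ (k + 1) * M ≤ ε / 2 := by
    have h1 : ‖s‖ ^ (k + 1) ≤ ‖s‖ := by
      conv_rhs => rw [← Real.rpow_one ‖s‖]
      exact Real.rpow_le_rpow_of_exponent_ge hs0 hs1.le (by linarith)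
    have h2 : ‖s‖ ^ (k + 1) * M ≤ ε / (2 * (M + 1)) * (M + 1) :=
      mul_le_mul (h1.trans hs2.le) (by linarith) hM (by positivity)
    have h3 : ε / (2 * (M + 1)) * (M + 1) = ε / 2 := by
      have : M + 1 ≠ 0 := by positivity
      field_simp
    linarith
  have hB : ‖s‖ ^ (k + 1) * (η * ((1 / s.re) ^ (k + 1) * Real.Gamma (k + 1))) ≤ ε / 2 := by
    have h1 : ‖s‖ ^ (k + 1) * (1 / s.re) ^ (k + 1) ≤ K ^ (k + 1) := by
      rw [← Real.mul_rpow hs0.le (by positivity)]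
      refine Real.rpow_le_rpow (by positivity) ?_ (by linarith)
      rw [mul_one_div, div_le_iff₀ hs]
      exact hsK
    calc ‖s‖ ^ (k + 1) * (η * ((1 / s.re) ^ (k + 1) * Real.Gamma (k + 1)))
        = (‖s‖ ^ (k + 1) * (1 / s.re) ^ (k + 1)) * (η * Real.Gamma (k + 1)) := by ring
      _ ≤ K ^ (k + 1) * (η * Real.Gamma (k + 1)) :=
          mul_le_mul_of_nonneg_right h1 (mul_nonneg hη.le hG.le)
      _ = ε / 2 := by rw [hηd]; field_simp
  linarith

end Pool.Agent.TH942.RA
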