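import Pool.Agent.TH942.SL.Prim
import Pool.Agent.H388LH.ZG

/-!
# The series with the terms `n ^ (-1/2 - s) / log n` (helper496, job 4228)
-/

set_option autoImplicit false

open Filter Topology Set Complex

namespace Pool.Agent.TH942.RA

/-- the frequencies `log (n + 2)` -/
noncomputable def lamI (n : ℕ) : ℝ := Real.log ((n : ℝ) + 2)

/-- the coefficients `(n + 2)^(-1/2) / log (n + 2)` -/
noncomputable def cI (n : ℕ) : ℝ := 1 / (√((n : ℝ) + 2) * Real.log ((n : ℝ) + 2))

namespace Comp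

lemma lam_pos (n : ℕ) : 0 < lamI n := by
  unfold lamI
  apply Real.log_pos
  have : (0 : ℝ) ≤ n := Nat.cast_nonneg n
  linarith

lemma c_pos (n : ℕ) : 0 < cI n := by
  have h := lam_pos n
  unfold lamI at h
  unfold cI
  have : (0 : ℝ) < (n : ℝ) + 2 := by positivity
  positivity

/-- the terms of the derivative -/
lemma lam_c_exp (n : ℕ) (s : ℂ) : (lamI n : ℂ) * ((cI n : ℂ) * exp (-(s * lamI n))) =
    1 / ((n : ℂ) + 2) ^ (s + 1 / 2) := by
  have hN : (0 : ℝ) < (n : ℝ) + 2 := by positivity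
  have hl := (lam_pos n).ne'
  have hN' : ((n : ℂ) + 2) ≠ 0 := by
    have : (((n : ℝ) + 2 : ℝ) : ℂ) ≠ 0 := by exact_mod_cast hN.ne'
    simpa using this
  have h1 : (lamI n : ℂ) * (cI n : ℂ) = ((((n : ℝ) + 2) ^ (-(1 / 2) : ℝ) : ℝ) : ℂ) := by
    rw [← Complex.ofReal_mul]
    congr 1
    unfold lamI cI
    unfold lamI at hl
    rw [Real.rpow_neg hN.le, ← Real.sqrt_eq_rpow]
    have : √((n : ℝ) + 2) ≠ 0 := (Real.sqrt_pos.2 hN).ne'
    field_simp
  rw [← mul_assoc, h1, Complex.ofReal_cpow hN.le]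
  have h2 : (lamI n : ℂ) = log ((n : ℂ) + 2) := by
    unfold lamI
    rw [Complex.ofReal_log hN.le]
    push_cast
    rfl
  rw [h2]
  push_cast
  rw [Complex.cpow_def_of_ne_zero hN', Complex.cpow_def_of_ne_zero hN', ← Complex.exp_add,
    eq_div_iff (Complex.exp_ne_zero _), ← Complex.exp_add, ← Complex.exp_zero]
  congr 1
  ring

lemma norm_term (n : ℕ) (s : ℂ) : ‖(cI n : ℂ) * exp (-(s * lamI n))‖ =
    |cI n| * Real.exp (-(s.re * lamI n)) := by
  rw [norm_mul, Complex.norm_real, Real.norm_eq_abs, Complex.norm_exp, Complex.neg_re,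
    Complex.re_mul_ofReal]

lemma summ {σ : ℝ} (hσ : 1 / 2 < σ) :
    Summable fun n => |cI n| * Real.exp (-(σ * lamI n)) := by
  have h1 : Summable fun n : ℕ => 1 / ((n : ℝ) ^ (1 / 2 + σ)) :=
    Real.summable_one_div_nat_rpow.2 (by linarith)
  have h2 : Summable fun n : ℕ => 1 / (((n + 2 : ℕ) : ℝ) ^ (1 / 2 + σ)) :=
    (summable_nat_add_iff 2).2 h1
  refine Summable.of_nonneg_of_le (fun n => by positivity) (fun n => ?_) (h2.mul_left (1 / Real.log 2))
  have hN : (0 : ℝ) < (n : ℝ) + 2 := by positivity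
  have hl := lam_pos n
  rw [abs_of_pos (c_pos n)]
  have hlog2 : 0 < Real.log 2 := Real.log_pos (by norm_num)
  have hle : Real.log 2 ≤ lamI n := by
    unfold lamI
    apply Real.log_le_log (by norm_num)
    have : (0 : ℝ) ≤ n := Nat.cast_nonneg n
    linarith
  have e1 : cI n * Real.exp (-(σ * lamI n)) = (1 / lamI n) * (1 / (((n + 2 : ℕ) : ℝ) ^ (1 / 2 + σ))) := by
    have e2 : Real.exp (-(σ * lamI n)) = ((n : ℝ) + 2) ^ (-σ) := by
      rw [Real.rpow_def_of_pos hN]
      unfold lamI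
      congr 1
      ring
    rw [e2]
    push_cast
    rw [Real.rpow_add hN, Real.rpow_neg hN.le, ← Real.sqrt_eq_rpow]
    unfold cI lamI
    have h3 : √((n : ℝ) + 2) ≠ 0 := (Real.sqrt_pos.2 hN).ne'
    have h4 : ((n : ℝ) + 2) ^ σ ≠ 0 := (Real.rpow_pos_of_pos hN _).ne'
    unfold lamI at hl
    have h5 := hl.ne'
    field_simp
  rw [e1]
  refine mul_le_mul_of_nonneg_right ?_ (by positivity)
  exact one_div_le_one_div_of_le hlog2 hle

/-- the series -/
noncomputable def f (s : ℂ) : ℂ := ∑' n : ℕ, (cI n : ℂ) * exp (-(s * lamI n))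

lemma f_deriv {s : ℂ} (hs : 1 / 2 < s.re) : HasDerivAt f (1 - riemannZeta (s + 1 / 2)) s := by
  obtain ⟨σ, h1, h2⟩ := exists_between hs
  have ho : IsOpen {z : ℂ | σ < z.re} := isOpen_lt continuous_const Complex.continuous_re
  have hb : ∀ (n : ℕ) (z : ℂ), z ∈ {z : ℂ | σ < z.re} → ‖(cI n : ℂ) * exp (-(z * lamI n))‖ ≤
      |cI n| * Real.exp (-(σ * lamI n)) := by
    intro n z hz
    rw [norm_term]
    refine mul_le_mul_of_nonneg_left (Real.exp_le_exp.2 ?_) (abs_nonneg _)
    have hz' : σ < z.re := hz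
    have := mul_le_mul_of_nonneg_right hz'.le (lam_pos n).le
    linarith
  have hder : ∀ (n : ℕ) (z : ℂ), HasDerivAt (fun z : ℂ => (cI n : ℂ) * exp (-(z * lamI n)))
      (-((lamI n : ℂ) * ((cI n : ℂ) * exp (-(z * lamI n))))) z := by
    intro n z
    have h3 : HasDerivAt (fun z : ℂ => -(z * (lamI n : ℂ))) (-(lamI n : ℂ)) z := by
      have := ((hasDerivAt_id z).mul_const (lamI n : ℂ)).fun_neg
      simpa using this
    refine (h3.cexp.const_mul (cI n : ℂ)).congr_deriv ?_
    ring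
  have hdiff : ∀ n : ℕ, DifferentiableOn ℂ (fun z : ℂ => (cI n : ℂ) * exp (-(z * lamI n)))
      {z : ℂ | σ < z.re} := fun n z _ => (hder n z).differentiableAt.differentiableWithinAt
  have hd := differentiableOn_tsum_of_summable_norm (summ h1) hdiff ho hb
  have hS := hasSum_deriv_of_summable_norm (summ h1) hdiff ho hb (z := s) h2
  have hf : DifferentiableAt ℂ f s := (hd s h2).differentiableAt (ho.mem_nhds h2)
  have e1 : deriv f s = 1 - riemannZeta (s + 1 / 2) := by
    have e2 : deriv f s = ∑' n : ℕ, -(1 / ((n : ℂ) + 2) ^ (s + 1 / 2)) := by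
      have h3 := hS.tsum_eq
      have h4 : deriv f s = deriv (fun w : ℂ => ∑' i : ℕ, (cI i : ℂ) * exp (-(w * lamI i))) s := rfl
      rw [h4, ← h3]
      refine tsum_congr fun n => ?_
      rw [(hder n s).deriv, lam_c_exp]
    have hw : 1 < (s + 1 / 2).re := by
      have : (s + 1 / 2).re = s.re + 1 / 2 := by simp
      rw [this]
      linarith
    have hz := zeta_eq_tsum_one_div_nat_add_one_cpow hw
    have hsum : Summable fun n : ℕ => 1 / ((n : ℂ) + 1) ^ (s + 1 / 2) := by
      have h5 := Complex.summable_one_div_nat_cpow.2 hw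
      have h6 := (summable_nat_add_iff 1).2 h5
      refine h6.congr fun n => ?_
      push_cast
      rfl
    rw [e2, hz, hsum.tsum_eq_zero_add, tsum_neg]
    simp only [Nat.cast_zero, zero_add, Complex.one_cpow, div_one]
    have h7 : ∀ n : ℕ, 1 / (((n + 1 : ℕ) : ℂ) + 1) ^ (s + 1 / 2) = 1 / ((n : ℂ) + 2) ^ (s + 1 / 2) := by
      intro n
      push_cast
      ring_nf
    rw [tsum_congr h7]
    ring
  rw [← e1]
  exact hf.hasDerivAt

/-- the integral in the formula for zeta -/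
noncomputable def J (w : ℂ) : ℂ :=
  ∫ u in Ioi (1 : ℝ), ((Int.fract u : ℝ) : ℂ) * (u : ℂ) ^ (-w - 1)

/-- the difference of the derivatives -/
noncomputable def k (s : ℂ) : ℂ := (s + 1 / 2) * J (s + 1 / 2) - 1 / (s + 1)

lemma k_diff : DifferentiableOn ℂ k {s : ℂ | 0 < s.re} := by
  have h1 : DifferentiableOn ℂ J {s : ℂ | 0 < s.re} := ZU.J_a1.zf_diff
  have ho : IsOpen {z : ℂ | 0 < z.re} := isOpen_lt continuous_const Complex.continuous_re
  intro s hs
  have hs' : 0 < s.re := hs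
  have hw : s + 1 / 2 ∈ {s : ℂ | 0 < s.re} := by
    show 0 < (s + 1 / 2).re
    have : (s + 1 / 2).re = s.re + 1 / 2 := by simp
    rw [this]
    linarith
  have h2 : DifferentiableAt ℂ J (s + 1 / 2) := (h1 _ hw).differentiableAt (ho.mem_nhds hw)
  have h3 : DifferentiableAt ℂ (fun s : ℂ => J (s + 1 / 2)) s :=
    DifferentiableAt.comp (g := J) (f := fun s : ℂ => s + 1 / 2) s h2
      (differentiableAt_id.add_const _)
  have h4 : s + 1 ≠ 0 := by
    intro h
    have := congrArg Complex.re h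
    simp at this
    linarith
  unfold k
  exact (((differentiableAt_id.add_const _).mul h3).sub
    ((differentiableAt_const _).div (differentiableAt_id.add_const _) h4)).differentiableWithinAt

lemma k_bound {s : ℂ} (hs : 0 < s.re) (hs1 : s.re ≤ 1) : ‖k s‖ ≤ 4 + 2 * |s.im| := by
  have hre : (s + 1 / 2).re = s.re + 1 / 2 := by simp
  have him : (s + 1 / 2).im = s.im := by simp
  have hw : 0 < (s + 1 / 2).re := by rw [hre]; linarith
  have h1 : ‖J (s + 1 / 2)‖ ≤ 1 / (s + 1 / 2).re := Pool.Agent.H388LH.fract_int_bound hw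
  have h2 : ‖J (s + 1 / 2)‖ ≤ 2 := by
    refine h1.trans ?_
    rw [div_le_iff₀ hw, hre]
    linarith
  have h3 : ‖s + 1 / 2‖ ≤ 3 / 2 + |s.im| := by
    refine (Complex.norm_le_abs_re_add_abs_im _).trans ?_
    rw [hre, him, abs_of_pos (by linarith)]
    linarith
  have h4 : ‖1 / (s + 1)‖ ≤ 1 := by
    rw [norm_div, norm_one]
    refine div_le_one_of_le₀ ?_ (norm_nonneg _)
    have := Complex.re_le_norm (s + 1)
    simp at this
    linarith
  unfold k
  refine (norm_sub_le _ _).trans ?_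
  rw [norm_mul]
  have h5 : ‖s + 1 / 2‖ * ‖J (s + 1 / 2)‖ ≤ (3 / 2 + |s.im|) * 2 :=
    mul_le_mul h3 h2 (norm_nonneg _) (by positivity)
  linarith

/-- the quotient -/
lemma quot_facts {s : ℂ} (hs : 1 / 2 < s.re) :
    (s + 1) / (s - 1 / 2) ∈ slitPlane ∧ s - 1 / 2 ≠ 0 ∧ s + 1 ≠ 0 := by
  have h1 : s - 1 / 2 ≠ 0 := by
    intro h
    have := congrArg Complex.re h
    simp at this
    linarith
  have h2 : s + 1 ≠ 0 := by
    intro h
    have := congrArg Complex.re h
    simp at this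
    linarith
  refine ⟨Or.inl ?_, h1, h2⟩
  have e : (s + 1) / (s - 1 / 2) = 1 + (3 / 2 : ℝ) * (s - 1 / 2)⁻¹ := by
    have e1 : s + 1 = (s - 1 / 2) + 3 / 2 := by ring
    rw [e1, add_div, div_self h1]
    push_cast
    ring
  rw [e, Complex.add_re, Complex.one_re, Complex.re_ofReal_mul, Complex.inv_re]
  have h3 : 0 ≤ (s - 1 / 2).re := by
    simp
    linarith
  have h4 : 0 ≤ Complex.normSq (s - 1 / 2) := Complex.normSq_nonneg _
  positivity

lemma log_deriv {s : ℂ} (hs : 1 / 2 < s.re) :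
    HasDerivAt (fun s : ℂ => log ((s + 1) / (s - 1 / 2))) (1 / (s + 1) - 1 / (s - 1 / 2)) s := by
  obtain ⟨h1, h2, h3⟩ := quot_facts hs
  have h4 : HasDerivAt (fun s : ℂ => (s + 1) / (s - 1 / 2))
      ((1 * (s - 1 / 2) - (s + 1) * 1) / (s - 1 / 2) ^ 2) s :=
    ((hasDerivAt_id s).add_const 1).div ((hasDerivAt_id s).sub_const (1 / 2)) h2
  refine (h4.clog h1).congr_deriv ?_
  have key : ∀ d e : ℂ, d ≠ 0 → e ≠ 0 → ((1 * d - e * 1) / d ^ 2) / (e / d) = 1 / e - 1 / d := by
    intro d e hd he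
    field_simp
  exact key _ _ h2 h3

lemma norm_log_le {s : ℂ} (hs : 1 ≤ s.re) : ‖log ((s + 1) / (s - 1 / 2))‖ ≤ Real.log 4 + Real.pi := by
  obtain ⟨h1, h2, h3⟩ := quot_facts (s := s) (by linarith)
  have h4 : ‖log ((s + 1) / (s - 1 / 2))‖ ≤ |(log ((s + 1) / (s - 1 / 2))).re| +
      |(log ((s + 1) / (s - 1 / 2))).im| := Complex.norm_le_abs_re_add_abs_im _
  refine h4.trans (add_le_add ?_ ?_)
  · rw [Complex.log_re]
    have hn : 1 / 2 ≤ ‖s - 1 / 2‖ := by
      have := Complex.re_le_norm (s - 1 / 2)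
      simp at this
      linarith
    have hq : ‖(s + 1) / (s - 1 / 2)‖ ≤ 4 := by
      have e : (s + 1) / (s - 1 / 2) = 1 + (3 / 2) / (s - 1 / 2) := by
        have e1 : s + 1 = (s - 1 / 2) + 3 / 2 := by ring
        rw [e1, add_div, div_self h2]
      rw [e]
      refine (norm_add_le _ _).trans ?_
      rw [norm_one, norm_div]
      have : ‖(3 / 2 : ℂ)‖ = 3 / 2 := by norm_num
      rw [this]
      have : (3 / 2 : ℝ) / ‖s - 1 / 2‖ ≤ 3 := by
        rw [div_le_iff₀ (by linarith)]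
        linarith
      linarith
    have hq1 : 1 ≤ ‖(s + 1) / (s - 1 / 2)‖ := by
      rw [norm_div, one_le_div (by linarith)]
      rw [Complex.norm_def, Complex.norm_def]
      apply Real.sqrt_le_sqrt
      rw [Complex.normSq_apply, Complex.normSq_apply]
      simp
      nlinarith
    rw [abs_of_nonneg (Real.log_nonneg hq1)]
    exact Real.log_le_log (by linarith) hq
  · rw [Complex.log_im]
    exact Complex.abs_arg_le_pi _

lemma norm_f_le {s : ℂ} (hs : 1 ≤ s.re) :
    ‖f s‖ ≤ ∑' n : ℕ, |cI n| * Real.exp (-(1 * lamI n)) := by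
  have hsum := summ (σ := 1) (by norm_num)
  unfold f
  refine tsum_of_norm_bounded hsum.hasSum fun n => ?_
  rw [norm_term]
  refine mul_le_mul_of_nonneg_left (Real.exp_le_exp.2 ?_) (abs_nonneg _)
  have := mul_le_mul_of_nonneg_right hs (lam_pos n).le
  linarith

lemma const_of_deriv_zero {U : Set ℂ} (hc : Convex ℝ U) {f : ℂ → ℂ}
    (hf : ∀ z ∈ U, HasDerivAt f 0 z) {z w : ℂ} (hz : z ∈ U) (hw : w ∈ U) : f z = f w := by
  have h := hc.norm_image_sub_le_of_norm_hasDerivWithin_le (f := f) (f' := fun _ => 0) (C := 0)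
    (x := w) (y := z) (fun x hx => (hf x hx).hasDerivWithinAt) (fun x _ => by simp) hw hz
  rw [zero_mul] at h
  exact sub_eq_zero.1 (norm_le_zero_iff.1 h)

end Comp

open _root_.Pool.Agent.TH942.RA.Comp

theorem comp_summable {σ : ℝ} (hσ : 1 / 2 < σ) :
    Summable fun n => |cI n| * Real.exp (-(σ * lamI n)) := summ hσ

theorem comp_spec : ∃ h : ℂ → ℂ, (∀ s : ℂ, 0 < s.re → DifferentiableAt ℂ h s) ∧
    (∀ s : ℂ, 1 / 2 < s.re → ∑' n : ℕ, (cI n : ℂ) * exp (-(s * lamI n)) =
      log ((s + 1) / (s - 1 / 2)) + h s) ∧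
    ∃ C : ℝ, ∀ s : ℂ, 0 < s.re → ‖h s‖ ≤ C * (‖s‖ / s.re) := by
  obtain ⟨h0, hh0⟩ := Pool.Agent.TH942.SL.convex_primitive
    (U := {s : ℂ | 0 < s.re}) (isOpen_lt continuous_const Complex.continuous_re)
    (convex_halfSpace_re_gt 0) k_diff
  set c0 : ℂ := f 1 - log ((1 + 1) / (1 - 1 / 2)) - h0 1 with hc0
  have hd : ∀ s : ℂ, 0 < s.re → HasDerivAt (fun s => h0 s + c0) (k s) s :=
    fun s hs => (hh0 s hs).add_const c0
  have heq : ∀ s : ℂ, 1 / 2 < s.re → f s = log ((s + 1) / (s - 1 / 2)) + (h0 s + c0) := by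
    intro s hs
    have h1 : ∀ z ∈ {z : ℂ | 1 / 2 < z.re},
        HasDerivAt (fun z : ℂ => f z - log ((z + 1) / (z - 1 / 2)) - (h0 z + c0)) 0 z := by
      intro z hz
      have hz' : 1 / 2 < z.re := hz
      refine (((f_deriv hz').sub (log_deriv hz')).sub (hd z (by linarith))).congr_deriv ?_
      obtain ⟨-, h2, h3⟩ := quot_facts hz'
      have hw : 0 < (z + 1 / 2).re := by
        have : (z + 1 / 2).re = z.re + 1 / 2 := by simp
        rw [this]
        linarith
      have hw1 : z + 1 / 2 ≠ 1 := by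
        intro h
        apply h2
        linear_combination h
      have h4 := Pool.Agent.H388LH.zeta_eq hw hw1
      have h5 : riemannZeta (z + 1 / 2) = 1 + 1 / (z - 1 / 2) - (z + 1 / 2) * J (z + 1 / 2) := by
        rw [h4]
        unfold J
        congr 2
        congr 1
        ring
      rw [h5]
      unfold k
      ring
    have h6 := const_of_deriv_zero (convex_halfSpace_re_gt (1 / 2)) h1 (z := s) (w := 1) hs (by
      show (1 / 2 : ℝ) < (1 : ℂ).re
      norm_num)
    rw [hc0] at h6 ⊢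
    linear_combination h6
  refine ⟨fun s => h0 s + c0, fun s hs => (hd s hs).differentiableAt, heq, ?_⟩
  set B : ℝ := ∑' n : ℕ, |cI n| * Real.exp (-(1 * lamI n)) with hB
  have hB0 : 0 ≤ B := tsum_nonneg fun n => by positivity
  have hfar : ∀ s : ℂ, 1 ≤ s.re → ‖h0 s + c0‖ ≤ B + (Real.log 4 + Real.pi) := by
    intro s hs
    have h1 := heq s (by linarith)
    have h2 : h0 s + c0 = f s - log ((s + 1) / (s - 1 / 2)) := by rw [h1]; ring
    rw [h2]
    exact (norm_sub_le _ _).trans (add_le_add (norm_f_le hs) (norm_log_le hs))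
  have hlog4 : 0 ≤ Real.log 4 := Real.log_nonneg (by norm_num)
  have hpi := Real.pi_pos
  refine ⟨B + (Real.log 4 + Real.pi) + 6, fun s hs => ?_⟩
  have hq1 : 1 ≤ ‖s‖ / s.re := by
    rw [one_le_div hs]
    exact Complex.re_le_norm s
  rcases le_total 1 s.re with h1 | h1
  · refine (hfar s h1).trans ?_
    nlinarith
  · -- the strip
    set s1 : ℂ := ⟨1, s.im⟩ with hs1
    have h2 := hfar s1 (by rw [hs1])
    have hU : Convex ℝ {z : ℂ | s.re ≤ z.re ∧ z.re ≤ 1 ∧ z.im = s.im} := by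
      intro x hx y hy a b ha hb hab
      refine ⟨?_, ?_, ?_⟩
      · have : (a • x + b • y).re = a * x.re + b * y.re := by simp
        rw [this]
        have h3 := mul_le_mul_of_nonneg_left hx.1 ha
        have h4 := mul_le_mul_of_nonneg_left hy.1 hb
        have h5 : s.re = a * s.re + b * s.re := by rw [← add_mul, hab, one_mul]
        linarith
      · have : (a • x + b • y).re = a * x.re + b * y.re := by simp
        rw [this]
        have h3 := mul_le_mul_of_nonneg_left hx.2.1 ha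
        have h4 := mul_le_mul_of_nonneg_left hy.2.1 hb
        linarith
      · have : (a • x + b • y).im = a * x.im + b * y.im := by simp
        rw [this, hx.2.2, hy.2.2, ← add_mul, hab, one_mul]
    have h3 := hU.norm_image_sub_le_of_norm_hasDerivWithin_le (f := fun s => h0 s + c0)
      (f' := k) (C := 4 + 2 * |s.im|) (x := s1) (y := s)
      (fun z hz => (hd z (lt_of_lt_of_le hs hz.1)).hasDerivWithinAt)
      (fun z hz => by
        have := k_bound (lt_of_lt_of_le hs hz.1) hz.2.1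
        rw [hz.2.2] at this
        exact this)
      ⟨by rw [hs1]; exact h1, by rw [hs1], by rw [hs1]⟩ ⟨le_rfl, h1, rfl⟩
    have h4 : ‖s - s1‖ ≤ 1 := by
      have e : s - s1 = ((s.re - 1 : ℝ) : ℂ) := by
        apply Complex.ext
        · simp [hs1]
        · simp [hs1]
      rw [e, Complex.norm_real, Real.norm_eq_abs, abs_le]
      constructor <;> linarith
    have h5 : ‖h0 s + c0‖ ≤ ‖h0 s1 + c0‖ + (4 + 2 * |s.im|) * 1 := by
      have h6 : ‖h0 s + c0‖ ≤ ‖h0 s1 + c0‖ + ‖(h0 s + c0) - (h0 s1 + c0)‖ := by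
        have := norm_add_le (h0 s1 + c0) ((h0 s + c0) - (h0 s1 + c0))
        rwa [add_sub_cancel] at this
      have h7 : (4 + 2 * |s.im|) * ‖s - s1‖ ≤ (4 + 2 * |s.im|) * 1 :=
        mul_le_mul_of_nonneg_left h4 (by positivity)
      linarith
    have h8 : |s.im| ≤ ‖s‖ / s.re := by
      rw [le_div_iff₀ hs]
      have h9 := Complex.abs_im_le_norm s
      have h10 : |s.im| * s.re ≤ |s.im| * 1 := mul_le_mul_of_nonneg_left h1 (abs_nonneg _)
      linarith
    nlinarith

end Pool.Agent.TH942.RA
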