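import Mathlib

/-!
# The Laplace transform of `T ^ k log T`
-/

set_option autoImplicit false

open MeasureTheory Filter Topology Set

namespace Pool.Agent.TH942.RA

namespace LogLap

lemma gamma_deriv {y : ℝ} (hy : 0 < y) :
    HasDerivAt Complex.Gamma (((deriv Real.Gamma y : ℝ) : ℂ)) (y : ℂ) := by
  have h1 : DifferentiableAt ℂ Complex.Gamma (y : ℂ) := by
    refine Complex.differentiableAt_Gamma _ fun m h => ?_
    have h2 := congrArg Complex.re h
    rw [Complex.ofReal_re, Complex.neg_re, Complex.natCast_re] at h2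
    have : (0 : ℝ) ≤ m := Nat.cast_nonneg m
    linarith
  have h2 : DifferentiableAt ℝ Real.Gamma y := by
    refine Real.differentiableAt_Gamma fun m h => ?_
    have : (0 : ℝ) ≤ m := Nat.cast_nonneg m
    linarith
  have h3 := h1.hasDerivAt.comp_ofReal
  have h4 : (fun y : ℝ => Complex.Gamma (y : ℂ)) = fun y : ℝ => ((Real.Gamma y : ℝ) : ℂ) := by
    funext y
    exact Complex.Gamma_ofReal y
  rw [h4] at h3
  have h5 := h2.hasDerivAt.ofReal_comp
  have h6 := h3.unique h5
  rw [← h6]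
  exact h1.hasDerivAt

/-- the exponential function -/
noncomputable def fe (x : ℝ) (t : ℝ) : ℂ := ((Real.exp (-(x * t)) : ℝ) : ℂ)

lemma fe_top {x : ℝ} (hx : 0 < x) (a : ℝ) : fe x =O[atTop] (fun t : ℝ => t ^ (-a)) := by
  have h := (isLittleO_exp_neg_mul_rpow_atTop hx (-a)).isBigO
  have h2 : fe x = fun t => ((Real.exp (-x * t) : ℝ) : ℂ) := by
    funext t
    unfold fe
    rw [neg_mul]
  rw [h2]
  exact Complex.isBigO_ofReal_left.2 h

lemma fe_bot {x : ℝ} (hx : 0 < x) : fe x =O[𝓝[>] 0] (fun t : ℝ => t ^ (-(0 : ℝ))) := by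
  refine Asymptotics.IsBigO.of_bound 1 ?_
  filter_upwards [self_mem_nhdsWithin] with t ht
  have ht' : 0 < t := ht
  unfold fe
  rw [neg_zero, Real.rpow_zero, norm_one, mul_one, Complex.norm_real, Real.norm_eq_abs,
    abs_of_pos (Real.exp_pos _)]
  exact Real.exp_le_one_iff.2 (by nlinarith)

lemma mel {x : ℝ} (hx : 0 < x) {z : ℂ} (hz : 0 < z.re) :
    mellin (fe x) z = (1 / (x : ℂ)) ^ z * Complex.Gamma z := by
  rw [← Complex.integral_cpow_mul_exp_neg_mul_Ioi hz hx]
  unfold mellin fe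
  refine setIntegral_congr_fun measurableSet_Ioi fun t _ => ?_
  simp only [smul_eq_mul]
  push_cast
  rfl

/-- real case -/
lemma real_case {k : ℝ} (hk : 0 ≤ k) {x : ℝ} (hx : 0 < x) :
    IntegrableOn (fun T : ℝ => T ^ k * Real.log T * Real.exp (-(x * T))) (Ioi 0) ∧
    ∫ T in Ioi (0 : ℝ), ((T ^ k * Real.log T * Real.exp (-(x * T)) : ℝ) : ℂ) =
      (x : ℂ) ^ (-((k : ℂ) + 1)) * (((deriv Real.Gamma (k + 1) : ℝ) : ℂ) -
        ((Real.Gamma (k + 1) : ℝ) : ℂ) * Complex.log x) := by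
  have hz : (0 : ℝ) < (((k + 1 : ℝ) : ℂ)).re := by
    rw [Complex.ofReal_re]
    linarith
  obtain ⟨h1, h2⟩ := mellin_hasDerivAt_of_isBigO_rpow (a := k + 2) (b := 0) (f := fe x)
    (s := ((k + 1 : ℝ) : ℂ))
    ((by unfold fe; fun_prop : Continuous (fe x)).locallyIntegrable.locallyIntegrableOn _)
    (fe_top hx _) (by rw [Complex.ofReal_re]; linarith) (fe_bot hx) hz
  have hcong : ∀ t ∈ Ioi (0 : ℝ), (t : ℂ) ^ ((((k + 1 : ℝ) : ℂ)) - 1) • (Real.log t • fe x t) =
      ((t ^ k * Real.log t * Real.exp (-(x * t)) : ℝ) : ℂ) := by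
    intro t ht
    have h3 : (((k + 1 : ℝ) : ℂ)) - 1 = (k : ℂ) := by push_cast; ring
    rw [h3, ← Complex.ofReal_cpow (le_of_lt ht)]
    unfold fe
    rw [smul_eq_mul, Complex.real_smul]
    push_cast
    ring
  have hI : IntegrableOn (fun T : ℝ => ((T ^ k * Real.log T * Real.exp (-(x * T)) : ℝ) : ℂ))
      (Ioi 0) := by
    refine IntegrableOn.congr_fun h1 hcong measurableSet_Ioi
  refine ⟨?_, ?_⟩
  · exact hI.re
  · have h3 : mellin (fun t => Real.log t • fe x t) ((k + 1 : ℝ) : ℂ)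
        = ∫ T in Ioi (0 : ℝ), ((T ^ k * Real.log T * Real.exp (-(x * T)) : ℝ) : ℂ) := by
      unfold mellin
      exact setIntegral_congr_fun measurableSet_Ioi hcong
    rw [← h3]
    have h4 : mellin (fe x) =ᶠ[𝓝 ((k + 1 : ℝ) : ℂ)]
        fun z => (1 / (x : ℂ)) ^ z * Complex.Gamma z := by
      have h5 : ∀ᶠ z : ℂ in 𝓝 ((k + 1 : ℝ) : ℂ), 0 < z.re :=
        (Complex.continuous_re.tendsto _).eventually_const_lt hz
      filter_upwards [h5] with z hz
      exact mel hx hz
    have h5 := (h4.hasDerivAt_iff).1 h2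
    have hx0 : (1 / (x : ℂ)) ≠ 0 := by
      rw [one_div, Ne, inv_eq_zero]
      exact_mod_cast hx.ne'
    have h6 : HasDerivAt (fun z : ℂ => (1 / (x : ℂ)) ^ z)
        ((1 / (x : ℂ)) ^ ((k + 1 : ℝ) : ℂ) * Complex.log (1 / (x : ℂ))) ((k + 1 : ℝ) : ℂ) := by
      have h7 := (hasDerivAt_id (((k + 1 : ℝ) : ℂ))).const_cpow (c := 1 / (x : ℂ)) (Or.inl hx0)
      simpa using h7
    have h7 := h6.mul (gamma_deriv (y := k + 1) (by linarith))
    have h8 := h5.unique h7
    rw [h8]
    have h9 : Complex.log (1 / (x : ℂ)) = - Complex.log x := by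
      rw [one_div, Complex.log_inv]
      rw [Complex.arg_ofReal_of_nonneg hx.le]
      exact Real.pi_ne_zero.symm
    have h10 : (1 / (x : ℂ)) ^ ((k + 1 : ℝ) : ℂ) = (x : ℂ) ^ (-((k : ℂ) + 1)) := by
      rw [one_div, Complex.inv_cpow, Complex.cpow_neg]
      · push_cast
        rfl
      · rw [Complex.arg_ofReal_of_nonneg hx.le]
        exact Real.pi_ne_zero.symm
    rw [h9, h10, Complex.Gamma_ofReal]
    ring

/-- the Laplace transform is differentiable -/
lemma diff {k : ℝ} (hk : 0 ≤ k) {s : ℂ} (hs : 0 < s.re) :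
    DifferentiableAt ℂ (fun s : ℂ => ∫ T in Ioi (0 : ℝ), Complex.exp (-(s * T)) *
      ((T ^ k * Real.log T : ℝ) : ℂ)) s := by
  have hc : 0 < s.re / 2 := by linarith
  obtain ⟨hi1, -⟩ := real_case (k := k + 1) (by linarith) hc
  obtain ⟨hi0, -⟩ := real_case hk hs
  have hmeas : ∀ z : ℂ, AEStronglyMeasurable (fun T : ℝ => Complex.exp (-(z * T)) *
      ((T ^ k * Real.log T : ℝ) : ℂ)) (volume.restrict (Ioi 0)) := by
    intro z
    refine ContinuousOn.aestronglyMeasurable ?_ measurableSet_Ioi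
    refine ContinuousOn.mul (by fun_prop) ?_
    refine Complex.continuous_ofReal.comp_continuousOn ?_
    refine ContinuousOn.mul ?_ ?_
    · exact continuousOn_id.rpow_const fun x hx => Or.inl (ne_of_gt hx)
    · exact Real.continuousOn_log.mono fun x hx => ne_of_gt hx
  have key := hasDerivAt_integral_of_dominated_loc_of_deriv_le (μ := volume.restrict (Ioi (0 : ℝ)))
    (F := fun (s : ℂ) (T : ℝ) => Complex.exp (-(s * T)) * ((T ^ k * Real.log T : ℝ) : ℂ))
    (F' := fun (s : ℂ) (T : ℝ) => (Complex.exp (-(s * T)) * (-(T : ℂ))) *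
      ((T ^ k * Real.log T : ℝ) : ℂ)) (x₀ := s)
    (bound := fun T : ℝ => ‖T ^ (k + 1) * Real.log T * Real.exp (-(s.re / 2 * T))‖)
    (Metric.ball_mem_nhds s hc) (Eventually.of_forall hmeas) ?_ ?_ ?_ hi1.norm ?_
  · exact key.2.differentiableAt
  · refine Integrable.mono' hi0.norm (hmeas s) ?_
    filter_upwards [ae_restrict_mem measurableSet_Ioi] with T hT
    rw [norm_mul, Complex.norm_exp, Complex.norm_real, norm_mul (T ^ k * Real.log T), mul_comm]
    refine le_of_eq ?_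
    rw [Real.norm_eq_abs (Real.exp _), abs_of_pos (Real.exp_pos _)]
    simp [Complex.mul_re]
  · refine AEStronglyMeasurable.congr ((hmeas s).mul
      ((by fun_prop : Continuous fun T : ℝ => (-(T : ℂ))).aestronglyMeasurable)) ?_
    exact Eventually.of_forall fun T => by
      change Complex.exp (-(s * T)) * ((T ^ k * Real.log T : ℝ) : ℂ) * (-(T : ℂ)) =
        (Complex.exp (-(s * T)) * (-(T : ℂ))) * ((T ^ k * Real.log T : ℝ) : ℂ)
      ring
  · filter_upwards [ae_restrict_mem measurableSet_Ioi] with T hT z hz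
    have hT0 : 0 < T := hT
    have hz' : s.re / 2 ≤ z.re := by
      have h1 : |(z - s).re| ≤ ‖z - s‖ := Complex.abs_re_le_norm _
      have h2 : ‖z - s‖ < s.re / 2 := mem_ball_iff_norm.1 hz
      have h3 := (abs_le.1 h1).1
      rw [Complex.sub_re] at h3
      linarith
    rw [norm_mul, norm_mul, norm_neg, Complex.norm_exp, Complex.norm_real, Complex.norm_real,
      norm_mul (T ^ k), norm_mul, norm_mul, Real.norm_eq_abs (Real.exp _),
      abs_of_pos (Real.exp_pos _), Real.norm_eq_abs T, abs_of_pos hT0,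
      Real.norm_eq_abs (T ^ k), Real.norm_eq_abs (T ^ (k + 1)),
      abs_of_nonneg (Real.rpow_nonneg hT0.le _), abs_of_nonneg (Real.rpow_nonneg hT0.le _),
      Real.rpow_add_one hT0.ne']
    have h1 : (-(z * T) : ℂ).re = -(z.re * T) := by simp [Complex.mul_re]
    rw [h1]
    have h2 : Real.exp (-(z.re * T)) ≤ Real.exp (-(s.re / 2 * T)) :=
      Real.exp_le_exp.2 (by nlinarith)
    have h3 : 0 ≤ T ^ k * ‖Real.log T‖ := mul_nonneg (Real.rpow_nonneg hT0.le _) (norm_nonneg _)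
    calc Real.exp (-(z.re * T)) * T * (T ^ k * ‖Real.log T‖)
        ≤ Real.exp (-(s.re / 2 * T)) * T * (T ^ k * ‖Real.log T‖) := by gcongr
      _ = T ^ k * T * ‖Real.log T‖ * Real.exp (-(s.re / 2 * T)) := by ring
  · refine Eventually.of_forall fun T z _ => ?_
    have h1 : HasDerivAt (fun z : ℂ => -(z * T)) (-(T : ℂ)) z := by
      have h2 := ((hasDerivAt_id z).mul_const (T : ℂ)).neg
      rw [one_mul] at h2
      exact h2
    exact h1.cexp.mul_const _

end LogLap

/-- the Laplace transform of `T^k log T` -/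
theorem log_laplace {k : ℝ} (hk : 0 ≤ k) {s : ℂ} (hs : 0 < s.re) :
    IntegrableOn (fun T : ℝ => T ^ k * Real.log T * Real.exp (-(s.re * T))) (Ioi 0) ∧
    ∫ T in Ioi (0 : ℝ), Complex.exp (-(s * T)) * ((T ^ k * Real.log T : ℝ) : ℂ) =
      s ^ (-((k : ℂ) + 1)) * (((deriv Real.Gamma (k + 1) : ℝ) : ℂ) -
        ((Real.Gamma (k + 1) : ℝ) : ℂ) * Complex.log s) := by
  refine ⟨(LogLap.real_case hk hs).1, ?_⟩
  have hopen : IsOpen {z : ℂ | 0 < z.re} := isOpen_lt continuous_const Complex.continuous_re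
  have hconv : Convex ℝ {z : ℂ | 0 < z.re} := convex_halfSpace_re_gt 0
  have hf : AnalyticOnNhd ℂ (fun s : ℂ => ∫ T in Ioi (0 : ℝ), Complex.exp (-(s * T)) *
      ((T ^ k * Real.log T : ℝ) : ℂ)) {z : ℂ | 0 < z.re} := by
    refine DifferentiableOn.analyticOnNhd (fun z hz => ?_) hopen
    exact (LogLap.diff hk hz).differentiableWithinAt
  have hg : AnalyticOnNhd ℂ (fun s : ℂ => s ^ (-((k : ℂ) + 1)) *
      (((deriv Real.Gamma (k + 1) : ℝ) : ℂ) - ((Real.Gamma (k + 1) : ℝ) : ℂ) * Complex.log s))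
      {z : ℂ | 0 < z.re} := by
    refine DifferentiableOn.analyticOnNhd (fun z hz => ?_) hopen
    have hz' : z ∈ Complex.slitPlane := Or.inl hz
    refine DifferentiableAt.differentiableWithinAt ?_
    refine DifferentiableAt.mul ?_ ?_
    · exact (differentiableAt_id.cpow_const (Or.inl hz))
    · exact (differentiableAt_const _).sub
        ((differentiableAt_const _).mul (Complex.differentiableAt_log hz'))
  have h1 : (1 : ℂ) ∈ {z : ℂ | 0 < z.re} := by
    change 0 < (1 : ℂ).re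
    rw [Complex.one_re]
    exact one_pos
  refine hf.eqOn_of_preconnected_of_frequently_eq hg hconv.isPreconnected h1 ?_ hs
  have hreal : ∀ x : ℝ, 0 < x → ∫ T in Ioi (0 : ℝ), Complex.exp (-((x : ℂ) * T)) *
      ((T ^ k * Real.log T : ℝ) : ℂ) = (x : ℂ) ^ (-((k : ℂ) + 1)) *
        (((deriv Real.Gamma (k + 1) : ℝ) : ℂ) - ((Real.Gamma (k + 1) : ℝ) : ℂ) * Complex.log x) := by
    intro x hx
    rw [← (LogLap.real_case hk hx).2]
    refine integral_congr_ae (Eventually.of_forall fun T => ?_)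
    change Complex.exp (-((x : ℂ) * T)) * ((T ^ k * Real.log T : ℝ) : ℂ) =
      ((T ^ k * Real.log T * Real.exp (-(x * T)) : ℝ) : ℂ)
    push_cast
    ring
  have ht : Tendsto (fun n : ℕ => ((1 + 1 / ((n : ℝ) + 1) : ℝ) : ℂ)) atTop (𝓝[≠] 1) := by
    rw [tendsto_nhdsWithin_iff]
    constructor
    · have h2 : Tendsto (fun n : ℕ => (1 + 1 / ((n : ℝ) + 1) : ℝ)) atTop (𝓝 (1 + 0)) :=
        tendsto_const_nhds.add tendsto_one_div_add_atTop_nhds_zero_nat
      rw [add_zero] at h2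
      have h3 := (Complex.continuous_ofReal.tendsto (1 : ℝ)).comp h2
      rw [Complex.ofReal_one] at h3
      exact h3
    · refine Eventually.of_forall fun n => ?_
      intro h2
      rw [mem_singleton_iff] at h2
      have h3 : (1 + 1 / ((n : ℝ) + 1) : ℝ) = 1 := by exact_mod_cast h2
      have h4 : 0 < 1 / ((n : ℝ) + 1) := by positivity
      linarith
  refine ht.frequently (Frequently.of_forall fun n => ?_)
  exact hreal _ (by positivity)

end Pool.Agent.TH942.RA
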