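import Pool.Agent.TH942.RA.Means
import Pool.Agent.TH942.RZ.Main

/-!
# The limit of Riesz means of large order
(job of helper942, written by helper9)
-/

set_option autoImplicit false

open MeasureTheory Filter Topology Set
open Pool.Agent.TH942.LS (Dat S)
open Pool.Agent.TH942.SL
open Pool.Agent.TH942.RZ (rzw)

namespace Pool.Agent.TH942.RA

open Means Pool.Agent.TH942.RZ in
/-- the limit of the Riesz means of large order -/
theorem means_limit {lam c : ℕ → ℝ} {δ σ : ℝ} (D : Dat lam c δ σ) {E : ℂ → ℂ} {r C κ k : ℝ} {ℓ : ℂ}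
    (hκ : 0 ≤ κ) (hE : ∀ s : ℂ, 0 < s.re → DifferentiableAt ℂ E s)
    (hEq : ∀ s : ℂ, σ < s.re → E s = DD lam c s)
    (hEb : ∀ s : ℂ, 0 < s.re → ‖E s + r * Complex.log (s / (1 + s))‖ ≤ C * (‖s‖ / s.re) ^ κ)
    (hk : 2 * κ + 3 ≤ k)
    (hlim : ∀ ζ : ℂ, 0 < ζ.re →
      Tendsto (fun T : ℝ => E (ζ / T) + r * Complex.log (ζ / T)) atTop (𝓝 ℓ)) :
    Tendsto (fun T : ℝ => (S lam c (rzw k) T : ℂ) - r * Real.log T) atTop
      (𝓝 (ℓ - r * (deriv Real.Gamma (k + 1) / Real.Gamma (k + 1) : ℝ))) := by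
  have hσ := D.σ0
  have hk0 : 0 < k := by linarith
  have hΓ : 0 < Real.Gamma (k + 1) := Real.Gamma_pos_of_pos (by linarith)
  have hΓc : ((Real.Gamma (k + 1) : ℝ) : ℂ) ≠ 0 := by exact_mod_cast hΓ.ne'
  have hpi := Real.pi_pos
  set K : ℝ := |C| + |r| * (2 + Real.pi) with hK
  have hK0 : 0 ≤ K := by positivity
  set B : ℝ := K * Real.exp 1 * (1 + 1 / 1) ^ (k - κ) with hB
  -- the constants
  have hVW : ∀ H : ℂ → ℂ, V 1 H = ((2 * Real.pi)⁻¹ : ℝ) * ∫ t : ℝ, H (zz t) := fun H => rfl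
  have hW1 : V 1 (fun z => Complex.exp z * ks k z) = ((1 / Real.Gamma (k + 1) : ℝ) : ℂ) := by
    have e1 := V_riesz (k := k) (c := 1) hk0 one_pos 1
    rw [max_eq_left zero_le_one, Real.one_rpow] at e1
    rw [← e1]
    unfold V ks
    simp only [Complex.ofReal_one, mul_one]
  have hW2 : V 1 (fun z => Complex.log z * (Complex.exp z * ks k z)) =
      ((deriv Real.Gamma (k + 1) / Real.Gamma (k + 1) ^ 2 : ℝ) : ℂ) := V_riesz_log hk0
  rw [hVW] at hW1 hW2
  have w1 : ((2 * Real.pi)⁻¹ : ℝ) * (∫ t : ℝ, Wk k t) = ((1 / Real.Gamma (k + 1) : ℝ) : ℂ) := hW1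
  have w2 : ((2 * Real.pi)⁻¹ : ℝ) * (∫ t : ℝ, Complex.log (zz t) * Wk k t) =
    ((deriv Real.Gamma (k + 1) / Real.Gamma (k + 1) ^ 2 : ℝ) : ℂ) := hW2
  have w1' : (Real.Gamma (k + 1) : ℂ) * (((2 * Real.pi)⁻¹ : ℝ) * (∫ t : ℝ, Wk k t)) = 1 := by
    rw [w1]
    push_cast
    field_simp
  have w2' : (Real.Gamma (k + 1) : ℂ) * (((2 * Real.pi)⁻¹ : ℝ) *
      (∫ t : ℝ, Complex.log (zz t) * Wk k t)) =
      ((deriv Real.Gamma (k + 1) / Real.Gamma (k + 1) : ℝ) : ℂ) := by
    rw [w2]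
    push_cast
    field_simp
  have iW' : Integrable (Wk k) := by
    have iW : Integrable fun t => (1 : ℂ) * Wk k t := int_of_ll' hk0 (f := fun _ => (1 : ℂ))
      continuous_const (B := 1) fun t => by
        rw [norm_one, one_mul]
        exact ll_one t
    refine iW.congr (ae_of_all _ fun t => ?_)
    simp
  have hlogc : Continuous fun t : ℝ => Complex.log (zz t) :=
    Continuous.clog zz_cont fun t => slit (by rw [zz_re]; exact one_pos)
  have hlogb : ∀ t : ℝ, ‖Complex.log (zz t)‖ ≤ (1 + Real.pi) * ll t := by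
    intro t
    have e4 : ‖Complex.log (zz t)‖ ≤ |Real.log ‖zz t‖| + |Complex.arg (zz t)| := by
      have := Complex.norm_le_abs_re_add_abs_im (Complex.log (zz t))
      rwa [Complex.log_re, Complex.log_im] at this
    have e5 := Complex.abs_arg_le_pi (zz t)
    have e6 : |Real.log ‖zz t‖| ≤ ll t := by
      rw [abs_of_nonneg (Real.log_nonneg (zz_one t))]
      unfold ll
      have := Real.log_le_log (zz_pos t) (show ‖zz t‖ ≤ 1 + ‖zz t‖ by linarith)
      linarith
    have := ll_one t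
    nlinarith
  have iLg : Integrable fun t => Complex.log (zz t) * Wk k t := int_of_ll' hk0 hlogc hlogb
  have hlog : ∀ (t : ℝ) (T : ℝ), 0 < T →
      Complex.log (zz t / T) = Complex.log (zz t) - Real.log T := by
    intro t T hT0
    have e3 : zz t / (T : ℂ) = ((T⁻¹ : ℝ) : ℂ) * zz t := by
      have : (T : ℂ) ≠ 0 := by exact_mod_cast hT0.ne'
      push_cast
      field_simp
    rw [e3, Complex.log_ofReal_mul (by positivity) (zz_ne t), Real.log_inv]
    push_cast
    ring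
  -- the integrand
  have hc : ∀ T : ℝ, 0 < T → Continuous fun t : ℝ => E (zz t / T) := by
    intro T hT
    have e1 : Continuous fun t : ℝ => E (((1 / T : ℝ) : ℂ) + t * Complex.I) :=
      line_cont fun s hs => (hE s (by rw [hs]; positivity)).continuousAt
    have h2 : (fun t : ℝ => E (zz t / T)) = (fun t : ℝ => E (((1 / T : ℝ) : ℂ) + t * Complex.I)) ∘
        fun t => T⁻¹ * t := by
      funext t
      simp only [Function.comp_apply]
      rw [zz_div t hT]
    rw [h2]
    exact e1.comp (by fun_prop)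
  have hb : ∀ T : ℝ, 1 ≤ T → ∀ t : ℝ,
      ‖(E (zz t / T) - (r * Real.log T : ℝ)) * Wk k t‖ ≤ B * (1 + |t|) ^ (-(k - κ)) := by
    intro T hT t
    have h1 := unif hκ hEb (zz_re t) hT
    have hs0 := zz_pos t
    have h2 : ‖zz t‖ ^ (κ + 1) * ‖zz t‖ ^ (-(k + 1)) = ‖zz t‖ ^ (-(k - κ)) := by
      rw [← Real.rpow_add hs0]
      congr 1
      ring
    have h3 : ‖zz t‖ ^ (-(k - κ)) ≤ (1 + 1 / 1) ^ (k - κ) * (1 + |(zz t).im|) ^ (-(k - κ)) :=
      nb one_pos (by linarith) (zz_one t)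
    rw [zz_im] at h3
    rw [norm_mul, norm_Wk]
    unfold wl
    calc _ ≤ (K * ‖zz t‖ ^ (κ + 1)) * (Real.exp 1 * ‖zz t‖ ^ (-(k + 1))) :=
          mul_le_mul_of_nonneg_right h1 (by positivity)
      _ = K * Real.exp 1 * (‖zz t‖ ^ (κ + 1) * ‖zz t‖ ^ (-(k + 1))) := by ring
      _ ≤ K * Real.exp 1 * ((1 + 1 / 1) ^ (k - κ) * (1 + |t|) ^ (-(k - κ))) := by
          rw [h2]
          exact mul_le_mul_of_nonneg_left h3 (by positivity)
      _ = _ := by ring
  have hm : ∀ T : ℝ, 0 < T → AEStronglyMeasurable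
      (fun t : ℝ => (E (zz t / T) - (r * Real.log T : ℝ)) * Wk k t) volume := fun T hT =>
    (((hc T hT).sub continuous_const).mul (Wk_cont k)).aestronglyMeasurable
  have iB : Integrable fun t : ℝ => B * (1 + |t|) ^ (-(k - κ)) :=
    (decay_int (by linarith)).const_mul B
  have i1 : ∀ T : ℝ, 1 ≤ T →
      Integrable (fun t : ℝ => (E (zz t / T) - (r * Real.log T : ℝ)) * Wk k t) := fun T hT =>
    iB.mono' (hm T (by linarith)) (ae_of_all _ fun t => hb T hT t)
  -- the limit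
  have nE : Tendsto (fun T : ℝ => ∫ t : ℝ, (E (zz t / T) - (r * Real.log T : ℝ)) * Wk k t) atTop
      (𝓝 (∫ t : ℝ, (ℓ - r * Complex.log (zz t)) * Wk k t)) := by
    refine tendsto_integral_filter_of_dominated_convergence
      (fun t => B * (1 + |t|) ^ (-(k - κ))) ?_ ?_ iB (ae_of_all _ fun t => ?_)
    · filter_upwards [eventually_gt_atTop 0] with T hT
      exact hm T hT
    · filter_upwards [eventually_ge_atTop 1] with T hT
      exact ae_of_all _ fun t => hb T hT t
    · refine Tendsto.mul_const _ ?_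
      have e1 := (hlim (zz t) (by rw [zz_re]; exact one_pos)).sub_const (r * Complex.log (zz t))
      refine e1.congr' ?_
      filter_upwards [eventually_gt_atTop 0] with T hT
      rw [hlog t T hT]
      push_cast
      ring
  have hval : (Real.Gamma (k + 1) : ℂ) * (((2 * Real.pi)⁻¹ : ℝ) *
      ∫ t : ℝ, (ℓ - r * Complex.log (zz t)) * Wk k t) =
      ℓ - r * (deriv Real.Gamma (k + 1) / Real.Gamma (k + 1) : ℝ) := by
    have e0 : ∀ t : ℝ, (ℓ - r * Complex.log (zz t)) * Wk k t =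
        ℓ * Wk k t - r * (Complex.log (zz t) * Wk k t) := fun t => by ring
    simp only [e0]
    rw [integral_sub (iW'.const_mul _) (iLg.const_mul _), integral_const_mul, integral_const_mul]
    linear_combination ℓ * w1' - (r : ℂ) * w2'
  have hfin := (nE.const_mul (((2 * Real.pi)⁻¹ : ℝ) : ℂ)).const_mul (Real.Gamma (k + 1) : ℂ)
  rw [hval] at hfin
  refine hfin.congr' ?_
  filter_upwards [eventually_ge_atTop 1] with T hT
  have hT0 : 0 < T := by linarith
  have hT1 : 1 / T ≤ σ + 1 := by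
    have : 1 / T ≤ 1 := by rw [div_le_iff₀ hT0]; linarith
    linarith
  rw [rep D hk0 hE hEq (fun x hx => pre hσ hκ hEb (by linarith) x hx) hT0 hT1, hVW]
  have e0 : ∀ t : ℝ, E (zz t / T) * (Complex.exp (zz t) * ks k (zz t)) =
      (E (zz t / T) - (r * Real.log T : ℝ)) * Wk k t + ((r * Real.log T : ℝ) : ℂ) * Wk k t := by
    intro t
    unfold Wk
    ring
  simp only [e0]
  rw [integral_add (i1 T hT) (iW'.const_mul _), integral_const_mul]
  have e1 : ((r * Real.log T : ℝ) : ℂ) = (r : ℂ) * Real.log T := by push_cast; ring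
  rw [e1]
  linear_combination (-((r : ℂ) * Real.log T)) * w1'

end Pool.Agent.TH942.RA
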