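import Pool.Agent.TH942.RA.Main
import Pool.Agent.TH942.RA.Mlim
import Pool.Agent.TH942.RA.LogLap
import Pool.Agent.TH942.RA.Abel

/-!
# Limits of Riesz means and continuation, for Dirichlet series
-/

set_option autoImplicit false

open MeasureTheory Filter Topology Set Complex
open Pool.Agent.TH942.LS (Dat S)
open Pool.Agent.TH942.SL (DD Sect)
open Pool.Agent.TH942.RZ (rzw)

namespace Pool.Agent.TH942.RA

variable {lam c : ℕ → ℝ} {δ σ : ℝ}

/-- the function defined by the Riesz mean of order `k` -/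
noncomputable def En (lam c : ℕ → ℝ) (k : ℝ) (s : ℂ) : ℂ :=
  s ^ ((k : ℂ) + 1) / Real.Gamma (k + 1) *
    ∫ T in Ioi (0 : ℝ), exp (-(s * T)) * ((T ^ k * Rm lam c k T : ℝ) : ℂ)

/-- **continuation from the bound of one Riesz mean** -/
theorem dat_cont (D : Dat lam c δ σ) {k r : ℝ} (hk : 0 ≤ k)
    (h : ∃ C : ℝ, ∀ᶠ T : ℝ in atTop, |Rm lam c k T - r * Real.log T| ≤ C) :
    (∀ x : ℝ, 0 < x → IntegrableOn (fun T : ℝ => T ^ k * Rm lam c k T * Real.exp (-(x * T))) (Ioi 0)) ∧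
    (∀ s : ℂ, 0 < s.re → DifferentiableAt ℂ (En lam c k) s) ∧
    (∀ s : ℂ, σ < s.re → En lam c k s = DD lam c s) ∧
    ∃ C' : ℝ, ∀ s : ℂ, 0 < s.re →
      ‖En lam c k s + r * log (s / (1 + s))‖ ≤ C' * (‖s‖ / s.re) ^ (k + 1) := by
  obtain ⟨C, hC⟩ := h
  obtain ⟨T₀, hT₀⟩ := hC.exists_forall_of_atTop
  have hσ := D.σ0
  obtain ⟨hm1, -, hb1, hl⟩ := riesz_laplace D.δ0 D.lam_ge D.σ0 D.sum hk
  obtain ⟨hm2, ⟨Ch, hh1, hh2⟩, hh3⟩ := hk_spec hk
  have hCh : 0 ≤ Ch := (abs_nonneg _).trans (hh1 1 one_pos le_rfl)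
  set Q : ℝ := ∑' n, |c n| * Real.exp (-(σ * lam n)) with hQ
  have hQ0 : 0 ≤ Q := tsum_nonneg fun n => by positivity
  set T₁ : ℝ := max T₀ 1 with hT₁
  have hT11 : 1 ≤ T₁ := le_max_right _ _
  have hlT : 0 ≤ Real.log T₁ := Real.log_nonneg hT11
  set u : ℝ → ℝ := fun T => Rm lam c k T - r * RA.hk k T with hu
  have hum : Measurable u := hm1.sub (hm2.const_mul r)
  set C' : ℝ := |C| + |r| * Ch + (Real.exp (σ * T₁) * Q + |r| * (Ch + Real.log T₁)) with hC'
  have hub : ∀ T, 0 < T → |u T| ≤ C' := by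
    intro T hT
    rcases le_or_gt T₁ T with h1 | h1
    · have e1 := hT₀ T ((le_max_left _ _).trans h1)
      have e2 := hh2 T (hT11.trans h1)
      have e3 : u T = (Rm lam c k T - r * Real.log T) - r * (RA.hk k T - Real.log T) := by
        rw [hu]; ring
      rw [e3]
      refine (abs_sub _ _).trans ?_
      rw [abs_mul]
      have e4 : |r| * |RA.hk k T - Real.log T| ≤ |r| * Ch :=
        mul_le_mul_of_nonneg_left e2 (abs_nonneg _)
      have e5 := e1.trans (le_abs_self C)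
      have e6 : 0 ≤ Real.exp (σ * T₁) * Q + |r| * (Ch + Real.log T₁) := by positivity
      rw [hC']
      linarith
    · have e1 := hb1 T
      have e2 : |RA.hk k T| ≤ Ch + Real.log T₁ := by
        rcases le_or_gt T 1 with h2 | h2
        · linarith [hh1 T hT h2]
        · have e3 := hh2 T h2.le
          have e4 : |Real.log T| ≤ Real.log T₁ := by
            rw [abs_of_nonneg (Real.log_nonneg h2.le)]
            exact Real.log_le_log hT h1.le
          have e5 := abs_add_le (RA.hk k T - Real.log T) (Real.log T)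
          rw [sub_add_cancel] at e5
          linarith
      rw [hu]
      simp only
      refine (abs_sub _ _).trans ?_
      rw [abs_mul]
      have e4 : |r| * |RA.hk k T| ≤ |r| * (Ch + Real.log T₁) :=
        mul_le_mul_of_nonneg_left e2 (abs_nonneg _)
      have e5 : Real.exp (σ * T) * Q ≤ Real.exp (σ * T₁) * Q := by gcongr
      have e6 : 0 ≤ |C| + |r| * Ch := by positivity
      rw [hC']
      linarith
  have hI : ∀ x : ℝ, 0 < x →
      IntegrableOn (fun T : ℝ => T ^ k * Rm lam c k T * Real.exp (-(x * T))) (Ioi 0) := by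
    intro x hx
    have i1 := (pow_int hum hk hub hx).1
    have i2 := (hh3 (x : ℂ) (by rwa [Complex.ofReal_re])).1
    rw [Complex.ofReal_re] at i2
    refine (i1.add (i2.const_mul r)).congr_fun (fun T _ => ?_) measurableSet_Ioi
    simp only [Pi.add_apply, hu]
    ring
  have hG0 : 0 < Real.Gamma (k + 1) := Real.Gamma_pos_of_pos (by linarith)
  have hGc : ((Real.Gamma (k + 1) : ℝ) : ℂ) ≠ 0 := by exact_mod_cast hG0.ne'
  have hne : ∀ s : ℂ, 0 < s.re → s ≠ 0 := fun s hs => Means.ne_zero_of hs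
  have hcc : ∀ s : ℂ, 0 < s.re → s ^ ((k : ℂ) + 1) * s ^ (-((k : ℂ) + 1)) = 1 := by
    intro s hs
    rw [Complex.cpow_neg, mul_inv_cancel₀]
    rw [Complex.cpow_ne_zero_iff]
    exact Or.inl (hne s hs)
  refine ⟨hI, fun s hs => ?_, fun s hs => ?_, C', fun s hs => ?_⟩
  · have h1 : DifferentiableAt ℂ (fun s : ℂ => s ^ ((k : ℂ) + 1)) s :=
      differentiableAt_id.cpow_const (Or.inl hs)
    refine (h1.div_const _).mul ?_
    refine Pool.Agent.TH942.OS.lap_diff (f := fun T => T ^ k * Rm lam c k T) (α := 0) ?_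
      (fun x hx => hI x hx) hs
    exact ((measurable_id.pow_const k).mul hm1).aestronglyMeasurable
  · have hs0 : 0 < s.re := hσ.trans hs
    unfold En
    rw [(hl s hs).2]
    have e4 : s ^ ((k : ℂ) + 1) / (Real.Gamma (k + 1) : ℂ) *
        ((Real.Gamma (k + 1) : ℂ) * s ^ (-((k : ℂ) + 1)) *
          ∑' n, (c n : ℂ) * exp (-(s * lam n))) =
        (s ^ ((k : ℂ) + 1) * s ^ (-((k : ℂ) + 1))) * ∑' n, (c n : ℂ) * exp (-(s * lam n)) := by
      field_simp
    rw [e4, hcc s hs0, one_mul]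
    rfl
  · have hq := one_le_q hs
    have i1 := cint hm1 (hI s.re hs)
    obtain ⟨i2', v2⟩ := hh3 s hs
    have i2 := cint hm2 i2'
    have e0 : (∫ T in Ioi (0 : ℝ), exp (-(s * T)) * ((T ^ k * Rm lam c k T : ℝ) : ℂ)) =
        (∫ T in Ioi (0 : ℝ), exp (-(s * T)) * ((T ^ k * u T : ℝ) : ℂ)) +
          r * ∫ T in Ioi (0 : ℝ), exp (-(s * T)) * ((T ^ k * RA.hk k T : ℝ) : ℂ) := by
      have i3 := cint hum ((pow_int hum hk hub hs).1)
      rw [← integral_const_mul, ← integral_add i3 (i2.const_mul _)]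
      refine setIntegral_congr_fun measurableSet_Ioi fun T _ => ?_
      simp only [hu]
      push_cast
      ring
    have e1 : En lam c k s + r * log (s / (1 + s)) = s ^ ((k : ℂ) + 1) / Real.Gamma (k + 1) *
        ∫ T in Ioi (0 : ℝ), exp (-(s * T)) * ((T ^ k * u T : ℝ) : ℂ) := by
      unfold En
      rw [e0, v2, log_inv_eq hs]
      have e4 : s ^ ((k : ℂ) + 1) / (Real.Gamma (k + 1) : ℂ) *
          ((∫ T in Ioi (0 : ℝ), exp (-(s * T)) * ((T ^ k * u T : ℝ) : ℂ)) +
            r * ((Real.Gamma (k + 1) : ℂ) * s ^ (-((k : ℂ) + 1)) * -log (s / (1 + s)))) =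
          s ^ ((k : ℂ) + 1) / (Real.Gamma (k + 1) : ℂ) *
            (∫ T in Ioi (0 : ℝ), exp (-(s * T)) * ((T ^ k * u T : ℝ) : ℂ)) -
          (s ^ ((k : ℂ) + 1) * s ^ (-((k : ℂ) + 1))) * (r * log (s / (1 + s))) := by
        field_simp
        ring
      rw [e4, hcc s hs]
      ring
    rw [e1, norm_mul, norm_div, Complex.norm_real, Real.norm_eq_abs, abs_of_pos hG0]
    have h2 : ‖s ^ ((k : ℂ) + 1)‖ = ‖s‖ ^ (k + 1) := by
      have h3 : ((k : ℂ) + 1) = ((k + 1 : ℝ) : ℂ) := by push_cast; rfl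
      rw [h3, Complex.norm_cpow_real]
    rw [h2, Real.div_rpow (norm_nonneg _) hs.le]
    have h4 := (pow_int hum hk hub hs).2 s rfl
    have h5 : 0 ≤ ‖s‖ ^ (k + 1) := by positivity
    calc ‖s‖ ^ (k + 1) / Real.Gamma (k + 1) *
          ‖∫ T in Ioi (0 : ℝ), exp (-(s * T)) * ((T ^ k * u T : ℝ) : ℂ)‖ ≤
          ‖s‖ ^ (k + 1) / Real.Gamma (k + 1) *
            (C' * (Real.Gamma (k + 1) * (1 / s.re) ^ (k + 1))) := by gcongr
      _ = C' * (‖s‖ ^ (k + 1) / s.re ^ (k + 1)) := by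
          rw [Real.div_rpow zero_le_one hs.le, Real.one_rpow]
          field_simp

/-- `ψ(k + 1)` -/
noncomputable def dig (k : ℝ) : ℝ := deriv Real.Gamma (k + 1) / Real.Gamma (k + 1)

/-- the limit law of order `k` -/
def LimLaw (lam c : ℕ → ℝ) (r ℓ k : ℝ) : Prop :=
  Tendsto (fun T : ℝ => Rm lam c k T - r * Real.log T) atTop (𝓝 (ℓ - r * dig k))

/-- the continuation with polynomial bounds and the limit at `0` in angles -/
def LimCont (lam c : ℕ → ℝ) (σ r ℓ : ℝ) : Prop :=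
  ∃ G : ℂ → ℂ, (∀ s : ℂ, 0 < s.re → DifferentiableAt ℂ G s) ∧
    (∀ s : ℂ, σ < s.re → G s = DD lam c s) ∧
    (∃ C κ : ℝ, ∀ s : ℂ, 0 < s.re → ‖G s + r * log (s / (1 + s))‖ ≤ C * (‖s‖ / s.re) ^ κ) ∧
    ∀ ρ : ℝ, 1 < ρ → Tendsto (fun s => G s + r * log s) (𝓝[Sect ρ] 0) (𝓝 (ℓ : ℂ))

/-- in a sector the norm is at most a multiple of the real part -/
lemma sect_cone {ρ : ℝ} (hρ : 1 < ρ) : ∃ K : ℝ, 0 < K ∧ ∀ s ∈ Sect ρ, 0 < s.re ∧ ‖s‖ ≤ K * s.re := by
  have hpi := Real.pi_pos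
  have h1 : Real.pi / (2 * ρ) < Real.pi / 2 := by
    rw [div_lt_div_iff₀ (by positivity) (by positivity)]
    nlinarith
  have h0 : 0 < Real.pi / (2 * ρ) := by positivity
  have hc : 0 < Real.cos (Real.pi / (2 * ρ)) :=
    Real.cos_pos_of_mem_Ioo ⟨by linarith, h1⟩
  refine ⟨1 / Real.cos (Real.pi / (2 * ρ)), by positivity, fun s hs => ?_⟩
  have h2 : s.re = ‖s‖ * Real.cos s.arg := (Complex.norm_mul_cos_arg s).symm
  have h3 : Real.cos (Real.pi / (2 * ρ)) ≤ Real.cos s.arg := by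
    rw [← Real.cos_abs s.arg]
    exact Real.cos_le_cos_of_nonneg_of_le_pi (abs_nonneg _) (by linarith) hs.2.le
  have h4 : 0 < ‖s‖ := norm_pos_iff.2 hs.1
  constructor
  · rw [h2]
    exact mul_pos h4 (hc.trans_le h3)
  · rw [div_mul_eq_mul_div, one_mul, le_div_iff₀ hc, h2]
    exact mul_le_mul_of_nonneg_left h3 h4.le

/-- **limits of Riesz means and continuation** -/
theorem dat_tfae (D : Dat lam c δ σ) (r ℓ : ℝ) : List.TFAE [LimCont lam c σ r ℓ,
    ∃ k : ℝ, 0 ≤ k ∧ LimLaw lam c r ℓ k,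
    ∃ k₀ : ℝ, 0 ≤ k₀ ∧ ∀ k : ℝ, k₀ ≤ k → LimLaw lam c r ℓ k] := by
  tfae_have 1 → 3 := by
    rintro ⟨G, g1, g2, ⟨C, κ, g3⟩, g4⟩
    set κ' : ℝ := max κ 0 with hκ'
    have hκ0 : 0 ≤ κ' := le_max_right _ _
    refine ⟨2 * κ' + 3, by linarith, fun k hk => ?_⟩
    have hk0 : 0 < k := by linarith
    have h1 := means_limit D (E := G) (r := r) (κ := κ') (C := |C|) (k := k) (ℓ := (ℓ : ℂ)) hκ0 g1 g2
      (fun s hs => by
        have hq := one_le_q hs
        have e6 : (‖s‖ / s.re) ^ κ ≤ (‖s‖ / s.re) ^ κ' :=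
          Real.rpow_le_rpow_of_exponent_le hq (le_max_left _ _)
        have : 0 ≤ (‖s‖ / s.re) ^ κ := by positivity
        calc _ ≤ _ := g3 s hs
          _ ≤ |C| * (‖s‖ / s.re) ^ κ := mul_le_mul_of_nonneg_right (le_abs_self C) this
          _ ≤ _ := mul_le_mul_of_nonneg_left e6 (abs_nonneg _)) hk
      (fun ζ hζ => by
        obtain ⟨n, hn⟩ := Pool.Agent.TH942.ES.Sys.exists_sect hζ
        have hn1 : (1 : ℝ) < 1 + 1 / ((n : ℝ) + 1) := by
          have : (0 : ℝ) < 1 / ((n : ℝ) + 1) := by positivity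
          linarith
        refine (g4 _ hn1).comp ?_
        refine tendsto_nhdsWithin_of_tendsto_nhds_of_eventually_within _
          (Pool.Agent.TH942.RZ.ray_zero ζ) ?_
        filter_upwards [eventually_gt_atTop 0] with T hT
        have hTc : (T : ℂ) ≠ 0 := by exact_mod_cast hT.ne'
        refine ⟨div_ne_zero hn.1 hTc, ?_⟩
        have e1 : ζ / (T : ℂ) = ((T⁻¹ : ℝ) : ℂ) * ζ := by
          push_cast
          field_simp
        rw [e1, Complex.arg_real_mul _ (by positivity : 0 < T⁻¹)]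
        exact hn.2)
    unfold LimLaw
    have h2 := (Complex.continuous_re.tendsto _).comp h1
    have e1 : ((ℓ : ℂ) - r * (deriv Real.Gamma (k + 1) / Real.Gamma (k + 1) : ℝ)).re =
        ℓ - r * dig k := by
      unfold dig
      rw [← Complex.ofReal_mul, ← Complex.ofReal_sub, Complex.ofReal_re]
    rw [e1] at h2
    refine h2.congr' ?_
    filter_upwards [eventually_gt_atTop 0] with T hT
    simp only [Function.comp_apply]
    rw [← Complex.ofReal_mul, ← Complex.ofReal_sub, Complex.ofReal_re, S_eq hk0 hT]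
  tfae_have 3 → 2 := by
    rintro ⟨k₀, h0, h1⟩
    exact ⟨k₀, h0, h1 k₀ le_rfl⟩
  tfae_have 2 → 1 := by
    rintro ⟨k, hk, h⟩
    have hbd : ∃ C : ℝ, ∀ᶠ T : ℝ in atTop, |Rm lam c k T - r * Real.log T| ≤ C := by
      refine ⟨|ℓ - r * dig k| + 1, ?_⟩
      have h1 := (Metric.tendsto_nhds.1 h) 1 one_pos
      filter_upwards [h1] with T h2
      rw [Real.dist_eq] at h2
      have h3 := abs_sub_abs_le_abs_sub (Rm lam c k T - r * Real.log T) (ℓ - r * dig k)
      linarith
    obtain ⟨hI, g1, g2, C', g3⟩ := dat_cont D hk hbd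
    refine ⟨En lam c k, g1, g2, ⟨C', k + 1, g3⟩, fun ρ hρ => ?_⟩
    obtain ⟨K, hK, hcone⟩ := sect_cone hρ
    have hG0 : 0 < Real.Gamma (k + 1) := Real.Gamma_pos_of_pos (by linarith)
    have hGc : ((Real.Gamma (k + 1) : ℝ) : ℂ) ≠ 0 := by exact_mod_cast hG0.ne'
    obtain ⟨hm1, -, -, -⟩ := riesz_laplace D.δ0 D.lam_ge D.σ0 D.sum hk
    set L : ℝ := ℓ - r * dig k with hL
    set u : ℝ → ℝ := fun T => Rm lam c k T - r * Real.log T - L with hu
    have hum : Measurable u := (hm1.sub (Real.measurable_log.const_mul r)).sub_const L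
    have hpow : ∀ x : ℝ, 0 < x → IntegrableOn (fun T : ℝ => T ^ k * Real.exp (-(x * T))) (Ioi 0) := by
      intro x hx
      have h2 := (integrableOn_rpow_mul_exp_neg_mul_rpow (s := k) (p := 1) (b := x) (by linarith)
        one_pos hx)
      refine h2.congr_fun (fun T hT => ?_) measurableSet_Ioi
      simp only [Real.rpow_one, neg_mul]
    have hlogi : ∀ x : ℝ, 0 < x →
        IntegrableOn (fun T : ℝ => T ^ k * Real.log T * Real.exp (-(x * T))) (Ioi 0) := by
      intro x hx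
      have := (log_laplace hk (s := (x : ℂ)) (by rwa [Complex.ofReal_re])).1
      rwa [Complex.ofReal_re] at this
    have hui : ∀ x : ℝ, 0 < x →
        IntegrableOn (fun T : ℝ => T ^ k * u T * Real.exp (-(x * T))) (Ioi 0) := by
      intro x hx
      refine (((hI x hx).sub ((hlogi x hx).const_mul r)).sub ((hpow x hx).const_mul L)).congr_fun
        (fun T _ => ?_) measurableSet_Ioi
      simp only [Pi.sub_apply, hu]
      ring
    have hu0 : Tendsto u atTop (𝓝 0) := by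
      have h1 := h.sub_const L
      rw [sub_self] at h1
      exact h1
    have hid : ∀ s : ℂ, 0 < s.re → En lam c k s + r * log s = (Real.Gamma (k + 1) : ℂ)⁻¹ *
        (s ^ ((k : ℂ) + 1) * ∫ T in Ioi (0 : ℝ), exp (-(s * T)) * ((T ^ k * u T : ℝ) : ℂ)) + ℓ := by
      intro s hs
      have hsne : s ≠ 0 := Means.ne_zero_of hs
      have hcc : s ^ ((k : ℂ) + 1) * s ^ (-((k : ℂ) + 1)) = 1 := by
        rw [Complex.cpow_neg, mul_inv_cancel₀]
        rw [Complex.cpow_ne_zero_iff]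
        exact Or.inl hsne
      have i1 := cint hum (hui s.re hs)
      have i2 := cint Real.measurable_log (k := k) (log_laplace hk hs).1
      have i3 := cint (g := fun _ => (1 : ℝ)) measurable_const (k := k) (s := s) (by
        simpa only [mul_one] using hpow s.re hs)
      have v3 : (∫ T in Ioi (0 : ℝ), exp (-(s * T)) * ((T ^ k * (1 : ℝ) : ℝ) : ℂ)) =
          s ^ (-((k : ℂ) + 1)) * Real.Gamma (k + 1) := by
        have h1 := Lap.pw_key' k hk s hs
        rw [mul_comm (s ^ (-((k : ℂ) + 1))), ← h1]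
        refine setIntegral_congr_fun measurableSet_Ioi fun T _ => ?_
        simp only [mul_one]
        rw [mul_comm]
      have i12 : IntegrableOn (fun T : ℝ => exp (-(s * T)) * ((T ^ k * u T : ℝ) : ℂ) +
          (r : ℂ) * (exp (-(s * T)) * ((T ^ k * Real.log T : ℝ) : ℂ))) (Ioi 0) :=
        i1.add (i2.const_mul _)
      have e0 : (∫ T in Ioi (0 : ℝ), exp (-(s * T)) * ((T ^ k * Rm lam c k T : ℝ) : ℂ)) =
          (∫ T in Ioi (0 : ℝ), exp (-(s * T)) * ((T ^ k * u T : ℝ) : ℂ)) +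
            r * (∫ T in Ioi (0 : ℝ), exp (-(s * T)) * ((T ^ k * Real.log T : ℝ) : ℂ)) +
            L * ∫ T in Ioi (0 : ℝ), exp (-(s * T)) * ((T ^ k * (1 : ℝ) : ℝ) : ℂ) := by
        rw [← integral_const_mul, ← integral_const_mul, ← integral_add i1 (i2.const_mul _),
          ← integral_add i12 (i3.const_mul _)]
        refine setIntegral_congr_fun measurableSet_Ioi fun T _ => ?_
        simp only [hu, Pi.add_apply]
        push_cast
        ring
      unfold En
      rw [e0, (log_laplace hk hs).2, v3]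
      have e5 : (L : ℂ) = ℓ - r * (deriv Real.Gamma (k + 1) / Real.Gamma (k + 1) : ℝ) := by
        rw [hL]
        unfold dig
        push_cast
        ring
      rw [e5]
      set I := ∫ T in Ioi (0 : ℝ), exp (-(s * T)) * ((T ^ k * u T : ℝ) : ℂ) with hIdef
      set G₁ : ℂ := ((Real.Gamma (k + 1) : ℝ) : ℂ) with hG₁
      set G₂ : ℂ := ((deriv Real.Gamma (k + 1) : ℝ) : ℂ) with hG₂
      set A := s ^ ((k : ℂ) + 1) with hA
      set B := s ^ (-((k : ℂ) + 1)) with hB
      have e6 : ((deriv Real.Gamma (k + 1) / Real.Gamma (k + 1) : ℝ) : ℂ) = G₂ / G₁ := by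
        push_cast
        rfl
      rw [e6]
      field_simp
      linear_combination (r * G₂ - r * G₁ * log s + ℓ * G₁ - r * G₂) * hcc
    rw [Metric.tendsto_nhdsWithin_nhds]
    intro ε hε
    obtain ⟨δ', hδ', hab⟩ := abel_limit hum hk hui hu0 hK
      (show 0 < ε / 2 * Real.Gamma (k + 1) by positivity)
    refine ⟨δ', hδ', fun s hs hsd => ?_⟩
    obtain ⟨h1, h2⟩ := hcone s hs
    rw [dist_zero_right] at hsd
    rw [Complex.dist_eq, hid s h1, add_sub_cancel_right, norm_mul, norm_inv, Complex.norm_real,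
      Real.norm_eq_abs, abs_of_pos hG0]
    have h3 := hab s h1 h2 hsd
    calc (Real.Gamma (k + 1))⁻¹ * _ ≤ (Real.Gamma (k + 1))⁻¹ * (ε / 2 * Real.Gamma (k + 1)) :=
          mul_le_mul_of_nonneg_left h3 (by positivity)
      _ = ε / 2 := by field_simp
      _ < ε := by linarith
  tfae_finish

end Pool.Agent.TH942.RA
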