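import Pool.Agent.TH942.ES.Sys

/-!
# Logarithmic bound of the correction function of an Euler product
-/

set_option autoImplicit false

open MeasureTheory Filter Topology Set
open Pool.Agent.TH942.ES

namespace Pool.Agent.TH942.RA

variable {X : Type} {d : ℕ} {N : X → ℕ} {α : X → Fin d → ℂ}

namespace GGlog

/-- `min (2, v) ≤ 4 (1 - e^(-v))` -/
theorem min_le_exp {u v : ℝ} (hv : 0 ≤ v) (h1 : u ≤ 2) (h2 : u ≤ v) :
    u ≤ 4 * (1 - Real.exp (-v)) := by
  have h3 : 1 + v ≤ Real.exp v := by linarith [Real.add_one_le_exp v]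
  have h4 : Real.exp (-v) ≤ (1 + v)⁻¹ := by
    rw [Real.exp_neg]
    exact inv_anti₀ (by linarith) h3
  have h5 : 1 - (1 + v)⁻¹ = v / (1 + v) := by
    field_simp
    ring
  have h6 : u ≤ 4 * (v / (1 + v)) := by
    rw [← mul_div_assoc, le_div_iff₀ (by linarith)]
    rcases le_total v 1 with h | h
    · nlinarith
    · nlinarith
  linarith

/-- the Dirichlet series of the norms -/
noncomputable def phi (N : X → ℕ) (y : ℝ) : ℝ := ∑' v, (N v : ℝ) ^ (-(1 + y))

theorem summ (E : Sys N α) {y : ℝ} (hy : 0 < y) : Summable fun v => (N v : ℝ) ^ (-(1 + y)) :=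
  E.sum (1 + y) (by linarith)

theorem phi_nonneg (N : X → ℕ) (y : ℝ) : 0 ≤ phi N y := tsum_nonneg fun v => by positivity

theorem phi_anti (E : Sys N α) {y y' : ℝ} (hy : 0 < y) (h : y ≤ y') : phi N y' ≤ phi N y := by
  refine Summable.tsum_le_tsum (fun v => ?_) (summ E (hy.trans_le h)) (summ E hy)
  exact Real.rpow_le_rpow_of_exponent_le (by have := E.Ntwo v; linarith) (by linarith)

theorem step (E : Sys N α) : ∃ B : ℝ, 0 ≤ B ∧ ∀ y : ℝ, 0 < y → phi N y - phi N (2 * y) ≤ B := by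
  obtain ⟨C, σ₀, hσ₀, hC⟩ := E.log_sum
  refine ⟨|C| + phi N σ₀, add_nonneg (abs_nonneg _) (phi_nonneg _ _), fun y hy => ?_⟩
  rcases lt_or_ge y σ₀ with h | h
  · obtain ⟨h1, h2⟩ := hC y hy h
    have h3 : phi N y - phi N (2 * y) ≤ y * ∑' v, Real.log (N v) * (N v : ℝ) ^ (-(1 + y)) := by
      unfold phi
      rw [← (summ E hy).tsum_sub (summ E (by linarith : 0 < 2 * y)), ← tsum_mul_left]
      refine Summable.tsum_le_tsum (fun v => ?_)
        ((summ E hy).sub (summ E (by linarith : 0 < 2 * y))) (h1.mul_left y)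
      have hN := E.Npos v
      have h4 : (N v : ℝ) ^ (-(1 + 2 * y)) = (N v : ℝ) ^ (-(1 + y)) * (N v : ℝ) ^ (-y) := by
        rw [← Real.rpow_add hN]
        congr 1
        ring
      have h5 : 1 - (N v : ℝ) ^ (-y) ≤ y * Real.log (N v) := by
        rw [Real.rpow_def_of_pos hN]
        have := Real.add_one_le_exp (Real.log (N v) * -y)
        linarith
      rw [h4]
      have h6 : (0 : ℝ) ≤ (N v : ℝ) ^ (-(1 + y)) := by positivity
      calc (N v : ℝ) ^ (-(1 + y)) - (N v : ℝ) ^ (-(1 + y)) * (N v : ℝ) ^ (-y)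
          = (N v : ℝ) ^ (-(1 + y)) * (1 - (N v : ℝ) ^ (-y)) := by ring
        _ ≤ (N v : ℝ) ^ (-(1 + y)) * (y * Real.log (N v)) := mul_le_mul_of_nonneg_left h5 h6
        _ = y * (Real.log (N v) * (N v : ℝ) ^ (-(1 + y))) := by ring
    have h7 := le_abs_self C
    have h8 := phi_nonneg N σ₀
    linarith
  · have h1 := phi_anti E hσ₀ h
    have h2 := phi_nonneg N (2 * y)
    have h3 := abs_nonneg C
    linarith

theorem dyadic {B : ℝ} (hB : ∀ y : ℝ, 0 < y → phi N y - phi N (2 * y) ≤ B)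
    {x : ℝ} (hx : 0 < x) (J : ℕ) : phi N x - phi N (2 ^ J * x) ≤ J * B := by
  induction J with
  | zero => simp
  | succ J ih =>
    have h1 := hB (2 ^ J * x) (by positivity)
    have h2 : 2 ^ (J + 1) * x = 2 * (2 ^ J * x) := by ring
    rw [h2]
    push_cast
    linarith

end GGlog

open GGlog in
/-- the correction function grows at most logarithmically -/
theorem GG_log (E : Sys N α) : ∃ A : ℝ, ∀ s : ℂ, 0 < s.re →
    ‖GG N α s‖ ≤ A * (1 + Real.log (1 + ‖s‖ / s.re)) := by
  obtain ⟨B, hB0, hB⟩ := step E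
  refine ⟨32 * d * B, fun s hs => ?_⟩
  set x := s.re with hx
  set r := ‖s‖ with hr
  have hr0 : 0 < r := hs.trans_le (Complex.re_le_norm s)
  have hsum : Summable fun v => 16 * d * ((N v : ℝ) ^ (-(1 + x)) - (N v : ℝ) ^ (-(1 + (x + r)))) :=
    ((summ E hs).sub (summ E (by linarith : 0 < x + r))).mul_left _
  have hterm : ∀ v, ‖gv N α v s‖ ≤
      16 * d * ((N v : ℝ) ^ (-(1 + x)) - (N v : ℝ) ^ (-(1 + (x + r)))) := by
    intro v
    have hN := E.Npos v
    have hl := E.logN v
    refine (E.norm_gv hs.le v).trans ?_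
    have h1 := E.norm_xv_le hs.le v
    have h2 : ‖1 - xv N v s‖ ≤ 2 := by
      refine (norm_sub_le _ _).trans ?_
      rw [norm_one]
      linarith
    have h3 : ‖1 - xv N v s‖ ≤ r * Real.log (N v) := by
      rw [norm_sub_rev]
      unfold xv
      refine (norm_exp_sub_one_le ?_).trans (le_of_eq ?_)
      · rw [Complex.neg_re, Complex.re_mul_ofReal]
        have := mul_nonneg hs.le hl.le
        linarith
      · rw [norm_neg, norm_mul, Complex.norm_real, Real.norm_eq_abs, abs_of_pos hl]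
    have h4 := min_le_exp (by positivity : 0 ≤ r * Real.log (N v)) h2 h3
    have h5 : Real.exp (-(r * Real.log (N v))) = (N v : ℝ) ^ (-r) := by
      rw [Real.rpow_def_of_pos hN]
      congr 1
      ring
    rw [h5] at h4
    have h6 : (N v : ℝ) ^ (-(1 + (x + r))) = (N v : ℝ) ^ (-(1 + x)) * (N v : ℝ) ^ (-r) := by
      rw [← Real.rpow_add hN]
      congr 1
      ring
    rw [h6]
    calc 4 * d * (1 / N v) * (‖xv N v s‖ * ‖1 - xv N v s‖)
        ≤ 4 * d * (1 / N v) * ((N v : ℝ) ^ (-x) * (4 * (1 - (N v : ℝ) ^ (-r)))) := by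
          rw [E.norm_xv]
          gcongr
      _ = 16 * d * (((1 / N v) * (N v : ℝ) ^ (-x)) * (1 - (N v : ℝ) ^ (-r))) := by ring
      _ = 16 * d * ((N v : ℝ) ^ (-(1 + x)) * (1 - (N v : ℝ) ^ (-r))) := by
          rw [E.rpow_split]
      _ = _ := by ring
  have h1 : ‖GG N α s‖ ≤ 16 * d * (phi N x - phi N (x + r)) := by
    have h2 : ‖GG N α s‖ ≤
        ∑' v, 16 * d * ((N v : ℝ) ^ (-(1 + x)) - (N v : ℝ) ^ (-(1 + (x + r)))) :=
      tsum_of_norm_bounded hsum.hasSum hterm
    rw [tsum_mul_left, (summ E hs).tsum_sub (summ E (by linarith : 0 < x + r))] at h2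
    exact h2
  -- the dyadic sum
  set L := Real.log (1 + r / x) with hL
  have hq : 0 < r / x := by positivity
  have hL0 : 0 ≤ L := Real.log_nonneg (by linarith)
  have hl2 : 1 / 2 < Real.log 2 := by
    have := Real.log_two_gt_d9
    linarith
  set J := ⌈L / Real.log 2⌉₊ with hJ
  have hJ1 : (J : ℝ) ≤ 2 * (1 + L) := by
    have h2 := Nat.ceil_lt_add_one (div_nonneg hL0 (by linarith : (0 : ℝ) ≤ Real.log 2))
    have h3 : L / Real.log 2 ≤ 2 * L := by
      rw [div_le_iff₀ (by linarith)]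
      nlinarith
    have h4 : (J : ℝ) < L / Real.log 2 + 1 := h2
    linarith
  have hJ2 : x + r ≤ 2 ^ J * x := by
    have h2 : L / Real.log 2 ≤ J := Nat.le_ceil _
    have h3 : L ≤ J * Real.log 2 := by
      rwa [div_le_iff₀ (by linarith)] at h2
    have h4 : 1 + r / x ≤ 2 ^ J := by
      rw [← Real.log_le_log_iff (by linarith) (by positivity), Real.log_pow]
      exact h3
    calc x + r = (1 + r / x) * x := by field_simp
      _ ≤ 2 ^ J * x := mul_le_mul_of_nonneg_right h4 hs.le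
  have h2 : phi N x - phi N (x + r) ≤ J * B := by
    have h3 := dyadic hB hs J
    have h4 := phi_anti E (by linarith : 0 < x + r) hJ2
    linarith
  calc ‖GG N α s‖ ≤ 16 * d * (phi N x - phi N (x + r)) := h1
    _ ≤ 16 * d * (J * B) := mul_le_mul_of_nonneg_left h2 (by positivity)
    _ ≤ 16 * d * (2 * (1 + L) * B) := by
        refine mul_le_mul_of_nonneg_left ?_ (by positivity)
        exact mul_le_mul_of_nonneg_right hJ1 hB0
    _ = 32 * d * B * (1 + L) := by ring

end Pool.Agent.TH942.RA
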