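import Pool.Agent.TH942.RZ.Bd
import Pool.Agent.TH942.RZ.Log

/-!
# The logarithm of a zero-free function of moderate growth in a half plane
(job RA-6 of helper942, written by helper367)
-/

set_option autoImplicit false

open MeasureTheory Filter Topology Set

namespace Pool.Agent.TH942.RA

namespace Growth

open Complex Pool.Agent.TH942.RZ

/-- iteration of the comparison -/
theorem iter {L : ℂ → ℂ} {A : ℝ} (h : LD L A 1) (n : ℕ) : ∀ s : ℂ, 1 / 2 ^ n ≤ s.re →
    ‖L s‖ ≤ 24 * A * 6 ^ n * (1 + Real.log (1 + |s.im|)) := by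
  have hA := h.A0
  induction n with
  | zero =>
    intro s hs
    rw [pow_zero, div_one] at hs
    have h1 := h.far s hs
    have h2 : 0 ≤ Real.log (1 + |s.im|) := log1_nonneg (abs_nonneg _)
    rw [pow_zero]
    nlinarith
  | succ n ih =>
    intro s hs
    have hs0 : 0 < s.re := lt_of_lt_of_le (by positivity) hs
    set l : ℝ := Real.log (1 + |s.im|) with hl
    have l1 : 0 ≤ l := log1_nonneg (abs_nonneg _)
    have h6 : (1 : ℝ) ≤ 6 ^ (n + 1) := one_le_pow₀ (by norm_num)
    rcases le_or_gt 1 s.re with hc | hc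
    · have h1 := h.far s hc
      have h2 : A * 1 ≤ 24 * A * 6 ^ (n + 1) := by
        have : A * 1 ≤ A * 6 ^ (n + 1) := mul_le_mul_of_nonneg_left h6 hA.le
        linarith
      have h3 : 24 * A * 6 ^ (n + 1) * 1 ≤ 24 * A * 6 ^ (n + 1) * (1 + l) :=
        mul_le_mul_of_nonneg_left (by linarith) (by positivity)
      linarith
    · have h1 := h.step hs0
      have him : (s + (s.re : ℂ)).im = s.im := by simp
      have h2 := ih (s + s.re) (by
        rw [Complex.add_re, Complex.ofReal_re]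
        have e : (1 : ℝ) / 2 ^ (n + 1) = 1 / 2 ^ n / 2 := by
          rw [pow_succ]
          field_simp
        rw [e] at hs
        linarith)
      rw [him, ← hl] at h2
      have h3 : |(L (s + s.re)).re| ≤ ‖L (s + s.re)‖ := Complex.abs_re_le_norm _
      have h4 : Real.log (1 + 2 * s.re) ≤ 2 := by
        have := Real.log_le_sub_one_of_pos (show 0 < 1 + 2 * s.re by linarith)
        linarith
      have h5 : Real.log (1 + 1 / s.re) ≤ n + 2 := by
        have e1 : 1 / s.re ≤ 2 ^ (n + 1) := by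
          rw [div_le_iff₀ hs0]
          rw [div_le_iff₀ (by positivity)] at hs
          linarith
        have e2 : 1 + 1 / s.re ≤ 2 ^ (n + 2) := by
          have : (1 : ℝ) ≤ 2 ^ (n + 1) := one_le_pow₀ (by norm_num)
          rw [pow_succ _ (n + 1)]
          linarith
        calc Real.log (1 + 1 / s.re) ≤ Real.log (2 ^ (n + 2)) :=
              Real.log_le_log (by positivity) e2
          _ = ((n + 2 : ℕ) : ℝ) * Real.log 2 := Real.log_pow _ _
          _ ≤ ((n + 2 : ℕ) : ℝ) * 1 := by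
              apply mul_le_mul_of_nonneg_left _ (by positivity)
              have := Real.log_two_lt_d9
              linarith
          _ = n + 2 := by push_cast; ring
      have h7 : (n : ℝ) + 6 ≤ 6 * 6 ^ n := by
        have h8 := one_add_mul_le_pow (a := (5 : ℝ)) (by norm_num) n
        norm_num at h8
        have : (0 : ℝ) ≤ n := Nat.cast_nonneg n
        linarith
      have h8 : A * (2 + l + Real.log (1 + 2 * s.re) + Real.log (1 + 1 / s.re)) ≤
          A * (6 * 6 ^ n * (1 + l)) := by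
        apply mul_le_mul_of_nonneg_left _ hA.le
        have e3 : (n + 6 : ℝ) * (1 + l) ≤ 6 * 6 ^ n * (1 + l) :=
          mul_le_mul_of_nonneg_right h7 (by linarith)
        have e4 : (0 : ℝ) ≤ n := Nat.cast_nonneg n
        have e5 : 0 ≤ (n : ℝ) * l := by positivity
        nlinarith
      have h9 : 24 * A * 6 ^ (n + 1) * (1 + l) = 6 * (24 * A * 6 ^ n * (1 + l)) := by
        rw [pow_succ]
        ring
      have h10 : 4 * (A * (6 * 6 ^ n * (1 + l))) = 24 * A * 6 ^ n * (1 + l) := by ring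
      rw [h9]
      linarith

theorem bd {L : ℂ → ℂ} {A : ℝ} (h : LD L A 1) {s : ℂ} (hs0 : 0 < s.re) (hs1 : s.re ≤ 1) :
    ‖L s‖ ≤ 144 * A * (1 / s.re) ^ 3 * (1 + |s.im|) := by
  have hA := h.A0
  obtain ⟨n, hn1, hn2⟩ := exists_nat_pow_near (x := 1 / s.re) (y := (2 : ℝ))
    (one_le_one_div hs0 hs1) (by norm_num)
  have h1 := iter h (n + 1) s (by
    rw [div_le_iff₀ (by positivity)]
    rw [div_lt_iff₀ hs0] at hn2
    linarith)
  have h2 : (6 : ℝ) ^ (n + 1) ≤ 6 * (1 / s.re) ^ 3 := by
    have e1 : (6 : ℝ) ^ n ≤ 8 ^ n := pow_le_pow_left₀ (by norm_num) (by norm_num) n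
    have e2 : (8 : ℝ) ^ n = (2 ^ n) ^ 3 := by
      rw [← pow_mul, mul_comm, pow_mul]
      norm_num
    have e3 : ((2 : ℝ) ^ n) ^ 3 ≤ (1 / s.re) ^ 3 := pow_le_pow_left₀ (by positivity) hn1 3
    rw [pow_succ]
    linarith
  have h3 : Real.log (1 + |s.im|) ≤ |s.im| := by
    have := Real.log_le_sub_one_of_pos (show 0 < 1 + |s.im| by positivity)
    linarith
  have h4 : 0 ≤ Real.log (1 + |s.im|) := log1_nonneg (abs_nonneg _)
  calc ‖L s‖ ≤ 24 * A * 6 ^ (n + 1) * (1 + Real.log (1 + |s.im|)) := h1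
    _ ≤ 24 * A * (6 * (1 / s.re) ^ 3) * (1 + |s.im|) := by
        apply mul_le_mul _ (by linarith) (by linarith) (by positivity)
        exact mul_le_mul_of_nonneg_left h2 (by positivity)
    _ = _ := by ring

theorem half {x : ℝ} (h : 1 / 2 < x) : 0 < x := by linarith

theorem log_quot {s : ℂ} (hs : 0 < s.re) :
    Complex.log (s / (1 + s)) = Complex.log s - Complex.log (1 + s) := by
  have hs0 : s ≠ 0 := fun h => by
    rw [h] at hs
    simp at hs
  have h1re : 0 < (1 + s).re := by
    rw [Complex.add_re, Complex.one_re]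
    linarith
  have h10 : 1 + s ≠ 0 := fun h => by
    rw [h] at h1re
    simp at h1re
  have e : s / (1 + s) = Complex.exp (Complex.log s - Complex.log (1 + s)) := by
    rw [Complex.exp_sub, Complex.exp_log hs0, Complex.exp_log h10]
  have a1 := Complex.abs_arg_lt_pi_div_two_iff.2 (Or.inl hs)
  have a2 := Complex.abs_arg_lt_pi_div_two_iff.2 (Or.inl h1re)
  rw [abs_lt] at a1 a2
  rw [e, Complex.log_exp]
  · rw [Complex.sub_im, Complex.log_im, Complex.log_im]
    linarith [a1.1, a2.2]
  · rw [Complex.sub_im, Complex.log_im, Complex.log_im]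
    linarith [a1.2, a2.1]

theorem norm_log_le (z : ℂ) : ‖Complex.log z‖ ≤ |Real.log ‖z‖| + Real.pi := by
  have h1 := Complex.norm_le_abs_re_add_abs_im (Complex.log z)
  rw [Complex.log_re, Complex.log_im] at h1
  have h2 := Complex.abs_arg_le_pi z
  linarith

/-- the quotient is small on the left, away from zero -/
theorem quot_bd {δ : ℝ} (hδ : 0 < δ) {s : ℂ} (hs : 0 < s.re) (h : δ ≤ ‖s‖) :
    ‖Complex.log (s / (1 + s))‖ ≤ Real.log ((1 + δ) / δ) + Real.pi := by
  refine (norm_log_le _).trans ?_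
  have h1re : 0 < (1 + s).re := by
    rw [Complex.add_re, Complex.one_re]
    linarith
  have hn : 0 < ‖1 + s‖ := norm_pos_iff.2 fun h => by
    rw [h] at h1re
    simp at h1re
  have hs' : 0 < ‖s‖ := hδ.trans_le h
  have h1 : ‖s‖ ≤ ‖1 + s‖ := by
    rw [← pow_le_pow_iff_left₀ (norm_nonneg _) (norm_nonneg _) two_ne_zero, Complex.sq_norm,
      Complex.sq_norm, Complex.normSq_apply, Complex.normSq_apply, Complex.add_re,
      Complex.add_im, Complex.one_re, Complex.one_im]
    nlinarith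
  have h2 : ‖1 + s‖ ≤ 1 + ‖s‖ := by
    have := norm_add_le 1 s
    rw [norm_one] at this
    exact this
  rw [norm_div]
  have h3 : Real.log (‖s‖ / ‖1 + s‖) ≤ 0 :=
    Real.log_nonpos (by positivity) ((div_le_one hn).2 h1)
  have h4 : -Real.log ((1 + δ) / δ) ≤ Real.log (‖s‖ / ‖1 + s‖) := by
    rw [← Real.log_inv, inv_div]
    apply Real.log_le_log (by positivity)
    rw [div_le_div_iff₀ (by positivity) hn]
    calc δ * ‖1 + s‖ ≤ δ * (1 + ‖s‖) := mul_le_mul_of_nonneg_left h2 hδ.le
      _ ≤ ‖s‖ * (1 + δ) := by nlinarith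
  rw [abs_of_nonpos h3]
  linarith

end Growth

open Growth Pool.Agent.TH942.RZ in
/-- the logarithm of a function without zeros and of moderate growth in the half plane -/
theorem log_of_growth {F G₀ : ℂ → ℂ} {r : ℕ} {A M : ℝ}
    (hd : ∀ s : ℂ, 0 < s.re → DifferentiableAt ℂ F s) (hne : ∀ s : ℂ, 0 < s.re → F s ≠ 0)
    (h0 : AnalyticAt ℂ F 0) (hord : analyticOrderAt F 0 = r)
    (hgr : ∀ s : ℂ, 0 < s.re → ‖F s‖ ≤ A * (1 + ‖s‖) ^ A * (1 + 1 / s.re) ^ A)
    (hG₀ : ∀ s : ℂ, 1 / 2 < s.re → DifferentiableAt ℂ G₀ s ∧ Complex.exp (G₀ s) = F s)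
    (hM : ∀ s : ℂ, 1 ≤ s.re → ‖G₀ s‖ ≤ M) :
    ∃ G : ℂ → ℂ, (∀ s : ℂ, 0 < s.re → DifferentiableAt ℂ G s) ∧
      (∀ s : ℂ, 0 < s.re → Complex.exp (G s) = F s) ∧
      (∀ s : ℂ, 1 / 2 < s.re → G s = G₀ s) ∧
      ∃ C K : ℝ, 0 ≤ K ∧ ∀ s : ℂ, 0 < s.re →
        ‖G s - r * Complex.log (s / (1 + s))‖ ≤ C * (‖s‖ / s.re) ^ K := by
  -- the logarithm
  obtain ⟨L₀, l1, l2⟩ := exists_log (HP_open 0) (HP_convex 0) (Ψ := F)
    (fun z hz => (hd z hz).differentiableWithinAt) hne
  have one_re : (1 / 2 : ℝ) < (1 : ℂ).re := by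
    rw [Complex.one_re]
    norm_num
  have l3 : ∀ s : ℂ, 1 / 2 < s.re → L₀ s - G₀ s = L₀ 1 - G₀ 1 := by
    intro s hs
    refine log_unique (U := HP (1 / 2)) (HP_convex _) (f := L₀) (g := G₀)
      (f' := fun s => deriv F s / F s) (g' := fun s => deriv G₀ s)
      (fun z hz => l1 z (half hz)) (fun z hz => (hG₀ z hz).1.hasDerivAt)
      (fun z hz => ?_) (HP_open _) hs one_re
    rw [l2 z (half hz), (hG₀ z hz).2]
  set κ : ℂ := G₀ 1 - L₀ 1 with hκ
  have hκ1 : Complex.exp κ = 1 := by
    rw [hκ, Complex.exp_sub, (hG₀ 1 one_re).2, l2 1 (half one_re), div_self]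
    exact hne 1 (half one_re)
  set G : ℂ → ℂ := fun s => L₀ s + κ with hG
  have g1 : ∀ s : ℂ, 0 < s.re → HasDerivAt G (deriv F s / F s) s :=
    fun s hs => (l1 s hs).add_const κ
  have g2 : ∀ s : ℂ, 0 < s.re → Complex.exp (G s) = F s := by
    intro s hs
    rw [hG]
    simp only
    rw [Complex.exp_add, hκ1, mul_one, l2 s hs]
  have g3 : ∀ s : ℂ, 1 / 2 < s.re → G s = G₀ s := by
    intro s hs
    have := l3 s hs
    simp only [hG, hκ]
    linear_combination this
  have g4 : ∀ s : ℂ, 1 ≤ s.re → ‖G s‖ ≤ M := by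
    intro s hs
    rw [g3 s (by linarith)]
    exact hM s hs
  -- positivity of `A`
  have hA : 0 < A := by
    have h1 := hgr 1 (half one_re)
    have h2 : 0 < ‖F 1‖ := norm_pos_iff.2 (hne 1 (half one_re))
    by_contra hcon
    push Not at hcon
    have h3 : A * (1 + ‖(1 : ℂ)‖) ^ A * (1 + 1 / (1 : ℂ).re) ^ A ≤ 0 := by
      have e1 : 0 ≤ (1 + ‖(1 : ℂ)‖) ^ A := by positivity
      have e2 : 0 ≤ (1 + 1 / (1 : ℂ).re) ^ A := by
        rw [Complex.one_re]
        positivity
      exact mul_nonpos_of_nonpos_of_nonneg (mul_nonpos_of_nonpos_of_nonneg hcon e1) e2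
    linarith
  set A' : ℝ := |Real.log A| + A + |M| with hA'
  have hA'0 : 0 < A' := by positivity
  have hLD : LD G A' 1 := by
    refine ⟨hA'0, le_rfl, fun s hs => (g1 s hs).differentiableAt, fun s hs => ?_, fun s hs => ?_⟩
    · have m1 : 0 ≤ Real.log (1 + |s.im|) := log1_nonneg (abs_nonneg _)
      have m2 : 0 ≤ Real.log (1 + 1 / s.re) := log1_nonneg (by positivity)
      rcases le_or_gt 1 s.re with hc | hc
      · have e1 := g4 s hc
        have e2 := Complex.re_le_norm (G s)
        have e3 := le_abs_self M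
        have e4 : A' * 1 ≤ A' * (1 + Real.log (1 + |s.im|) + Real.log (1 + 1 / s.re)) :=
          mul_le_mul_of_nonneg_left (by linarith) hA'0.le
        have e5 : 0 ≤ |Real.log A| + A := by positivity
        linarith
      · have e1 : Real.exp (G s).re = ‖F s‖ := by rw [← Complex.norm_exp, g2 s hs]
        have e2 : (G s).re = Real.log ‖F s‖ := by rw [← e1, Real.log_exp]
        have e3 : Real.log ‖F s‖ ≤ Real.log (A * (1 + ‖s‖) ^ A * (1 + 1 / s.re) ^ A) :=
          Real.log_le_log (norm_pos_iff.2 (hne s hs)) (hgr s hs)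
        have e4 : Real.log (A * (1 + ‖s‖) ^ A * (1 + 1 / s.re) ^ A) =
            Real.log A + A * Real.log (1 + ‖s‖) + A * Real.log (1 + 1 / s.re) := by
          have p1 : 0 < 1 + ‖s‖ := by positivity
          have p2 : 0 < 1 + 1 / s.re := by positivity
          rw [Real.log_mul (by positivity) (by positivity), Real.log_mul hA.ne' (by positivity),
            Real.log_rpow p1, Real.log_rpow p2]
        have e5 : Real.log (1 + ‖s‖) ≤ 1 + Real.log (1 + |s.im|) := by
          have q1 : ‖s‖ ≤ s.re + |s.im| := by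
            have := Complex.norm_le_abs_re_add_abs_im s
            rwa [abs_of_pos hs] at this
          calc Real.log (1 + ‖s‖) ≤ Real.log (2 * (1 + |s.im|)) := by
                apply Real.log_le_log (by positivity)
                have := abs_nonneg s.im
                linarith
            _ = Real.log 2 + Real.log (1 + |s.im|) :=
                Real.log_mul (by norm_num) (by positivity)
            _ ≤ _ := by
                have := Real.log_two_lt_d9
                linarith
        have e6 := le_abs_self (Real.log A)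
        have e7 := abs_nonneg (Real.log A)
        have e8 := abs_nonneg M
        have e9 : A * Real.log (1 + ‖s‖) ≤ A * (1 + Real.log (1 + |s.im|)) :=
          mul_le_mul_of_nonneg_left e5 hA.le
        have e10 : (|Real.log A| + |M|) * 1 ≤
            (|Real.log A| + |M|) * (1 + Real.log (1 + |s.im|) + Real.log (1 + 1 / s.re)) :=
          mul_le_mul_of_nonneg_left (by linarith) (by linarith)
        rw [e2]
        rw [e4] at e3
        have e11 : A' * (1 + Real.log (1 + |s.im|) + Real.log (1 + 1 / s.re)) =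
            A * (1 + Real.log (1 + |s.im|)) + A * Real.log (1 + 1 / s.re) +
            (|Real.log A| + |M|) * (1 + Real.log (1 + |s.im|) + Real.log (1 + 1 / s.re)) := by
          rw [hA']
          ring
        rw [e11]
        linarith
    · have e1 := g4 s hs
      have e3 := le_abs_self M
      have e5 : 0 ≤ |Real.log A| + A := by positivity
      linarith
  -- near the origin
  obtain ⟨g, hg, hg0, hFg⟩ := (AnalyticAt.analyticOrderAt_eq_natCast h0).1 hord
  obtain ⟨ρ, Γ, hρ, hΓ, -, hΓL⟩ := log_near (Ψ := F) (L := G) (m := r) (g := g) g2 g1 hg hg0 (by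
    filter_upwards [hFg] with s hs
    rw [hs, sub_zero, smul_eq_mul])
  set δ : ℝ := ρ / 2 with hδ
  have hδ0 : 0 < δ := by positivity
  obtain ⟨C₁, hC₁⟩ := (isCompact_closedBall (0 : ℂ) δ).exists_bound_of_continuousOn
    (hΓ.mono fun s hs => by
      rw [Metric.mem_closedBall] at hs
      rw [Metric.mem_ball]
      linarith)
  set C : ℝ := |C₁| + r * (δ + Real.pi) + (|M| + 144 * A' * (1 + 1 / δ) / δ ^ 2 +
    r * (Real.log ((1 + δ) / δ) + Real.pi)) with hC
  have hpi := Real.pi_pos
  have hlogδ : 0 ≤ Real.log ((1 + δ) / δ) := by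
    apply Real.log_nonneg
    rw [le_div_iff₀ hδ0]
    linarith
  have c1 : 0 ≤ |C₁| + r * (δ + Real.pi) := by positivity
  have c2 : 0 ≤ 144 * A' * (1 + 1 / δ) / δ ^ 2 := by positivity
  have c3 : 0 ≤ r * (Real.log ((1 + δ) / δ) + Real.pi) := by positivity
  have c4 : 0 ≤ |M| := abs_nonneg M
  refine ⟨G, fun s hs => (g1 s hs).differentiableAt, g2, g3, C, 3, by norm_num, fun s hs => ?_⟩
  have hs1 : s.re ≤ ‖s‖ := Complex.re_le_norm s
  have hq : 1 ≤ ‖s‖ / s.re := by
    rw [le_div_iff₀ hs]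
    linarith
  have e3 : (‖s‖ / s.re) ^ (3 : ℝ) = (‖s‖ / s.re) ^ 3 := by
    rw [← Real.rpow_natCast]
    norm_num
  rw [e3]
  have hq3 : 1 ≤ (‖s‖ / s.re) ^ 3 := one_le_pow₀ hq
  rcases le_or_gt ‖s‖ δ with hsm | hsm
  · have h1 := hΓL s hs (by linarith)
    have h2 : G s - r * Complex.log (s / (1 + s)) = Γ s + r * Complex.log (1 + s) := by
      rw [h1, log_quot hs]
      ring
    rw [h2]
    have h3 := hC₁ s (by rwa [Metric.mem_closedBall, dist_zero_right])
    have h4 : ‖Complex.log (1 + s)‖ ≤ δ + Real.pi := by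
      refine (norm_log_le _).trans ?_
      have h5 : 1 ≤ ‖1 + s‖ := by
        have := Complex.re_le_norm (1 + s)
        rw [Complex.add_re, Complex.one_re] at this
        linarith
      have h6 : ‖1 + s‖ ≤ 1 + ‖s‖ := by
        have := norm_add_le 1 s
        rw [norm_one] at this
        exact this
      rw [abs_of_nonneg (Real.log_nonneg h5)]
      have h7 := Real.log_le_sub_one_of_pos (show 0 < ‖1 + s‖ by linarith)
      linarith
    have h5 : ‖Γ s + r * Complex.log (1 + s)‖ ≤ |C₁| + r * (δ + Real.pi) := by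
      refine (norm_add_le _ _).trans (add_le_add (h3.trans (le_abs_self _)) ?_)
      rw [norm_mul, Complex.norm_natCast]
      exact mul_le_mul_of_nonneg_left h4 (Nat.cast_nonneg r)
    have h6 : C * 1 ≤ C * (‖s‖ / s.re) ^ 3 := mul_le_mul_of_nonneg_left hq3 (by
      rw [hC]
      linarith)
    have h7 : |C₁| + r * (δ + Real.pi) ≤ C := by
      rw [hC]
      linarith
    linarith
  · have h1 := quot_bd hδ0 hs hsm.le
    have h2 : ‖G s - r * Complex.log (s / (1 + s))‖ ≤
        ‖G s‖ + r * (Real.log ((1 + δ) / δ) + Real.pi) := by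
      refine (norm_sub_le _ _).trans (add_le_add le_rfl ?_)
      rw [norm_mul, Complex.norm_natCast]
      exact mul_le_mul_of_nonneg_left h1 (Nat.cast_nonneg r)
    have h3 : ‖G s‖ ≤ (|M| + 144 * A' * (1 + 1 / δ) / δ ^ 2) * (‖s‖ / s.re) ^ 3 := by
      rcases le_or_gt 1 s.re with hc | hc
      · have h4 := (g4 s hc).trans (le_abs_self M)
        calc ‖G s‖ ≤ |M| := h4
          _ ≤ (|M| + 144 * A' * (1 + 1 / δ) / δ ^ 2) * 1 := by linarith
          _ ≤ _ := mul_le_mul_of_nonneg_left hq3 (by linarith)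
      · have h4 := bd hLD hs hc.le
        have h5 : 1 + |s.im| ≤ (1 + 1 / δ) * ‖s‖ := by
          have h6 := Complex.abs_im_le_norm s
          have h7 : 1 ≤ 1 / δ * ‖s‖ := by
            rw [one_div, inv_mul_eq_div, le_div_iff₀ hδ0]
            linarith
          linarith
        have h6 : ‖s‖ ≤ ‖s‖ ^ 3 / δ ^ 2 := by
          rw [le_div_iff₀ (by positivity)]
          have : δ ^ 2 ≤ ‖s‖ ^ 2 := pow_le_pow_left₀ hδ0.le hsm.le 2
          calc ‖s‖ * δ ^ 2 ≤ ‖s‖ * ‖s‖ ^ 2 := mul_le_mul_of_nonneg_left this (norm_nonneg _)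
            _ = ‖s‖ ^ 3 := by ring
        calc ‖G s‖ ≤ 144 * A' * (1 / s.re) ^ 3 * (1 + |s.im|) := h4
          _ ≤ 144 * A' * (1 / s.re) ^ 3 * ((1 + 1 / δ) * (‖s‖ ^ 3 / δ ^ 2)) := by
              apply mul_le_mul_of_nonneg_left _ (by positivity)
              exact h5.trans (mul_le_mul_of_nonneg_left h6 (by positivity))
          _ = 144 * A' * (1 + 1 / δ) / δ ^ 2 * (‖s‖ / s.re) ^ 3 := by
              rw [div_pow, div_pow, one_pow]
              field_simp
          _ ≤ _ := by
              apply mul_le_mul_of_nonneg_right _ (by positivity)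
              linarith
    have h4 : r * (Real.log ((1 + δ) / δ) + Real.pi) * 1 ≤
        r * (Real.log ((1 + δ) / δ) + Real.pi) * (‖s‖ / s.re) ^ 3 :=
      mul_le_mul_of_nonneg_left hq3 c3
    have h5 : (|C₁| + r * (δ + Real.pi)) * 0 ≤ (|C₁| + r * (δ + Real.pi)) * (‖s‖ / s.re) ^ 3 :=
      mul_le_mul_of_nonneg_left (by positivity) c1
    have h6 : C * (‖s‖ / s.re) ^ 3 = (|C₁| + r * (δ + Real.pi)) * (‖s‖ / s.re) ^ 3 +
        ((|M| + 144 * A' * (1 + 1 / δ) / δ ^ 2) * (‖s‖ / s.re) ^ 3 +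
        r * (Real.log ((1 + δ) / δ) + Real.pi) * (‖s‖ / s.re) ^ 3) := by
      rw [hC]
      ring
    rw [h6]
    linarith

end Pool.Agent.TH942.RA
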