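import Mathlib

/-!
The Riesz mean of `(1 - e^{-u}) / u` and its Laplace transform (job 3437, helper692; the Laplace
transform of a power at a complex argument is copied from `Pool/Agent/Helper5/Pt/LapPT.lean`).
-/

set_option autoImplicit false

open MeasureTheory Filter Topology Set

namespace Pool.Agent.TH942.RA

/-- the Riesz mean of order `k` of the density `(1 - e^{-u}) / u` -/
noncomputable def hk (k T : ℝ) : ℝ :=
  ∫ u in Ioo 0 T, (1 - u / T) ^ k * ((1 - Real.exp (-u)) / u)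

namespace Hk

theorem pw_int (s : ℝ) (hs : -1 < s) (b : ℝ) (hb : 0 < b) :
    IntegrableOn (fun t : ℝ => t ^ s * Real.exp (-b * t)) (Ioi 0) := by
  have h := integrableOn_rpow_mul_exp_neg_mul_rpow (p := 1) hs one_pos hb
  simpa only [Real.rpow_one] using h

theorem pw_meas (s : ℝ) (r : ℂ) :
    AEStronglyMeasurable (fun t : ℝ => ((t ^ s : ℝ) : ℂ) * Complex.exp (-(r * t)))
      (volume.restrict (Ioi 0)) := by
  apply Measurable.aestronglyMeasurable
  fun_prop

theorem pw_norm (s : ℝ) (r : ℂ) (t : ℝ) (ht : 0 < t) :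
    ‖((t ^ s : ℝ) : ℂ) * Complex.exp (-(r * t))‖ = t ^ s * Real.exp (-r.re * t) := by
  rw [norm_mul, Complex.norm_real, Real.norm_eq_abs, abs_of_nonneg (Real.rpow_nonneg ht.le _),
    Complex.norm_exp]
  simp

theorem pw_cint (s : ℝ) (hs : -1 < s) (r : ℂ) (hr : 0 < r.re) :
    IntegrableOn (fun t : ℝ => ((t ^ s : ℝ) : ℂ) * Complex.exp (-(r * t))) (Ioi 0) := by
  refine Integrable.mono' (pw_int s hs r.re hr) (pw_meas _ r) ?_
  refine ae_restrict_of_forall_mem measurableSet_Ioi fun t ht => ?_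
  exact (pw_norm s r t ht).le

theorem pw_diff (a : ℝ) (ha : 1 ≤ a) (r0 : ℂ) (hr : 0 < r0.re) :
    DifferentiableAt ℂ (fun r : ℂ => ∫ t in Ioi (0:ℝ),
      ((t ^ (a - 1) : ℝ) : ℂ) * Complex.exp (-(r * t))) r0 := by
  have h := hasDerivAt_integral_of_dominated_loc_of_deriv_le (𝕜 := ℂ)
    (μ := volume.restrict (Ioi (0:ℝ))) (x₀ := r0) (s := Metric.ball r0 (r0.re / 2))
    (F := fun (r : ℂ) (t : ℝ) => ((t ^ (a - 1) : ℝ) : ℂ) * Complex.exp (-(r * t)))
    (F' := fun (r : ℂ) (t : ℝ) => ((t ^ (a - 1) : ℝ) : ℂ) * Complex.exp (-(r * t)) * (-(t : ℂ)))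
    (bound := fun t : ℝ => t ^ a * Real.exp (-(r0.re / 2) * t))
    (Metric.ball_mem_nhds _ (by positivity)) (Eventually.of_forall fun r => pw_meas _ r)
    ?_ ?_ ?_ ?_ ?_
  · exact h.2.differentiableAt
  · exact pw_cint (a - 1) (by linarith) r0 hr
  · apply Measurable.aestronglyMeasurable
    fun_prop
  · refine ae_restrict_of_forall_mem measurableSet_Ioi fun t ht r hrb => ?_
    have ht' : (0:ℝ) < t := ht
    rw [norm_mul, pw_norm _ r t ht', norm_neg, Complex.norm_real, Real.norm_eq_abs,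
      abs_of_pos ht']
    have h1 : r0.re / 2 ≤ r.re := by
      have h2 : |(r - r0).re| ≤ ‖r - r0‖ := Complex.abs_re_le_norm _
      rw [Metric.mem_ball, dist_eq_norm] at hrb
      rw [Complex.sub_re] at h2
      have h3 := (abs_le.1 (le_trans h2 hrb.le)).1
      linarith
    have h4 : t ^ a = t ^ (a - 1) * t := by
      rw [Real.rpow_sub_one ht'.ne']
      field_simp
    rw [h4]
    have h5 : Real.exp (-r.re * t) ≤ Real.exp (-(r0.re / 2) * t) := by
      apply Real.exp_le_exp.2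
      nlinarith
    calc t ^ (a - 1) * Real.exp (-r.re * t) * t = t ^ (a - 1) * t * Real.exp (-r.re * t) := by ring
      _ ≤ t ^ (a - 1) * t * Real.exp (-(r0.re / 2) * t) :=
        mul_le_mul_of_nonneg_left h5 (mul_nonneg (Real.rpow_nonneg ht'.le _) ht'.le)
  · exact pw_int a (by linarith) (r0.re / 2) (by positivity)
  · refine ae_restrict_of_forall_mem measurableSet_Ioi fun t ht r hrb => ?_
    have h1 : HasDerivAt (fun r : ℂ => -(r * (t : ℂ))) (-(t : ℂ)) r := by
      have := ((hasDerivAt_id r).mul_const (t : ℂ)).neg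
      exact this.congr_deriv (by simp)
    have h2 := (h1.cexp).const_mul (((t ^ (a - 1) : ℝ) : ℂ))
    exact h2.congr_deriv (by ring)

theorem pw_key (a : ℝ) (ha : 1 ≤ a) (r : ℂ) (hr : 0 < r.re) :
    ∫ t in Ioi (0:ℝ), ((t ^ (a - 1) : ℝ) : ℂ) * Complex.exp (-(r * t)) =
      (Real.Gamma a : ℂ) * r ^ (-(a : ℂ)) := by
  have hopen : IsOpen {r : ℂ | 0 < r.re} := isOpen_lt continuous_const Complex.continuous_re
  have hA : AnalyticOnNhd ℂ (fun r : ℂ => ∫ t in Ioi (0:ℝ),
      ((t ^ (a - 1) : ℝ) : ℂ) * Complex.exp (-(r * t))) {r : ℂ | 0 < r.re} :=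
    DifferentiableOn.analyticOnNhd
      (fun r hr => (pw_diff a ha r hr).differentiableWithinAt) hopen
  have hB : AnalyticOnNhd ℂ (fun r : ℂ => (Real.Gamma a : ℂ) * r ^ (-(a : ℂ))) {r : ℂ | 0 < r.re} := by
    apply DifferentiableOn.analyticOnNhd _ hopen
    intro r hr
    apply DifferentiableAt.differentiableWithinAt
    have h1 : DifferentiableAt ℂ (fun r : ℂ => r ^ (-(a : ℂ))) r :=
      DifferentiableAt.cpow differentiableAt_id (differentiableAt_const _) (Or.inl hr)
    exact h1.const_mul _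
  have hconn : IsPreconnected {r : ℂ | 0 < r.re} := (convex_halfSpace_re_gt 0).isPreconnected
  have hreal : ∀ x : ℝ, 0 < x → (fun r : ℂ => ∫ t in Ioi (0:ℝ),
      ((t ^ (a - 1) : ℝ) : ℂ) * Complex.exp (-(r * t))) (x : ℂ) =
      (fun r : ℂ => (Real.Gamma a : ℂ) * r ^ (-(a : ℂ))) (x : ℂ) := by
    intro x hx
    have h1 := Complex.integral_cpow_mul_exp_neg_mul_Ioi (a := (a : ℂ)) (r := x)
      (by rw [Complex.ofReal_re]; linarith) hx
    have h2 : ∫ t in Ioi (0:ℝ), ((t ^ (a - 1) : ℝ) : ℂ) * Complex.exp (-((x:ℂ) * t)) =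
        ∫ t in Ioi (0:ℝ), (t : ℂ) ^ ((a : ℂ) - 1) * Complex.exp (-((x:ℂ) * t)) := by
      apply setIntegral_congr_fun measurableSet_Ioi
      intro t ht
      have ht' : (0:ℝ) < t := ht
      show ((t ^ (a - 1) : ℝ) : ℂ) * Complex.exp (-((x:ℂ) * t)) = _
      rw [Complex.ofReal_cpow ht'.le]
      push_cast
      rfl
    show ∫ t in Ioi (0:ℝ), ((t ^ (a - 1) : ℝ) : ℂ) * Complex.exp (-((x:ℂ) * t)) =
      (Real.Gamma a : ℂ) * (x : ℂ) ^ (-(a : ℂ))
    rw [h2, h1, Complex.Gamma_ofReal, one_div, Complex.inv_cpow, Complex.cpow_neg, mul_comm]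
    rw [Complex.arg_ofReal_of_nonneg hx.le]
    exact Real.pi_ne_zero.symm
  have hfreq : ∃ᶠ z in 𝓝[≠] (1 : ℂ), (fun r : ℂ => ∫ t in Ioi (0:ℝ),
      ((t ^ (a - 1) : ℝ) : ℂ) * Complex.exp (-(r * t))) z =
      (fun r : ℂ => (Real.Gamma a : ℂ) * r ^ (-(a : ℂ))) z := by
    have ht : Tendsto (fun n : ℕ => (((1 + 1 / ((n : ℝ) + 1) : ℝ)) : ℂ)) atTop (𝓝[≠] (1 : ℂ)) := by
      apply tendsto_nhdsWithin_of_tendsto_nhds_of_eventually_within
      · have h1 : Tendsto (fun n : ℕ => (1 + 1 / ((n : ℝ) + 1) : ℝ)) atTop (𝓝 (1 + 0)) :=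
          tendsto_const_nhds.add tendsto_one_div_add_atTop_nhds_zero_nat
        rw [add_zero] at h1
        have h2 := (Complex.continuous_ofReal.tendsto 1).comp h1
        rw [Complex.ofReal_one] at h2
        exact h2
      · apply Eventually.of_forall
        intro n
        show (((1 + 1 / ((n : ℝ) + 1) : ℝ)) : ℂ) ≠ 1
        intro hh
        have h3 : (1 + 1 / ((n : ℝ) + 1) : ℝ) = 1 := by exact_mod_cast hh
        have h4 : (0 : ℝ) < 1 / ((n : ℝ) + 1) := by positivity
        linarith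
    exact ht.frequently (Frequently.of_forall fun n => hreal _ (by positivity))
  exact hA.eqOn_of_preconnected_of_frequently_eq hB hconn (by simp : (1 : ℂ) ∈ {r : ℂ | 0 < r.re})
    hfreq hr

/-- the Laplace transform of a power -/
theorem pw_key' (k : ℝ) (hk : 0 ≤ k) (s : ℂ) (hs : 0 < s.re) :
    ∫ t in Ioi (0:ℝ), ((t ^ k : ℝ) : ℂ) * Complex.exp (-(s * t)) =
      (Real.Gamma (k + 1) : ℂ) * s ^ (-((k : ℂ) + 1)) := by
  have h := pw_key (k + 1) (by linarith) s hs
  rw [add_sub_cancel_right] at h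
  rw [h]
  push_cast
  rfl

/-- the density -/
noncomputable def psi (u : ℝ) : ℝ := (1 - Real.exp (-u)) / u

theorem psi_meas : Measurable psi := by
  unfold psi
  fun_prop

theorem psi_nonneg {u : ℝ} (hu : 0 < u) : 0 ≤ psi u := by
  unfold psi
  apply div_nonneg _ hu.le
  have := Real.exp_le_one_iff.2 (by linarith : -u ≤ 0)
  linarith

theorem psi_le_one {u : ℝ} (hu : 0 < u) : psi u ≤ 1 := by
  unfold psi
  rw [div_le_one hu]
  have := Real.add_one_le_exp (-u)
  linarith

theorem hk_meas (k : ℝ) : Measurable (hk k) := by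
  have h1 : Measurable (fun p : ℝ × ℝ => ({q : ℝ × ℝ | 0 < q.2 ∧ q.2 < q.1}.indicator
      (fun q : ℝ × ℝ => (1 - q.2 / q.1) ^ k * ((1 - Real.exp (-q.2)) / q.2)) p)) := by
    apply Measurable.indicator
    · fun_prop
    · exact (measurableSet_lt measurable_const measurable_snd).inter
        (measurableSet_lt measurable_snd measurable_fst)
  have h2 := (h1.stronglyMeasurable.integral_prod_right' (ν := (volume : Measure ℝ))).measurable
  have h3 : hk k = fun T : ℝ => ∫ u : ℝ, ({q : ℝ × ℝ | 0 < q.2 ∧ q.2 < q.1}.indicator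
      (fun q : ℝ × ℝ => (1 - q.2 / q.1) ^ k * ((1 - Real.exp (-q.2)) / q.2)) (T, u)) := by
    funext T
    rw [hk, ← integral_indicator measurableSet_Ioo]
    apply integral_congr_ae
    refine Eventually.of_forall fun u => ?_
    show (Ioo 0 T).indicator _ u = {q : ℝ × ℝ | 0 < q.2 ∧ q.2 < q.1}.indicator _ (T, u)
    by_cases hu : u ∈ Ioo 0 T
    · rw [indicator_of_mem hu, indicator_of_mem]
      exact hu
    · rw [indicator_of_notMem hu, indicator_of_notMem]
      exact hu
  rw [h3]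
  exact h2

theorem hk_interval (k : ℝ) {T : ℝ} (hT : 0 ≤ T) :
    hk k T = ∫ u in (0:ℝ)..T, (1 - u / T) ^ k * psi u := by
  rw [intervalIntegral.integral_of_le hT, integral_Ioc_eq_integral_Ioo]
  rfl

/-- the weight lies in `[0, 1]` -/
theorem wt_mem {k : ℝ} (hk0 : 0 ≤ k) {T u : ℝ} (hu : 0 ≤ u) (huT : u ≤ T) (hT : 0 < T) :
    0 ≤ (1 - u / T) ^ k ∧ (1 - u / T) ^ k ≤ 1 := by
  have h1 : u / T ≤ 1 := (div_le_one hT).2 huT
  have h2 : 0 ≤ u / T := by positivity
  exact ⟨Real.rpow_nonneg (by linarith) _, Real.rpow_le_one (by linarith) (by linarith) hk0⟩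

theorem wt_ge {k : ℝ} (hk0 : 0 ≤ k) {v : ℝ} (hv : 0 ≤ v) (hv1 : v ≤ 1) :
    1 - (1 - v) ^ k ≤ max k 1 * v := by
  rcases le_total 1 k with h | h
  · rw [max_eq_left h]
    have h1 := one_add_mul_self_le_rpow_one_add (s := -v) (by linarith) h
    have h2 : (1 + -v) = 1 - v := by ring
    rw [h2] at h1
    linarith
  · rw [max_eq_right h]
    have h1 := Real.rpow_le_rpow_of_exponent_ge' (x := 1 - v) (y := 1) (z := k) (by linarith)
      (by linarith) hk0 h
    rw [Real.rpow_one] at h1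
    linarith

theorem f_meas (k T : ℝ) : Measurable fun u : ℝ => (1 - u / T) ^ k * psi u := by
  have := psi_meas
  fun_prop

theorem f_bound {k : ℝ} (hk0 : 0 ≤ k) {T u : ℝ} (hu : 0 < u) (huT : u ≤ T) :
    ‖(1 - u / T) ^ k * psi u‖ ≤ 1 := by
  have hT : 0 < T := hu.trans_le huT
  obtain ⟨h1, h2⟩ := wt_mem hk0 hu.le huT hT
  have h3 := psi_nonneg hu
  have h4 := psi_le_one hu
  rw [Real.norm_eq_abs, abs_of_nonneg (mul_nonneg h1 h3)]
  exact mul_le_one₀ h2 h3 h4

theorem f_intble {k : ℝ} (hk0 : 0 ≤ k) {T a b : ℝ} (ha : 0 ≤ a) (hab : a ≤ b) (hb : b ≤ T) :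
    IntervalIntegrable (fun u : ℝ => (1 - u / T) ^ k * psi u) volume a b := by
  rw [intervalIntegrable_iff_integrableOn_Ioc_of_le hab]
  refine Integrable.mono' (g := fun _ => (1:ℝ)) ?_ (f_meas k T).aestronglyMeasurable ?_
  · exact integrableOn_const (by simp)
  · refine ae_restrict_of_forall_mem measurableSet_Ioc fun u hu => ?_
    exact f_bound hk0 (ha.trans_lt hu.1) (hu.2.trans hb)

theorem hk_small {k : ℝ} (hk0 : 0 ≤ k) {T : ℝ} (hT : 0 < T) : |hk k T| ≤ T := by
  rw [hk_interval k hT.le, ← Real.norm_eq_abs]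
  have h := intervalIntegral.norm_integral_le_of_norm_le_const (a := 0) (b := T) (C := 1)
    (f := fun u : ℝ => (1 - u / T) ^ k * psi u) (fun u hu => by
      rw [uIoc_of_le hT.le] at hu
      exact f_bound hk0 hu.1 hu.2)
  refine h.trans ?_
  rw [sub_zero, abs_of_pos hT, one_mul]

theorem hk_large {k : ℝ} (hk0 : 0 ≤ k) {T : ℝ} (hT : 1 ≤ T) :
    |hk k T - Real.log T| ≤ max k 1 + 2 := by
  have hT0 : 0 < T := by linarith
  have h1 : hk k T = (∫ u in (0:ℝ)..1, (1 - u / T) ^ k * psi u) +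
      ∫ u in (1:ℝ)..T, (1 - u / T) ^ k * psi u := by
    rw [hk_interval k hT0.le]
    exact (intervalIntegral.integral_add_adjacent_intervals
      (f_intble hk0 le_rfl zero_le_one hT) (f_intble hk0 zero_le_one hT le_rfl)).symm
  have hlog : Real.log T = ∫ u in (1:ℝ)..T, 1 / u := by
    rw [integral_one_div_of_pos one_pos hT0, div_one]
  have hci : IntervalIntegrable (fun u : ℝ => 1 / u) volume 1 T := by
    apply ContinuousOn.intervalIntegrable
    rw [uIcc_of_le hT]
    apply ContinuousOn.div continuousOn_const continuousOn_id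
    intro x hx
    have : (1:ℝ) ≤ x := hx.1
    simp only [id]
    linarith
  have h2 : hk k T - Real.log T = (∫ u in (0:ℝ)..1, (1 - u / T) ^ k * psi u) +
      ∫ u in (1:ℝ)..T, ((1 - u / T) ^ k * psi u - 1 / u) := by
    rw [intervalIntegral.integral_sub (f_intble hk0 zero_le_one hT le_rfl) hci, ← hlog, h1]
    ring
  rw [h2]
  have h3 : |∫ u in (0:ℝ)..1, (1 - u / T) ^ k * psi u| ≤ 1 := by
    rw [← Real.norm_eq_abs]
    have h := intervalIntegral.norm_integral_le_of_norm_le_const (a := 0) (b := 1) (C := 1)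
      (f := fun u : ℝ => (1 - u / T) ^ k * psi u) (fun u hu => by
        rw [uIoc_of_le zero_le_one] at hu
        exact f_bound hk0 hu.1 (hu.2.trans hT))
    refine h.trans ?_
    rw [sub_zero, abs_one, one_mul]
  have hgi : IntervalIntegrable (fun u : ℝ => max k 1 / T + Real.exp (-u)) volume 1 T := by
    apply Continuous.intervalIntegrable
    fun_prop
  have h4 : |∫ u in (1:ℝ)..T, ((1 - u / T) ^ k * psi u - 1 / u)| ≤
      ∫ u in (1:ℝ)..T, (max k 1 / T + Real.exp (-u)) := by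
    rw [← Real.norm_eq_abs]
    refine intervalIntegral.norm_integral_le_of_norm_le hT ?_ hgi
    refine Eventually.of_forall fun u hu => ?_
    have hu1 : 1 < u := hu.1
    have hu0 : 0 < u := by linarith
    obtain ⟨w0, w1⟩ := wt_mem hk0 hu0.le hu.2 hT0
    have w2 := wt_ge hk0 (v := u / T) (by positivity) ((div_le_one hT0).2 hu.2)
    set w := (1 - u / T) ^ k with hw
    have he0 : 0 < Real.exp (-u) := Real.exp_pos _
    have h5 : w * psi u - 1 / u = -(((1 - w) + w * Real.exp (-u)) / u) := by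
      unfold psi
      field_simp
      ring
    rw [h5, norm_neg, Real.norm_eq_abs, abs_of_nonneg (by
      apply div_nonneg _ hu0.le
      have : 0 ≤ w * Real.exp (-u) := mul_nonneg w0 he0.le
      linarith)]
    rw [div_le_iff₀ hu0]
    have h6 : w * Real.exp (-u) ≤ Real.exp (-u) * u := by nlinarith
    have h7 : max k 1 * (u / T) = max k 1 / T * u := by ring
    rw [h7] at w2
    linarith
  have h8 : ∫ u in (1:ℝ)..T, (max k 1 / T + Real.exp (-u)) ≤ max k 1 + 1 := by
    rw [intervalIntegral.integral_add intervalIntegrable_const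
      ((by fun_prop : Continuous fun u : ℝ => Real.exp (-u)).intervalIntegrable _ _),
      intervalIntegral.integral_const, smul_eq_mul]
    have h9 : ∫ u in (1:ℝ)..T, Real.exp (-u) = Real.exp (-1) - Real.exp (-T) := by
      rw [intervalIntegral.integral_comp_neg (fun x => Real.exp x), integral_exp]
    rw [h9]
    have h10 : (T - 1) * (max k 1 / T) ≤ max k 1 := by
      have hM : 0 ≤ max k 1 := le_max_of_le_right zero_le_one
      rw [mul_div_assoc', div_le_iff₀ hT0]
      nlinarith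
    have h11 : Real.exp (-1) ≤ 1 := Real.exp_le_one_iff.2 (by norm_num)
    have h12 := Real.exp_pos (-T)
    linarith
  calc |(∫ u in (0:ℝ)..1, (1 - u / T) ^ k * psi u) +
      ∫ u in (1:ℝ)..T, ((1 - u / T) ^ k * psi u - 1 / u)|
      ≤ |∫ u in (0:ℝ)..1, (1 - u / T) ^ k * psi u| +
      |∫ u in (1:ℝ)..T, ((1 - u / T) ^ k * psi u - 1 / u)| := abs_add_le _ _
    _ ≤ 1 + (max k 1 + 1) := add_le_add h3 (h4.trans h8)
    _ = max k 1 + 2 := by ring

/-- the integral form -/
theorem pow_hk {k T : ℝ} (hT : 0 < T) :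
    T ^ k * hk k T = ∫ u in (0:ℝ)..T, psi u * (T - u) ^ k := by
  rw [hk_interval k hT.le, ← intervalIntegral.integral_const_mul]
  apply intervalIntegral.integral_congr
  intro u hu
  rw [uIcc_of_le hT.le] at hu
  show T ^ k * ((1 - u / T) ^ k * psi u) = psi u * (T - u) ^ k
  have h1 : 0 ≤ 1 - u / T := by
    have := (div_le_one hT).2 hu.2
    linarith
  have h2 : T ^ k * (1 - u / T) ^ k = (T - u) ^ k := by
    rw [← Real.mul_rpow hT.le h1]
    congr 1
    field_simp
  rw [← mul_assoc, h2]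
  ring

/-- the real transform of the density is integrable -/
theorem psi_int {x : ℝ} (hx : 0 < x) :
    IntegrableOn (fun u : ℝ => psi u * Real.exp (-(x * u))) (Ioi 0) := by
  refine Integrable.mono' (integrableOn_exp_mul_Ioi (a := -x) (by linarith) 0) ?_ ?_
  · have := psi_meas
    exact (by fun_prop : Measurable fun u : ℝ => psi u * Real.exp (-(x * u))).aestronglyMeasurable
  · refine ae_restrict_of_forall_mem measurableSet_Ioi fun u hu => ?_
    have hu0 : (0:ℝ) < u := hu
    rw [Real.norm_eq_abs, abs_of_nonneg (mul_nonneg (psi_nonneg hu0) (Real.exp_pos _).le)]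
    have h1 : -(x * u) = -x * u := by ring
    rw [h1]
    have := mul_le_mul_of_nonneg_right (psi_le_one hu0) (Real.exp_pos (-x * u)).le
    rwa [one_mul] at this

theorem psi_cint {s : ℂ} (hs : 0 < s.re) :
    IntegrableOn (fun u : ℝ => (psi u : ℂ) * Complex.exp (-(s * u))) (Ioi 0) := by
  refine Integrable.mono' (psi_int hs) ?_ ?_
  · have := psi_meas
    exact (by fun_prop : Measurable fun u : ℝ =>
      (psi u : ℂ) * Complex.exp (-(s * u))).aestronglyMeasurable
  · refine ae_restrict_of_forall_mem measurableSet_Ioi fun u hu => ?_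
    have hu0 : (0:ℝ) < u := hu
    rw [norm_mul, Complex.norm_real, Real.norm_eq_abs, abs_of_nonneg (psi_nonneg hu0),
      Complex.norm_exp]
    simp

/-- the density as an integral -/
theorem psi_eq {u : ℝ} (hu : 0 < u) : ∫ y in Ioc (0:ℝ) 1, Real.exp (-(y * u)) = psi u := by
  rw [← intervalIntegral.integral_of_le zero_le_one]
  have h1 : ∫ y in (0:ℝ)..1, Real.exp (-(y * u)) = ∫ y in (0:ℝ)..1, Real.exp ((-u) * y) := by
    apply intervalIntegral.integral_congr
    intro y _
    show Real.exp (-(y * u)) = Real.exp ((-u) * y)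
    congr 1
    ring
  rw [h1, intervalIntegral.integral_comp_mul_left (fun x => Real.exp x) (by linarith : -u ≠ 0)]
  rw [integral_exp, smul_eq_mul, mul_zero, mul_one, Real.exp_zero]
  unfold psi
  field_simp
  ring

theorem clog_div {s : ℂ} (hs : 0 < s.re) :
    Complex.log (1 + s) - Complex.log s = Complex.log ((1 + s) / s) := by
  have hs1 : 0 < (1 + s).re := by
    rw [Complex.add_re, Complex.one_re]
    linarith
  have h0 : s ≠ 0 := by
    rintro rfl
    simp at hs
  have h10 : 1 + s ≠ 0 := by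
    intro h
    rw [h] at hs1
    simp at hs1
  have ha := abs_lt.1 (Complex.abs_arg_lt_pi_div_two_iff.2 (Or.inl hs))
  have hb := abs_lt.1 (Complex.abs_arg_lt_pi_div_two_iff.2 (Or.inl hs1))
  have hpi := Real.pi_pos
  have hne : s.arg ≠ Real.pi := by
    intro h
    rw [h] at ha
    linarith [ha.2]
  rw [div_eq_mul_inv, (Complex.log_mul_eq_add_log_iff h10 (inv_ne_zero h0)).2, Complex.log_inv _ hne]
  · ring
  · rw [Complex.arg_inv, if_neg hne]
    constructor
    · linarith [ha.2, hb.1]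
    · linarith [ha.1, hb.2]

/-- the transform of the density -/
theorem psi_lap {s : ℂ} (hs : 0 < s.re) :
    ∫ u in Ioi (0:ℝ), (psi u : ℂ) * Complex.exp (-(s * u)) = Complex.log ((1 + s) / s) := by
  have h1 : ∫ u in Ioi (0:ℝ), (psi u : ℂ) * Complex.exp (-(s * u)) =
      ∫ u in Ioi (0:ℝ), ∫ y in Ioc (0:ℝ) 1, Complex.exp (-((s + y) * u)) := by
    apply setIntegral_congr_fun measurableSet_Ioi
    intro u hu
    have hu0 : (0:ℝ) < u := hu
    show (psi u : ℂ) * Complex.exp (-(s * u)) = ∫ y in Ioc (0:ℝ) 1, Complex.exp (-((s + y) * u))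
    rw [← psi_eq hu0, ← integral_complex_ofReal, ← integral_mul_const]
    apply integral_congr_ae
    refine Eventually.of_forall fun y => ?_
    show ((Real.exp (-(y * u)) : ℝ) : ℂ) * Complex.exp (-(s * u)) = Complex.exp (-((s + y) * u))
    rw [Complex.ofReal_exp, ← Complex.exp_add]
    congr 1
    push_cast
    ring
  have h2 : ∫ u in Ioi (0:ℝ), ∫ y in Ioc (0:ℝ) 1, Complex.exp (-((s + y) * u)) =
      ∫ y in Ioc (0:ℝ) 1, ∫ u in Ioi (0:ℝ), Complex.exp (-((s + y) * u)) := by
    apply integral_integral_swap (f := fun u y : ℝ => Complex.exp (-((s + y) * u)))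
    have hg : Integrable (fun p : ℝ × ℝ => Real.exp (-s.re * p.1) * (1:ℝ))
        ((volume.restrict (Ioi (0:ℝ))).prod (volume.restrict (Ioc (0:ℝ) 1))) :=
      Integrable.mul_prod (f := fun u : ℝ => Real.exp (-s.re * u)) (g := fun _ : ℝ => (1:ℝ))
        (integrableOn_exp_mul_Ioi (a := -s.re) (by linarith) 0)
        (integrableOn_const (by simp))
    refine Integrable.mono' hg ?_ ?_
    · apply Measurable.aestronglyMeasurable
      show Measurable fun p : ℝ × ℝ => Complex.exp (-((s + (p.2 : ℂ)) * (p.1 : ℂ)))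
      fun_prop
    · rw [Measure.prod_restrict]
      refine ae_restrict_of_forall_mem (measurableSet_Ioi.prod measurableSet_Ioc) fun p hp => ?_
      have hp1 : (0:ℝ) < p.1 := hp.1
      have hp2 : (0:ℝ) < p.2 := hp.2.1
      show ‖Complex.exp (-((s + (p.2 : ℂ)) * (p.1 : ℂ)))‖ ≤ _
      rw [Complex.norm_exp, mul_one]
      apply Real.exp_le_exp.2
      simp only [Complex.neg_re, Complex.mul_re, Complex.add_re, Complex.ofReal_re,
        Complex.ofReal_im, mul_zero, sub_zero]
      nlinarith [mul_pos hp1 hp2]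
  have h3 : ∫ y in Ioc (0:ℝ) 1, ∫ u in Ioi (0:ℝ), Complex.exp (-((s + y) * u)) =
      ∫ y in Ioc (0:ℝ) 1, 1 / (s + y) := by
    apply setIntegral_congr_fun measurableSet_Ioc
    intro y hy
    have hre : 0 < (s + (y:ℂ)).re := by
      rw [Complex.add_re, Complex.ofReal_re]
      linarith [hy.1]
    have hne : s + (y:ℂ) ≠ 0 := by
      intro h
      rw [h] at hre
      simp at hre
    show ∫ u in Ioi (0:ℝ), Complex.exp (-((s + y) * u)) = 1 / (s + y)
    have h := integral_exp_mul_complex_Ioi (a := -(s + (y:ℂ))) (by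
      rw [Complex.neg_re]
      linarith) 0
    simp only [neg_mul] at h
    rw [h, Complex.ofReal_zero, mul_zero, neg_zero, Complex.exp_zero, neg_div_neg_eq]
  rw [h1, h2, h3, ← intervalIntegral.integral_of_le zero_le_one]
  have hd : ∀ y ∈ uIcc (0:ℝ) 1, HasDerivAt (fun y : ℝ => Complex.log (s + y)) (1 / (s + y)) y := by
    intro y hy
    rw [uIcc_of_le zero_le_one] at hy
    have h4 : HasDerivAt (fun y : ℝ => s + (y:ℂ)) 1 y := by
      simpa using (Complex.ofRealCLM.hasDerivAt (x := y)).const_add s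
    apply h4.clog_real
    left
    rw [Complex.add_re, Complex.ofReal_re]
    linarith [hy.1]
  rw [intervalIntegral.integral_eq_sub_of_hasDerivAt hd]
  · rw [← clog_div hs]
    push_cast
    rw [add_zero, add_comm s 1]
  · apply ContinuousOn.intervalIntegrable
    apply ContinuousOn.div continuousOn_const (by fun_prop)
    intro y hy
    rw [uIcc_of_le zero_le_one] at hy
    intro h
    have h5 := congrArg Complex.re h
    rw [Complex.add_re, Complex.ofReal_re, Complex.zero_re] at h5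
    linarith [hy.1]

theorem hk_int {k : ℝ} (hk0 : 0 ≤ k) {x : ℝ} (hx : 0 < x) :
    IntegrableOn (fun T : ℝ => T ^ k * hk k T * Real.exp (-(x * T))) (Ioi 0) := by
  have hf := psi_int hx
  have hg : IntegrableOn (fun t : ℝ => t ^ k * Real.exp (-x * t)) (Ioi 0) :=
    pw_int k (by linarith) x hx
  have h := integrable_posConvolution (μ := volume) (ν := volume) hf hg
    (ContinuousLinearMap.mul ℝ ℝ)
  have h2 := h.integrableOn (s := Ioi (0:ℝ))
  refine h2.congr_fun ?_ measurableSet_Ioi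
  intro T hT
  have hT0 : (0:ℝ) < T := hT
  show posConvolution _ _ _ _ T = T ^ k * hk k T * Real.exp (-(x * T))
  rw [posConvolution, indicator_of_mem hT, pow_hk hT0, ← intervalIntegral.integral_mul_const]
  apply intervalIntegral.integral_congr
  intro u _
  show psi u * Real.exp (-(x * u)) * ((T - u) ^ k * Real.exp (-x * (T - u))) =
    psi u * (T - u) ^ k * Real.exp (-(x * T))
  have h3 : Real.exp (-(x * T)) = Real.exp (-(x * u)) * Real.exp (-x * (T - u)) := by
    rw [← Real.exp_add]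
    congr 1
    ring
  rw [h3]
  ring

theorem hk_lap {k : ℝ} (hk0 : 0 ≤ k) {s : ℂ} (hs : 0 < s.re) :
    ∫ T in Ioi (0 : ℝ), Complex.exp (-(s * T)) * ((T ^ k * hk k T : ℝ) : ℂ) =
        Real.Gamma (k + 1) * s ^ (-((k : ℂ) + 1)) * Complex.log ((1 + s) / s) := by
  have hf := psi_cint hs
  have hg := pw_cint k (by linarith) s hs
  have h := integral_posConvolution (μ := volume) (ν := volume) hf hg
    (ContinuousLinearMap.mul ℝ ℂ)
  rw [ContinuousLinearMap.mul_apply', psi_lap hs, pw_key' k hk0 s hs] at h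
  rw [mul_comm ((Real.Gamma (k + 1) : ℂ) * s ^ (-((k : ℂ) + 1))), ← h]
  apply setIntegral_congr_fun measurableSet_Ioi
  intro T hT
  have hT0 : (0:ℝ) < T := hT
  show Complex.exp (-(s * T)) * ((T ^ k * hk k T : ℝ) : ℂ) =
    ∫ u in (0:ℝ)..T, (psi u : ℂ) * Complex.exp (-(s * u)) *
      ((((T - u) ^ k : ℝ) : ℂ) * Complex.exp (-(s * ((T - u : ℝ) : ℂ))))
  rw [pow_hk hT0, ← intervalIntegral.integral_ofReal, ← intervalIntegral.integral_const_mul]
  apply intervalIntegral.integral_congr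
  intro u _
  show Complex.exp (-(s * T)) * ((psi u * (T - u) ^ k : ℝ) : ℂ) =
    (psi u : ℂ) * Complex.exp (-(s * u)) *
      ((((T - u) ^ k : ℝ) : ℂ) * Complex.exp (-(s * ((T - u : ℝ) : ℂ))))
  have h3 : Complex.exp (-(s * T)) =
      Complex.exp (-(s * u)) * Complex.exp (-(s * ((T - u : ℝ) : ℂ))) := by
    rw [← Complex.exp_add]
    congr 1
    push_cast
    ring
  rw [h3, Complex.ofReal_mul]
  ring

end Hk

/-- size and Laplace transform -/
theorem hk_spec {k : ℝ} (hk0 : 0 ≤ k) :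
    Measurable (hk k) ∧
    (∃ C : ℝ, (∀ T, 0 < T → T ≤ 1 → |hk k T| ≤ C) ∧ ∀ T, 1 ≤ T → |hk k T - Real.log T| ≤ C) ∧
    ∀ s : ℂ, 0 < s.re →
      IntegrableOn (fun T : ℝ => T ^ k * hk k T * Real.exp (-(s.re * T))) (Ioi 0) ∧
      ∫ T in Ioi (0 : ℝ), Complex.exp (-(s * T)) * ((T ^ k * hk k T : ℝ) : ℂ) =
        Real.Gamma (k + 1) * s ^ (-((k : ℂ) + 1)) * Complex.log ((1 + s) / s) := by
  refine ⟨Hk.hk_meas k, ⟨max k 1 + 2, ?_, fun T hT => Hk.hk_large hk0 hT⟩, fun s hs =>
    ⟨Hk.hk_int hk0 hs, Hk.hk_lap hk0 hs⟩⟩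
  intro T hT hT1
  have h1 := Hk.hk_small hk0 hT
  have h2 : (1:ℝ) ≤ max k 1 := le_max_right _ _
  linarith

end Pool.Agent.TH942.RA
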