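import Pool.Agent.TH942.RA.Main
import Pool.Agent.TH942.RA.Bdd
import Pool.Agent.TH942.RA.GGlog

/-!
# The law for Riesz means if the continuation is known
-/

set_option autoImplicit false

open MeasureTheory Filter Topology Set Complex
open Pool.Agent.TH942.LS (Dat S)
open Pool.Agent.TH942.SL (DD)
open Pool.Agent.TH942.RZ (rzw)
open Pool.Agent.TH942.ES

namespace Pool.Agent.TH942.RA

variable {X : Type} {d : ℕ} {N : X → ℕ} {α : X → Fin d → ℂ} {Ψ : ℂ → ℂ}

/-- the continuation by the exponential -/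
theorem con_eq_exp (H : Con N α Ψ) {G : ℂ → ℂ}
    (g1 : ∀ s : ℂ, 0 < s.re → DifferentiableAt ℂ G s)
    (g2 : ∀ s : ℂ, 1 / 2 < s.re → exp (G s) = LE N α s) :
    ∀ s : ℂ, 0 < s.re → Ψ s = exp (G s) := by
  have ho : IsOpen {z : ℂ | 0 < z.re} := isOpen_lt continuous_const Complex.continuous_re
  have a1 : AnalyticOnNhd ℂ Ψ {z : ℂ | 0 < z.re} :=
    DifferentiableOn.analyticOnNhd (fun z hz => (H.Ψd z hz).differentiableWithinAt) ho
  have a2 : AnalyticOnNhd ℂ (fun z => exp (G z)) {z : ℂ | 0 < z.re} :=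
    DifferentiableOn.analyticOnNhd (fun z hz => (g1 z hz).cexp.differentiableWithinAt) ho
  have h1 : (0 : ℝ) < (1 : ℂ).re := by norm_num
  have hnear : Ψ =ᶠ[𝓝 (1 : ℂ)] fun z => exp (G z) := by
    have ho2 : IsOpen {z : ℂ | 1 / 2 < z.re} := isOpen_lt continuous_const Complex.continuous_re
    filter_upwards [ho2.mem_nhds (show (1 / 2 : ℝ) < (1 : ℂ).re by norm_num)] with z hz
    have h3 := (H.prod z hz).tprod_eq
    rw [g2 z hz]
    unfold Pool.Agent.TH942.ES.LE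
    rw [h3]
  have a3 := a1.eqOn_of_preconnected_of_eventuallyEq a2
    (convex_halfSpace_re_gt 0).isPreconnected h1 hnear
  exact fun s hs => a3 hs

/-- **the continuation has no zeros and the order `r`** -/
theorem of_con (E : Sys N α) (H : Con N α Ψ) (h0 : AnalyticAt ℂ Ψ 0) {r : ℝ}
    (h : LogCont N α r) : (∀ s : ℂ, 0 < s.re → Ψ s ≠ 0) ∧
      ∀ m : ℕ, analyticOrderAt Ψ 0 = m → (m : ℝ) = r := by
  obtain ⟨G, g1, g2, C, κ, g3⟩ := h
  have he := con_eq_exp H g1 g2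
  refine ⟨fun s hs => by rw [he s hs]; exact Complex.exp_ne_zero _, fun m hm => ?_⟩
  obtain ⟨c, hc, hlim⟩ := (Pool.Agent.TH270.SH.ordZero h0 hm).limit
  have hlog := hlim.log hc.ne'
  have hB : ∀ᶠ x : ℝ in 𝓝[>] 0, |(r - m) * Real.log x| ≤ |Real.log c| + 1 + (C + |r| * Real.log 2) := by
    have e0 : ∀ᶠ x : ℝ in 𝓝[>] (0 : ℝ), |Real.log (‖Ψ x‖ / x ^ m) - Real.log c| < 1 := by
      refine ((Metric.tendsto_nhds.1 hlog) 1 one_pos).mono fun x hx => ?_
      rwa [Real.dist_eq] at hx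
    filter_upwards [e0, self_mem_nhdsWithin, Ioo_mem_nhdsGT (show (0 : ℝ) < 1 by norm_num)]
      with x h1 h2 h3
    have hx : 0 < x := h2
    have hre : (0 : ℝ) < (x : ℂ).re := by rwa [Complex.ofReal_re]
    have e1 := g3 x hre
    have e2 : ‖(x : ℂ)‖ / (x : ℂ).re = 1 := by
      rw [Complex.norm_real, Real.norm_eq_abs, abs_of_pos hx, Complex.ofReal_re, div_self hx.ne']
    rw [e2, Real.one_rpow, mul_one] at e1
    have e3 : (x : ℂ) / (1 + x) = ((x / (1 + x) : ℝ) : ℂ) := by push_cast; rfl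
    have hx1 : 0 < x / (1 + x) := by positivity
    rw [e3, ← Complex.ofReal_log hx1.le] at e1
    have e4 := (Complex.abs_re_le_norm _).trans e1
    rw [Complex.sub_re, ← Complex.ofReal_mul, Complex.ofReal_re,
      Real.log_div hx.ne' (by positivity)] at e4
    have e5 : Real.log ‖Ψ x‖ = (G x).re := by
      rw [he x hre, Complex.norm_exp, Real.log_exp]
    have hΨ : 0 < ‖Ψ x‖ := by
      rw [he x hre]
      exact norm_pos_iff.2 (Complex.exp_ne_zero _)
    rw [Real.log_div hΨ.ne' (by positivity), Real.log_pow, e5] at h1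
    have e6 : 0 ≤ Real.log (1 + x) := Real.log_nonneg (by linarith)
    have e7 : Real.log (1 + x) ≤ Real.log 2 := Real.log_le_log (by positivity) (by linarith [h3.2])
    have e8 : |r * Real.log (1 + x)| ≤ |r| * Real.log 2 := by
      rw [abs_mul, abs_of_nonneg e6]
      exact mul_le_mul_of_nonneg_left e7 (abs_nonneg _)
    have e9 := neg_abs_le (Real.log c)
    have e10 := le_abs_self (Real.log c)
    rw [abs_lt] at h1
    rw [abs_le] at e4 e8 ⊢
    constructor <;> nlinarith [h1.1, h1.2, e4.1, e4.2, e8.1, e8.2]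
  by_contra hne
  have hd : 0 < |r - m| := abs_pos.2 (sub_ne_zero.2 fun h => hne h.symm)
  have hinf := Real.tendsto_log_nhdsGT_zero
  have e1 := hinf.eventually_lt_atBot (-((|Real.log c| + 1 + (C + |r| * Real.log 2)) / |r - m|) - 1)
  obtain ⟨x, h1, h2, h3⟩ := (hB.and (e1.and
    (Ioo_mem_nhdsGT (show (0 : ℝ) < 1 by norm_num)))).exists
  have h4 : Real.log x < 0 := Real.log_neg h3.1 h3.2
  rw [abs_mul, abs_of_neg h4] at h1
  have h5 : -Real.log x ≤ (|Real.log c| + 1 + (C + |r| * Real.log 2)) / |r - m| := by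
    rw [le_div_iff₀ hd]
    linarith
  linarith

/-- **no zeros and moderate growth imply the law for every positive order** -/
theorem law_of_con (E : Sys N α) (H : Con N α Ψ) (h0 : AnalyticAt ℂ Ψ 0) {m : ℕ}
    (hm : analyticOrderAt Ψ 0 = m) (hz : ∀ s : ℂ, 0 < s.re → Ψ s ≠ 0) {A : ℝ}
    (hgr : ∀ s : ℂ, 0 < s.re → ‖Ψ s‖ ≤ A * (1 + ‖s‖) ^ A * (1 + 1 / s.re) ^ A) {k : ℝ}
    (hk : 0 < k) : RLaw N α k m := by
  have := E.cnt
  obtain ⟨e, he⟩ := Countable.exists_injective_nat X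
  have D : Dat (lamN N e) (cN N α e) (Real.log 2) 1 := E.dat he
  obtain ⟨A₁, hA₁⟩ := GG_log E
  have hA0 : 0 ≤ A := by
    by_contra hcon
    push Not at hcon
    have h1 := hgr 1 (by norm_num)
    have h2 : 0 < ‖Ψ 1‖ := norm_pos_iff.2 (hz 1 (by norm_num))
    have h3 : A * (1 + ‖(1 : ℂ)‖) ^ A * (1 + 1 / (1 : ℂ).re) ^ A ≤ 0 := by
      have e1 : 0 ≤ (1 + ‖(1 : ℂ)‖) ^ A := by positivity
      have e2 : 0 ≤ (1 + 1 / (1 : ℂ).re) ^ A := by
        rw [Complex.one_re]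
        positivity
      exact mul_nonpos_of_nonpos_of_nonneg (mul_nonpos_of_nonpos_of_nonneg hcon.le e1) e2
    linarith
  have hm' := hm
  rw [h0.analyticOrderAt_eq_natCast] at hm'
  obtain ⟨g, hg, hg1, hfac⟩ := hm'
  obtain ⟨C, hC⟩ := riesz_bdd D hk (Ψ := Ψ) (G := GG N α) (g := g) (m := m) (A := A₁)
    (A' := 8 * d * ∑' v, (N v : ℝ) ^ (-(1 + (1 : ℝ)))) (C := A)
    H.Ψd hz (fun s hs => E.GG_diff hs)
    (fun s hs => by
      rw [Sys.DD_eq he]
      exact E.exp_eq (s := s) (by linarith) (H.prod s (by linarith)))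
    hA0 hgr hA₁
    (fun s hs => tsum_of_norm_bounded ((E.sum (1 + 1) (by norm_num)).hasSum.mul_left _) fun v =>
      E.norm_gv₁ zero_le_one hs v)
    hg hg1 (by
      filter_upwards [hfac] with z hz
      rw [hz, sub_zero, smul_eq_mul])
  refine ⟨C, ?_⟩
  filter_upwards [hC, eventually_gt_atTop 0] with T h1 h2
  rw [S_eq hk h2, ← Rz_eq he] at h1
  exact h1

/-- **Riesz means, if a continuation of moderate growth is known** -/
theorem con_tfae (E : Sys N α) (H : Con N α Ψ) (h0 : AnalyticAt ℂ Ψ 0) {A : ℝ}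
    (hgr : ∀ s : ℂ, 0 < s.re → ‖Ψ s‖ ≤ A * (1 + ‖s‖) ^ A * (1 + 1 / s.re) ^ A) (r : ℕ) :
    List.TFAE [analyticOrderAt Ψ 0 = r ∧ ∀ s : ℂ, 0 < s.re → Ψ s ≠ 0,
      ∀ k : ℝ, 0 < k → RLaw N α k r,
      ∃ k : ℝ, 0 ≤ k ∧ RLaw N α k r] := by
  tfae_have 1 → 2 := fun h k hk => law_of_con E H h0 h.1 h.2 hgr hk
  tfae_have 2 → 3 := fun h => ⟨1, zero_le_one, h 1 one_pos⟩
  tfae_have 3 → 1 := by
    rintro ⟨k, hk, h⟩
    obtain ⟨h1, h2⟩ := of_con E H h0 (logCont_of_law E hk h)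
    obtain ⟨m, hm⟩ := Pool.Agent.TH270.SH.exists_ord E H
    have h3 : m = r := by exact_mod_cast h2 m hm
    exact ⟨by rw [hm, h3], h1⟩
  tfae_finish

end Pool.Agent.TH942.RA
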