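import Mathlib

/-!
The Laplace transform of the Riesz means of a Dirichlet series (job 3438, helper692; the Laplace
transform of a power at a complex argument is copied from `Pool/Agent/Helper5/Pt/LapPT.lean`).
-/

set_option autoImplicit false

open MeasureTheory Filter Topology Set

namespace Pool.Agent.TH942.RA

/-- the Riesz mean of order `k ≥ 0` -/
noncomputable def Rm (lam c : ℕ → ℝ) (k T : ℝ) : ℝ :=
  ∑' n, if lam n ≤ T then c n * (1 - lam n / T) ^ k else 0

namespace Lap

theorem pw_int (s : ℝ) (hs : -1 < s) (b : ℝ) (hb : 0 < b) :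
    IntegrableOn (fun t : ℝ => t ^ s * Real.exp (-b * t)) (Ioi 0) := by
  have h := integrableOn_rpow_mul_exp_neg_mul_rpow (p := 1) hs one_pos hb
  simpa only [Real.rpow_one] using h

theorem pw_meas (s : ℝ) (r : ℂ) :
    AEStronglyMeasurable (fun t : ℝ => ((t ^ s : ℝ) : ℂ) * Complex.exp (-(r * t)))
      (volume.restrict (Ioi 0)) := by
  apply Measurable.aestronglyMeasurable
  fun_prop

theorem pw_norm (s : ℝ) (r : ℂ) (t : ℝ) (ht : 0 < t) :
    ‖((t ^ s : ℝ) : ℂ) * Complex.exp (-(r * t))‖ = t ^ s * Real.exp (-r.re * t) := by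
  rw [norm_mul, Complex.norm_real, Real.norm_eq_abs, abs_of_nonneg (Real.rpow_nonneg ht.le _),
    Complex.norm_exp]
  simp

theorem pw_cint (s : ℝ) (hs : -1 < s) (r : ℂ) (hr : 0 < r.re) :
    IntegrableOn (fun t : ℝ => ((t ^ s : ℝ) : ℂ) * Complex.exp (-(r * t))) (Ioi 0) := by
  refine Integrable.mono' (pw_int s hs r.re hr) (pw_meas _ r) ?_
  refine ae_restrict_of_forall_mem measurableSet_Ioi fun t ht => ?_
  exact (pw_norm s r t ht).le

theorem pw_diff (a : ℝ) (ha : 1 ≤ a) (r0 : ℂ) (hr : 0 < r0.re) :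
    DifferentiableAt ℂ (fun r : ℂ => ∫ t in Ioi (0:ℝ),
      ((t ^ (a - 1) : ℝ) : ℂ) * Complex.exp (-(r * t))) r0 := by
  have h := hasDerivAt_integral_of_dominated_loc_of_deriv_le (𝕜 := ℂ)
    (μ := volume.restrict (Ioi (0:ℝ))) (x₀ := r0) (s := Metric.ball r0 (r0.re / 2))
    (F := fun (r : ℂ) (t : ℝ) => ((t ^ (a - 1) : ℝ) : ℂ) * Complex.exp (-(r * t)))
    (F' := fun (r : ℂ) (t : ℝ) => ((t ^ (a - 1) : ℝ) : ℂ) * Complex.exp (-(r * t)) * (-(t : ℂ)))
    (bound := fun t : ℝ => t ^ a * Real.exp (-(r0.re / 2) * t))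
    (Metric.ball_mem_nhds _ (by positivity)) (Eventually.of_forall fun r => pw_meas _ r)
    ?_ ?_ ?_ ?_ ?_
  · exact h.2.differentiableAt
  · exact pw_cint (a - 1) (by linarith) r0 hr
  · apply Measurable.aestronglyMeasurable
    fun_prop
  · refine ae_restrict_of_forall_mem measurableSet_Ioi fun t ht r hrb => ?_
    have ht' : (0:ℝ) < t := ht
    rw [norm_mul, pw_norm _ r t ht', norm_neg, Complex.norm_real, Real.norm_eq_abs,
      abs_of_pos ht']
    have h1 : r0.re / 2 ≤ r.re := by
      have h2 : |(r - r0).re| ≤ ‖r - r0‖ := Complex.abs_re_le_norm _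
      rw [Metric.mem_ball, dist_eq_norm] at hrb
      rw [Complex.sub_re] at h2
      have h3 := (abs_le.1 (le_trans h2 hrb.le)).1
      linarith
    have h4 : t ^ a = t ^ (a - 1) * t := by
      rw [Real.rpow_sub_one ht'.ne']
      field_simp
    rw [h4]
    have h5 : Real.exp (-r.re * t) ≤ Real.exp (-(r0.re / 2) * t) := by
      apply Real.exp_le_exp.2
      nlinarith
    calc t ^ (a - 1) * Real.exp (-r.re * t) * t = t ^ (a - 1) * t * Real.exp (-r.re * t) := by ring
      _ ≤ t ^ (a - 1) * t * Real.exp (-(r0.re / 2) * t) :=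
        mul_le_mul_of_nonneg_left h5 (mul_nonneg (Real.rpow_nonneg ht'.le _) ht'.le)
  · exact pw_int a (by linarith) (r0.re / 2) (by positivity)
  · refine ae_restrict_of_forall_mem measurableSet_Ioi fun t ht r hrb => ?_
    have h1 : HasDerivAt (fun r : ℂ => -(r * (t : ℂ))) (-(t : ℂ)) r := by
      have := ((hasDerivAt_id r).mul_const (t : ℂ)).neg
      exact this.congr_deriv (by simp)
    have h2 := (h1.cexp).const_mul (((t ^ (a - 1) : ℝ) : ℂ))
    exact h2.congr_deriv (by ring)

theorem pw_key (a : ℝ) (ha : 1 ≤ a) (r : ℂ) (hr : 0 < r.re) :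
    ∫ t in Ioi (0:ℝ), ((t ^ (a - 1) : ℝ) : ℂ) * Complex.exp (-(r * t)) =
      (Real.Gamma a : ℂ) * r ^ (-(a : ℂ)) := by
  have hopen : IsOpen {r : ℂ | 0 < r.re} := isOpen_lt continuous_const Complex.continuous_re
  have hA : AnalyticOnNhd ℂ (fun r : ℂ => ∫ t in Ioi (0:ℝ),
      ((t ^ (a - 1) : ℝ) : ℂ) * Complex.exp (-(r * t))) {r : ℂ | 0 < r.re} :=
    DifferentiableOn.analyticOnNhd
      (fun r hr => (pw_diff a ha r hr).differentiableWithinAt) hopen
  have hB : AnalyticOnNhd ℂ (fun r : ℂ => (Real.Gamma a : ℂ) * r ^ (-(a : ℂ))) {r : ℂ | 0 < r.re} := by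
    apply DifferentiableOn.analyticOnNhd _ hopen
    intro r hr
    apply DifferentiableAt.differentiableWithinAt
    have h1 : DifferentiableAt ℂ (fun r : ℂ => r ^ (-(a : ℂ))) r :=
      DifferentiableAt.cpow differentiableAt_id (differentiableAt_const _) (Or.inl hr)
    exact h1.const_mul _
  have hconn : IsPreconnected {r : ℂ | 0 < r.re} := (convex_halfSpace_re_gt 0).isPreconnected
  have hreal : ∀ x : ℝ, 0 < x → (fun r : ℂ => ∫ t in Ioi (0:ℝ),
      ((t ^ (a - 1) : ℝ) : ℂ) * Complex.exp (-(r * t))) (x : ℂ) =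
      (fun r : ℂ => (Real.Gamma a : ℂ) * r ^ (-(a : ℂ))) (x : ℂ) := by
    intro x hx
    have h1 := Complex.integral_cpow_mul_exp_neg_mul_Ioi (a := (a : ℂ)) (r := x)
      (by rw [Complex.ofReal_re]; linarith) hx
    have h2 : ∫ t in Ioi (0:ℝ), ((t ^ (a - 1) : ℝ) : ℂ) * Complex.exp (-((x:ℂ) * t)) =
        ∫ t in Ioi (0:ℝ), (t : ℂ) ^ ((a : ℂ) - 1) * Complex.exp (-((x:ℂ) * t)) := by
      apply setIntegral_congr_fun measurableSet_Ioi
      intro t ht
      have ht' : (0:ℝ) < t := ht
      show ((t ^ (a - 1) : ℝ) : ℂ) * Complex.exp (-((x:ℂ) * t)) = _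
      rw [Complex.ofReal_cpow ht'.le]
      push_cast
      rfl
    show ∫ t in Ioi (0:ℝ), ((t ^ (a - 1) : ℝ) : ℂ) * Complex.exp (-((x:ℂ) * t)) =
      (Real.Gamma a : ℂ) * (x : ℂ) ^ (-(a : ℂ))
    rw [h2, h1, Complex.Gamma_ofReal, one_div, Complex.inv_cpow, Complex.cpow_neg, mul_comm]
    rw [Complex.arg_ofReal_of_nonneg hx.le]
    exact Real.pi_ne_zero.symm
  have hfreq : ∃ᶠ z in 𝓝[≠] (1 : ℂ), (fun r : ℂ => ∫ t in Ioi (0:ℝ),
      ((t ^ (a - 1) : ℝ) : ℂ) * Complex.exp (-(r * t))) z =
      (fun r : ℂ => (Real.Gamma a : ℂ) * r ^ (-(a : ℂ))) z := by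
    have ht : Tendsto (fun n : ℕ => (((1 + 1 / ((n : ℝ) + 1) : ℝ)) : ℂ)) atTop (𝓝[≠] (1 : ℂ)) := by
      apply tendsto_nhdsWithin_of_tendsto_nhds_of_eventually_within
      · have h1 : Tendsto (fun n : ℕ => (1 + 1 / ((n : ℝ) + 1) : ℝ)) atTop (𝓝 (1 + 0)) :=
          tendsto_const_nhds.add tendsto_one_div_add_atTop_nhds_zero_nat
        rw [add_zero] at h1
        have h2 := (Complex.continuous_ofReal.tendsto 1).comp h1
        rw [Complex.ofReal_one] at h2
        exact h2
      · apply Eventually.of_forall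
        intro n
        show (((1 + 1 / ((n : ℝ) + 1) : ℝ)) : ℂ) ≠ 1
        intro hh
        have h3 : (1 + 1 / ((n : ℝ) + 1) : ℝ) = 1 := by exact_mod_cast hh
        have h4 : (0 : ℝ) < 1 / ((n : ℝ) + 1) := by positivity
        linarith
    exact ht.frequently (Frequently.of_forall fun n => hreal _ (by positivity))
  exact hA.eqOn_of_preconnected_of_frequently_eq hB hconn (by simp : (1 : ℂ) ∈ {r : ℂ | 0 < r.re})
    hfreq hr

/-- the Laplace transform of a power -/
theorem pw_key' (k : ℝ) (hk : 0 ≤ k) (s : ℂ) (hs : 0 < s.re) :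
    ∫ t in Ioi (0:ℝ), ((t ^ k : ℝ) : ℂ) * Complex.exp (-(s * t)) =
      (Real.Gamma (k + 1) : ℂ) * s ^ (-((k : ℂ) + 1)) := by
  have h := pw_key (k + 1) (by linarith) s hs
  rw [add_sub_cancel_right] at h
  rw [h]
  push_cast
  rfl

/-- one term of the Riesz mean -/
noncomputable def tm (l c k T : ℝ) : ℝ := if l ≤ T then c * (1 - l / T) ^ k else 0

lemma tm_meas (l c k : ℝ) : Measurable (tm l c k) := by
  unfold tm
  refine Measurable.ite measurableSet_Ici ?_ measurable_const
  fun_prop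

lemma tm_bd {l c k σ : ℝ} (hl : 0 < l) (hk : 0 ≤ k) (hσ : 0 < σ) (T : ℝ) :
    |tm l c k T| ≤ Real.exp (σ * T) * (|c| * Real.exp (-(σ * l))) := by
  unfold tm
  split_ifs with h
  · have hT : 0 < T := lt_of_lt_of_le hl h
    have h1 : 0 ≤ 1 - l / T := by
      rw [sub_nonneg, div_le_one hT]; exact h
    have h2 : 1 - l / T ≤ 1 := by
      have : 0 ≤ l / T := by positivity
      linarith
    have h3 : (1 - l / T) ^ k ≤ 1 := Real.rpow_le_one h1 h2 hk
    have h4 : 0 ≤ (1 - l / T) ^ k := Real.rpow_nonneg h1 _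
    rw [abs_mul, abs_of_nonneg h4]
    have h5 : 1 ≤ Real.exp (σ * T) * Real.exp (-(σ * l)) := by
      rw [← Real.exp_add]
      apply Real.one_le_exp
      nlinarith
    calc |c| * (1 - l / T) ^ k ≤ |c| * 1 := by gcongr
      _ ≤ |c| * (Real.exp (σ * T) * Real.exp (-(σ * l))) := by gcongr
      _ = _ := by ring
  · rw [abs_zero]; positivity

lemma tm_mul {l c k : ℝ} (hl : 0 < l) (T : ℝ) (hT : 0 < T) :
    T ^ k * tm l c k T = if l ≤ T then c * (T - l) ^ k else 0 := by
  unfold tm
  split_ifs with h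
  · have h1 : 0 ≤ 1 - l / T := by
      rw [sub_nonneg, div_le_one hT]; exact h
    have h2 : T - l = T * (1 - l / T) := by field_simp
    rw [h2, Real.mul_rpow hT.le h1]
    ring
  · rw [mul_zero]

lemma tm_int {l c k : ℝ} (hl : 0 < l) (hk : 0 ≤ k) (s : ℂ) (hs : 0 < s.re) :
    ∫ T in Ioi (0 : ℝ), Complex.exp (-(s * T)) * ((T ^ k * tm l c k T : ℝ) : ℂ) =
      Real.Gamma (k + 1) * s ^ (-((k : ℂ) + 1)) * ((c : ℂ) * Complex.exp (-(s * l))) := by
  have h1 : ∫ T in Ioi (0 : ℝ), Complex.exp (-(s * T)) * ((T ^ k * tm l c k T : ℝ) : ℂ) =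
      ∫ T : ℝ, (Ici l).indicator
        (fun T : ℝ => Complex.exp (-(s * T)) * ((c * (T - l) ^ k : ℝ) : ℂ)) T := by
    rw [← integral_indicator measurableSet_Ioi]
    congr 1
    funext T
    by_cases hT : T ∈ Ioi (0:ℝ)
    · rw [indicator_of_mem hT, tm_mul hl T hT]
      by_cases h : l ≤ T
      · rw [if_pos h, indicator_of_mem (mem_Ici.2 h)]
      · rw [if_neg h, indicator_of_notMem (fun h2 => h (mem_Ici.1 h2))]
        simp
    · rw [indicator_of_notMem hT, indicator_of_notMem]
      intro h2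
      exact hT (lt_of_lt_of_le hl h2)
  rw [h1, integral_indicator measurableSet_Ici, integral_Ici_eq_integral_Ioi,
    ← integral_indicator measurableSet_Ioi,
    ← integral_add_right_eq_self _ l]
  have h2 : ∀ T : ℝ, (Ioi l).indicator
      (fun T : ℝ => Complex.exp (-(s * T)) * ((c * (T - l) ^ k : ℝ) : ℂ)) (T + l) =
      (Ioi (0:ℝ)).indicator (fun T : ℝ => ((c : ℂ) * Complex.exp (-(s * l))) *
        (((T ^ k : ℝ) : ℂ) * Complex.exp (-(s * T)))) T := by
    intro T
    by_cases hT : T ∈ Ioi (0:ℝ)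
    · have hT2 : T + l ∈ Ioi l := by
        have : (0:ℝ) < T := hT
        rw [mem_Ioi]; linarith
      rw [indicator_of_mem hT, indicator_of_mem hT2]
      have e1 : Complex.exp (-(s * ((T + l : ℝ) : ℂ))) =
          Complex.exp (-(s * T)) * Complex.exp (-(s * l)) := by
        rw [← Complex.exp_add]
        congr 1
        push_cast
        ring
      rw [e1, add_sub_cancel_right]
      push_cast
      ring
    · have hT2 : T + l ∉ Ioi l := by
        intro h
        apply hT
        rw [mem_Ioi] at h ⊢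
        linarith
      rw [indicator_of_notMem hT, indicator_of_notMem hT2]
  simp_rw [h2]
  rw [integral_indicator measurableSet_Ioi, integral_const_mul, pw_key' k hk s hs]
  ring

end Lap

open Lap in
/-- the Laplace transform of the Riesz mean -/
theorem riesz_laplace {lam c : ℕ → ℝ} {δ σ k : ℝ} (hδ : 0 < δ) (hlam : ∀ n, δ ≤ lam n) (hσ : 0 < σ)
    (hsum : Summable fun n => |c n| * Real.exp (-(σ * lam n))) (hk : 0 ≤ k) :
    Measurable (Rm lam c k) ∧ (∀ T, T < δ → Rm lam c k T = 0) ∧
    (∀ T, |Rm lam c k T| ≤ Real.exp (σ * T) * ∑' n, |c n| * Real.exp (-(σ * lam n))) ∧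
    ∀ s : ℂ, σ < s.re →
      IntegrableOn (fun T : ℝ => T ^ k * Rm lam c k T * Real.exp (-(s.re * T))) (Ioi 0) ∧
      ∫ T in Ioi (0 : ℝ), Complex.exp (-(s * T)) * ((T ^ k * Rm lam c k T : ℝ) : ℂ) =
        Real.Gamma (k + 1) * s ^ (-((k : ℂ) + 1)) * ∑' n, (c n : ℂ) * Complex.exp (-(s * lam n)) := by
  have hl : ∀ n, 0 < lam n := fun n => lt_of_lt_of_le hδ (hlam n)
  have hRm : ∀ T, Rm lam c k T = ∑' n, tm (lam n) (c n) k T := fun T => rfl
  have hb : ∀ T n, |tm (lam n) (c n) k T| ≤
      Real.exp (σ * T) * (|c n| * Real.exp (-(σ * lam n))) := fun T n => tm_bd (hl n) hk hσ T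
  have hs1 : ∀ T, Summable fun n => Real.exp (σ * T) * (|c n| * Real.exp (-(σ * lam n))) :=
    fun T => hsum.mul_left _
  have hs2 : ∀ T, Summable fun n => tm (lam n) (c n) k T := fun T =>
    Summable.of_norm_bounded (hs1 T) (fun n => by rw [Real.norm_eq_abs]; exact hb T n)
  have hbd : ∀ T, |Rm lam c k T| ≤
      Real.exp (σ * T) * ∑' n, |c n| * Real.exp (-(σ * lam n)) := by
    intro T
    rw [hRm, ← tsum_mul_left]
    exact tsum_of_norm_bounded (hs1 T).hasSum (fun n => by rw [Real.norm_eq_abs]; exact hb T n)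
  have hmeas : Measurable (Rm lam c k) := by
    refine measurable_of_tendsto_metrizable
      (f := fun (N : ℕ) (T : ℝ) => ∑ n ∈ Finset.range N, tm (lam n) (c n) k T)
      (fun N => Finset.measurable_sum _ fun n _ => tm_meas _ _ _) ?_
    rw [tendsto_pi_nhds]
    intro T
    exact (hs2 T).hasSum.tendsto_sum_nat
  refine ⟨hmeas, ?_, hbd, ?_⟩
  · intro T hT
    rw [hRm]
    have : ∀ n, tm (lam n) (c n) k T = 0 := fun n => by
      unfold tm
      rw [if_neg (by linarith [hlam n])]
    simp [this]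
  · intro s hs
    have hs0 : 0 < s.re := hσ.trans hs
    set A : ℝ := ∑' n, |c n| * Real.exp (-(σ * lam n)) with hA
    have hτ : 0 < s.re - σ := sub_pos.2 hs
    have hI := pw_int k (by linarith) (s.re - σ) hτ
    constructor
    · refine Integrable.mono' (hI.const_mul A) ?_ ?_
      · apply Measurable.aestronglyMeasurable
        have h1 : Measurable fun T : ℝ => T ^ k := measurable_id.pow_const k
        have h2 : Measurable fun T : ℝ => Real.exp (-(s.re * T)) := by fun_prop
        exact (h1.mul hmeas).mul h2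
      · refine ae_restrict_of_forall_mem measurableSet_Ioi fun T hT => ?_
        have hT0 : (0:ℝ) < T := hT
        have h1 : 0 ≤ T ^ k := Real.rpow_nonneg hT0.le _
        rw [Real.norm_eq_abs, abs_mul, abs_mul, abs_of_nonneg h1, Real.abs_exp]
        have e : Real.exp (-(s.re - σ) * T) = Real.exp (σ * T) * Real.exp (-(s.re * T)) := by
          rw [← Real.exp_add]
          congr 1
          ring
        calc T ^ k * |Rm lam c k T| * Real.exp (-(s.re * T)) ≤
              T ^ k * (Real.exp (σ * T) * A) * Real.exp (-(s.re * T)) := by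
              gcongr
              exact hbd T
          _ = A * (T ^ k * Real.exp (-(s.re - σ) * T)) := by rw [e]; ring
    · set F : ℕ → ℝ → ℂ := fun n T =>
        Complex.exp (-(s * T)) * ((T ^ k * tm (lam n) (c n) k T : ℝ) : ℂ) with hF
      have hFm : ∀ n, AEStronglyMeasurable (F n) (volume.restrict (Ioi 0)) := by
        intro n
        apply Measurable.aestronglyMeasurable
        have h1 : Measurable fun T : ℝ => T ^ k := measurable_id.pow_const k
        have h2 : Measurable fun T : ℝ => Complex.exp (-(s * T)) := by fun_prop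
        exact h2.mul (Complex.measurable_ofReal.comp (h1.mul (tm_meas _ _ _)))
      have hFb : ∀ n, ∀ T ∈ Ioi (0:ℝ), ‖F n T‖ ≤ (|c n| * Real.exp (-(σ * lam n))) *
          (T ^ k * Real.exp (-(s.re - σ) * T)) := by
        intro n T hT
        have hT0 : (0:ℝ) < T := hT
        have h1 : 0 ≤ T ^ k := Real.rpow_nonneg hT0.le _
        have e0 : ‖Complex.exp (-(s * T))‖ = Real.exp (-(s.re * T)) := by
          rw [Complex.norm_exp]
          congr 1
          simp
        simp only [hF]
        rw [norm_mul, e0, Complex.norm_real, Real.norm_eq_abs, abs_mul, abs_of_nonneg h1]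
        have e : Real.exp (-(s.re - σ) * T) = Real.exp (σ * T) * Real.exp (-(s.re * T)) := by
          rw [← Real.exp_add]
          congr 1
          ring
        calc Real.exp (-(s.re * T)) * (T ^ k * |tm (lam n) (c n) k T|) ≤
              Real.exp (-(s.re * T)) * (T ^ k * (Real.exp (σ * T) *
                (|c n| * Real.exp (-(σ * lam n))))) := by
              gcongr
              exact hb T n
          _ = _ := by rw [e]; ring
      have hFi : ∀ n, Integrable (F n) (volume.restrict (Ioi 0)) := fun n =>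
        Integrable.mono' (hI.const_mul _) (hFm n)
          (ae_restrict_of_forall_mem measurableSet_Ioi fun T hT => hFb n T hT)
      have hFs : Summable fun n => ∫ T in Ioi (0:ℝ), ‖F n T‖ := by
        refine Summable.of_nonneg_of_le (fun n => integral_nonneg fun T => norm_nonneg _)
          (fun n => ?_) (hsum.mul_right (∫ T in Ioi (0:ℝ), T ^ k * Real.exp (-(s.re - σ) * T)))
        rw [← integral_const_mul]
        exact setIntegral_mono_on (hFi n).norm (hI.const_mul _) measurableSet_Ioi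
          (fun T hT => hFb n T hT)
      have h := hasSum_integral_of_summable_integral_norm hFi hFs
      have e1 : ∀ T, ∑' n, F n T =
          Complex.exp (-(s * T)) * ((T ^ k * Rm lam c k T : ℝ) : ℂ) := by
        intro T
        simp only [hF]
        rw [tsum_mul_left, ← Complex.ofReal_tsum, tsum_mul_left]
        rfl
      simp_rw [e1] at h
      rw [← h.tsum_eq, ← tsum_mul_left]
      refine tsum_congr fun n => ?_
      exact tm_int (hl n) hk s hs0

end Pool.Agent.TH942.RA
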