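import Pool.Agent.TH942.RZ.Rep

/-!
# Bounded error for Riesz means of large order
-/

set_option autoImplicit false

open MeasureTheory Filter Topology Set
open Pool.Agent.TH942.LS (Dat S)
open Pool.Agent.TH942.SL
open Pool.Agent.TH942.RZ (rzw)

namespace Pool.Agent.TH942.RA

namespace Means

open Complex Pool.Agent.TH942.RZ

lemma ne_one_add {s : ℂ} (hs : 0 < s.re) : 1 + s ≠ 0 := by
  intro h
  have := congrArg Complex.re h
  rw [Complex.add_re, Complex.one_re, Complex.zero_re] at this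
  linarith

lemma ne_zero_of {s : ℂ} (hs : 0 < s.re) : s ≠ 0 := by
  rintro rfl
  simp at hs

/-- real part of the logarithm of `s / (1 + s)` -/
lemma log_re_eq {s : ℂ} (hs : 0 < s.re) :
    (Complex.log (s / (1 + s))).re = Real.log ‖s‖ - Real.log ‖1 + s‖ := by
  rw [Complex.log_re, norm_div, Real.log_div (norm_ne_zero_iff.2 (ne_zero_of hs))
    (norm_ne_zero_iff.2 (ne_one_add hs))]

lemma one_le_norm {s : ℂ} (hs : 0 < s.re) : 1 ≤ ‖1 + s‖ := by
  refine le_trans ?_ (Complex.re_le_norm _)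
  rw [Complex.add_re, Complex.one_re]
  linarith

lemma norm_add_le' (s : ℂ) : ‖1 + s‖ ≤ 1 + ‖s‖ := by
  refine (norm_add_le _ _).trans ?_
  rw [norm_one]

/-- bound of the logarithm in a half plane -/
lemma log_bd {x : ℝ} (hx : 0 < x) {s : ℂ} (hs : x ≤ s.re) :
    ‖Complex.log (s / (1 + s))‖ ≤ Real.log ((1 + x) / x) + Real.pi := by
  have hs0 : 0 < s.re := hx.trans_le hs
  refine (Complex.norm_le_abs_re_add_abs_im _).trans (add_le_add ?_ ?_)
  · rw [log_re_eq hs0]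
    have hn : x ≤ ‖s‖ := hs.trans (Complex.re_le_norm s)
    have hn0 : 0 < ‖s‖ := hx.trans_le hn
    have h1 := norm_add_le' s
    have h2 : ‖s‖ ≤ ‖1 + s‖ := by
      have e1 : ‖s‖ ^ 2 ≤ ‖1 + s‖ ^ 2 := by
        rw [← Complex.normSq_eq_norm_sq, ← Complex.normSq_eq_norm_sq, Complex.normSq_apply,
          Complex.normSq_apply, Complex.add_re, Complex.add_im, Complex.one_re, Complex.one_im]
        nlinarith
      exact le_of_sq_le_sq e1 (norm_nonneg _)
    have h3 : 0 < ‖1 + s‖ := hn0.trans_le h2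
    have h4 : Real.log ‖s‖ ≤ Real.log ‖1 + s‖ := Real.log_le_log hn0 h2
    rw [abs_of_nonpos (by linarith), Real.log_div (by positivity) hx.ne']
    have h5 : Real.log ‖1 + s‖ + Real.log x ≤ Real.log (1 + x) + Real.log ‖s‖ := by
      rw [← Real.log_mul h3.ne' hx.ne', ← Real.log_mul (by positivity) hn0.ne']
      apply Real.log_le_log (by positivity)
      nlinarith
    linarith
  · rw [Complex.log_im]
    exact Complex.abs_arg_le_pi _

lemma one_le_re {z : ℂ} (hz : z.re = 1) : 1 ≤ ‖z‖ := by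
  rw [← hz]
  exact Complex.re_le_norm z

lemma div_re {z : ℂ} (hz : z.re = 1) (T : ℝ) : (z / T).re = 1 / T := by
  rw [Complex.div_ofReal_re, hz]

lemma norm_div' (z : ℂ) {T : ℝ} (hT : 0 < T) : ‖z / T‖ = ‖z‖ / T := by
  rw [norm_div, Complex.norm_real, Real.norm_eq_abs, abs_of_pos hT]

/-- the logarithm plus `log T` -/
lemma log_T {z : ℂ} (hz : z.re = 1) {T : ℝ} (hT : 1 ≤ T) :
    ‖Complex.log (z / T / (1 + z / T)) + Real.log T‖ ≤ 2 * ‖z‖ + Real.pi := by
  have hT0 : 0 < T := by linarith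
  have hz1 := one_le_re hz
  have hs : 0 < (z / T).re := by rw [div_re hz]; positivity
  refine (Complex.norm_le_abs_re_add_abs_im _).trans (add_le_add ?_ ?_)
  · rw [Complex.add_re, log_re_eq hs, Complex.ofReal_re, norm_div' z hT0,
      Real.log_div (by positivity) hT0.ne']
    have h1 : 0 ≤ Real.log ‖z‖ := Real.log_nonneg hz1
    have h2 : Real.log ‖z‖ ≤ ‖z‖ - 1 := Real.log_le_sub_one_of_pos (by positivity)
    have h3 : 0 ≤ Real.log ‖1 + z / T‖ := Real.log_nonneg (one_le_norm hs)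
    have h4 : Real.log ‖1 + z / T‖ ≤ ‖1 + z / T‖ - 1 :=
      Real.log_le_sub_one_of_pos (by linarith [one_le_norm hs])
    have h5 := norm_add_le' (z / T)
    rw [norm_div' z hT0] at h5
    have h6 : ‖z‖ / T ≤ ‖z‖ := div_le_self (norm_nonneg _) hT
    rw [abs_le]
    constructor <;> linarith
  · rw [Complex.add_im, Complex.ofReal_im, add_zero, Complex.log_im]
    exact Complex.abs_arg_le_pi _

variable {lam c : ℕ → ℝ} {δ σ : ℝ} {E : ℂ → ℂ} {r C κ k : ℝ}

/-- the bound needed for the representation -/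
lemma pre (hσ : 0 < σ) (hκ : 0 ≤ κ)
    (hEb : ∀ s : ℂ, 0 < s.re → ‖E s + r * Complex.log (s / (1 + s))‖ ≤ C * (‖s‖ / s.re) ^ κ)
    (hk : κ ≤ k / 2) (x : ℝ) (hx : 0 < x) :
    ∃ B : ℝ, 0 ≤ B ∧ ∀ s : ℂ, x ≤ s.re → s.re ≤ σ + 1 →
      ‖E s‖ ≤ B * (1 + |s.im|) ^ (k / 2) := by
  have hl : 0 ≤ Real.log ((1 + x) / x) := by
    apply Real.log_nonneg
    rw [le_div_iff₀ hx]
    linarith
  have hpi := Real.pi_pos
  refine ⟨|C| * ((σ + 1) / x) ^ κ + |r| * (Real.log ((1 + x) / x) + Real.pi), by positivity,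
    fun s hs hs2 => ?_⟩
  have hs0 : 0 < s.re := hx.trans_le hs
  have h1 := hEb s hs0
  have h2 := log_bd hx hs
  have h0 : 1 ≤ 1 + |s.im| := by linarith [abs_nonneg s.im]
  have h3 : E s = (E s + r * Complex.log (s / (1 + s))) - r * Complex.log (s / (1 + s)) := by ring
  have h4 : ‖(r : ℂ) * Complex.log (s / (1 + s))‖ ≤ |r| * (Real.log ((1 + x) / x) + Real.pi) := by
    rw [norm_mul, Complex.norm_real, Real.norm_eq_abs]
    exact mul_le_mul_of_nonneg_left h2 (abs_nonneg _)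
  have h5 : (‖s‖ / s.re) ^ κ ≤ ((σ + 1) / x) ^ κ * (1 + |s.im|) ^ (k / 2) := by
    have e1 : ‖s‖ ≤ (σ + 1) * (1 + |s.im|) := by
      have e2 := Complex.norm_le_abs_re_add_abs_im s
      rw [abs_of_pos hs0] at e2
      nlinarith [abs_nonneg s.im]
    have e3 : ‖s‖ / s.re ≤ (σ + 1) / x * (1 + |s.im|) := by
      rw [div_mul_eq_mul_div]
      exact div_le_div₀ (by positivity) e1 hx hs
    calc (‖s‖ / s.re) ^ κ ≤ ((σ + 1) / x * (1 + |s.im|)) ^ κ :=
          Real.rpow_le_rpow (by positivity) e3 hκ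
      _ = ((σ + 1) / x) ^ κ * (1 + |s.im|) ^ κ := Real.mul_rpow (by positivity) (by positivity)
      _ ≤ _ := mul_le_mul_of_nonneg_left (Real.rpow_le_rpow_of_exponent_le h0 hk) (by positivity)
  have h6 : 1 ≤ (1 + |s.im|) ^ (k / 2) := Real.one_le_rpow h0 (by linarith)
  have h7 : C * (‖s‖ / s.re) ^ κ ≤ |C| * (((σ + 1) / x) ^ κ * (1 + |s.im|) ^ (k / 2)) := by
    have e1 : 0 ≤ (‖s‖ / s.re) ^ κ := by positivity
    calc C * (‖s‖ / s.re) ^ κ ≤ |C| * (‖s‖ / s.re) ^ κ :=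
          mul_le_mul_of_nonneg_right (le_abs_self C) e1
      _ ≤ _ := mul_le_mul_of_nonneg_left h5 (abs_nonneg _)
  have h8 : 0 ≤ |r| * (Real.log ((1 + x) / x) + Real.pi) := by positivity
  rw [h3]
  refine (norm_sub_le _ _).trans ?_
  have h9 : |r| * (Real.log ((1 + x) / x) + Real.pi) ≤
      |r| * (Real.log ((1 + x) / x) + Real.pi) * (1 + |s.im|) ^ (k / 2) :=
    le_mul_of_one_le_right h8 h6
  calc _ ≤ |C| * (((σ + 1) / x) ^ κ * (1 + |s.im|) ^ (k / 2)) +
        |r| * (Real.log ((1 + x) / x) + Real.pi) * (1 + |s.im|) ^ (k / 2) :=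
        add_le_add (h1.trans h7) (h4.trans h9)
    _ = _ := by ring

/-- the uniform bound on the line -/
lemma unif (hκ : 0 ≤ κ)
    (hEb : ∀ s : ℂ, 0 < s.re → ‖E s + r * Complex.log (s / (1 + s))‖ ≤ C * (‖s‖ / s.re) ^ κ)
    {z : ℂ} (hz : z.re = 1) {T : ℝ} (hT : 1 ≤ T) :
    ‖E (z / T) - (r * Real.log T : ℝ)‖ ≤ (|C| + |r| * (2 + Real.pi)) * ‖z‖ ^ (κ + 1) := by
  have hT0 : 0 < T := by linarith
  have hz1 := one_le_re hz
  have hz0 : 0 < ‖z‖ := by linarith
  have hpi := Real.pi_pos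
  have hs : 0 < (z / T).re := by rw [div_re hz]; positivity
  have h1 := hEb (z / T) hs
  have e1 : ‖z / T‖ / (z / T).re = ‖z‖ := by
    rw [div_re hz, norm_div' z hT0]
    field_simp
  rw [e1] at h1
  have h2 := log_T hz hT
  have h3 : E (z / T) - ((r * Real.log T : ℝ) : ℂ) =
      (E (z / T) + r * Complex.log (z / T / (1 + z / T))) -
        r * (Complex.log (z / T / (1 + z / T)) + Real.log T) := by
    push_cast
    ring
  rw [h3]
  refine (norm_sub_le _ _).trans ?_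
  have h4 : ‖(r : ℂ) * (Complex.log (z / T / (1 + z / T)) + Real.log T)‖ ≤
      |r| * (2 * ‖z‖ + Real.pi) := by
    rw [norm_mul, Complex.norm_real, Real.norm_eq_abs]
    exact mul_le_mul_of_nonneg_left h2 (abs_nonneg _)
  have h5 : ‖z‖ ^ κ ≤ ‖z‖ ^ (κ + 1) := Real.rpow_le_rpow_of_exponent_le hz1 (by linarith)
  have h6 : ‖z‖ ≤ ‖z‖ ^ (κ + 1) := by
    have := Real.rpow_le_rpow_of_exponent_le hz1 (show 1 ≤ κ + 1 by linarith)
    rwa [Real.rpow_one] at this
  have h7 : C * ‖z‖ ^ κ ≤ |C| * ‖z‖ ^ (κ + 1) :=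
    (mul_le_mul_of_nonneg_right (le_abs_self C) (by positivity)).trans
      (mul_le_mul_of_nonneg_left h5 (abs_nonneg _))
  have h8 : 2 * ‖z‖ + Real.pi ≤ (2 + Real.pi) * ‖z‖ ^ (κ + 1) := by nlinarith
  have h9 : |r| * (2 * ‖z‖ + Real.pi) ≤ |r| * ((2 + Real.pi) * ‖z‖ ^ (κ + 1)) :=
    mul_le_mul_of_nonneg_left h8 (abs_nonneg _)
  calc _ ≤ |C| * ‖z‖ ^ (κ + 1) + |r| * ((2 + Real.pi) * ‖z‖ ^ (κ + 1)) :=
        add_le_add (h1.trans h7) (h4.trans h9)
    _ = _ := by ring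

end Means

open Means in
/-- bounded error for Riesz means of large order -/
theorem means_bounded {lam c : ℕ → ℝ} {δ σ : ℝ} (D : Dat lam c δ σ) {E : ℂ → ℂ} {r C κ k : ℝ}
    (hκ : 0 ≤ κ) (hE : ∀ s : ℂ, 0 < s.re → DifferentiableAt ℂ E s)
    (hEq : ∀ s : ℂ, σ < s.re → E s = DD lam c s)
    (hEb : ∀ s : ℂ, 0 < s.re → ‖E s + r * Complex.log (s / (1 + s))‖ ≤ C * (‖s‖ / s.re) ^ κ)
    (hk : 2 * κ + 3 ≤ k) :
    ∃ C' : ℝ, ∀ᶠ T : ℝ in atTop, |S lam c (rzw k) T - r * Real.log T| ≤ C' := by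
  have hσ := D.σ0
  have hk0 : 0 < k := by linarith
  have hG : 0 < Real.Gamma (k + 1) := Real.Gamma_pos_of_pos (by linarith)
  have hGc : ((Real.Gamma (k + 1) : ℝ) : ℂ) ≠ 0 := by exact_mod_cast hG.ne'
  set K : ℝ := |C| + |r| * (2 + Real.pi) with hK
  have hpi := Real.pi_pos
  have hK0 : 0 ≤ K := by positivity
  set B : ℝ := K * Real.exp 1 * (1 + 1 / 1) ^ (k - κ) with hB
  refine ⟨Real.Gamma (k + 1) * ((2 * Real.pi)⁻¹ * ∫ t : ℝ, B * (1 + |t|) ^ (-(k - κ))), ?_⟩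
  filter_upwards [eventually_ge_atTop 1] with T hT
  have hT0 : 0 < T := by linarith
  have hT1 : 1 / T ≤ σ + 1 := by
    have : 1 / T ≤ 1 := by rw [div_le_iff₀ hT0]; linarith
    linarith
  have hrep := RZ.rep D hk0 hE hEq (fun x hx => pre hσ hκ hEb (by linarith) x hx) hT0 hT1
  -- the kernel
  set g : ℂ → ℂ := fun z => Complex.exp z * RZ.ks k z with hg
  have hVg : V 1 g = ((1 / Real.Gamma (k + 1) : ℝ) : ℂ) := by
    have h1 := RZ.V_riesz (c := 1) hk0 one_pos 1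
    rw [max_eq_left zero_le_one, Real.one_rpow] at h1
    rw [← h1]
    unfold V
    congr 1
    refine integral_congr_ae (ae_of_all _ fun t => ?_)
    beta_reduce
    rw [hg]
    simp only
    unfold RZ.ks
    rw [Complex.ofReal_one, mul_one]
  set h : ℂ → ℂ := fun z => (E (z / T) - (r * Real.log T : ℝ)) * g z with hh
  have hgd : ∀ s : ℂ, s.re = 1 → DifferentiableAt ℂ g s := fun s hs =>
    DifferentiableAt.mul (by fun_prop) (RZ.ks_diff k (by rw [hs]; exact one_pos))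
  have hgn : ∀ s : ℂ, s.re = 1 → ‖g s‖ = Real.exp 1 * ‖s‖ ^ (-(k + 1)) := fun s hs => by
    rw [hg]
    simp only
    rw [norm_mul, Complex.norm_exp, hs, RZ.norm_ks]
  have hgi : Integrable fun t : ℝ => g (((1 : ℝ) : ℂ) + t * Complex.I) := by
    refine line_int (p := k + 1) (B := Real.exp 1 * (1 + 1 / 1) ^ (k + 1)) (by linarith)
      (fun s hs => (hgd s hs).continuousAt) fun s hs => ?_
    rw [hgn s hs, mul_assoc]
    exact mul_le_mul_of_nonneg_left (nb one_pos (by linarith) (one_le_re hs)) (Real.exp_pos 1).le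
  have hhd : ∀ s : ℂ, s.re = 1 → ContinuousAt h s := fun s hs => by
    refine ContinuousAt.mul (ContinuousAt.sub ?_ continuousAt_const) (hgd s hs).continuousAt
    have h1 : 0 < (s / T).re := by rw [div_re hs]; positivity
    exact ContinuousAt.comp (f := fun z : ℂ => z / T) (hE _ h1).continuousAt (by fun_prop)
  have hhn : ∀ s : ℂ, s.re = 1 → ‖h s‖ ≤ B * (1 + |s.im|) ^ (-(k - κ)) := fun s hs => by
    have h1 := unif hκ hEb hs hT
    have hs1 := one_le_re hs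
    have hs0 : 0 < ‖s‖ := by linarith
    have h2 : ‖s‖ ^ (κ + 1) * ‖s‖ ^ (-(k + 1)) = ‖s‖ ^ (-(k - κ)) := by
      rw [← Real.rpow_add hs0]
      congr 1
      ring
    have h3 : ‖s‖ ^ (-(k - κ)) ≤ (1 + 1 / 1) ^ (k - κ) * (1 + |s.im|) ^ (-(k - κ)) :=
      nb one_pos (by linarith) hs1
    calc ‖h s‖ = ‖E (s / T) - (r * Real.log T : ℝ)‖ * (Real.exp 1 * ‖s‖ ^ (-(k + 1))) := by
          rw [hh]
          simp only
          rw [norm_mul, hgn s hs]
      _ ≤ (K * ‖s‖ ^ (κ + 1)) * (Real.exp 1 * ‖s‖ ^ (-(k + 1))) :=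
          mul_le_mul_of_nonneg_right h1 (by positivity)
      _ = K * Real.exp 1 * (‖s‖ ^ (κ + 1) * ‖s‖ ^ (-(k + 1))) := by ring
      _ ≤ K * Real.exp 1 * ((1 + 1 / 1) ^ (k - κ) * (1 + |s.im|) ^ (-(k - κ))) := by
          rw [h2]
          exact mul_le_mul_of_nonneg_left h3 (by positivity)
      _ = _ := by ring
  have hhi : Integrable fun t : ℝ => h (((1 : ℝ) : ℂ) + t * Complex.I) :=
    line_int (p := k - κ) (B := B) (by linarith) hhd hhn
  have hV : V 1 (fun z => E (z / T) * (Complex.exp z * RZ.ks k z)) =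
      V 1 h + (r * Real.log T : ℝ) * V 1 g := by
    unfold V
    have e : (fun t : ℝ => (fun z : ℂ => E (z / T) * (Complex.exp z * RZ.ks k z))
        (((1 : ℝ) : ℂ) + t * Complex.I)) = fun t : ℝ => h (((1 : ℝ) : ℂ) + t * Complex.I) +
        ((r * Real.log T : ℝ) : ℂ) * g (((1 : ℝ) : ℂ) + t * Complex.I) := by
      funext t
      rw [hh, hg]
      simp only
      ring
    rw [e, integral_add hhi (hgi.const_mul _), integral_const_mul]
    ring
  rw [hV, hVg] at hrep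
  have h1 : ((S lam c (rzw k) T - r * Real.log T : ℝ) : ℂ) = Real.Gamma (k + 1) * V 1 h := by
    rw [Complex.ofReal_sub, hrep]
    push_cast
    field_simp
    ring
  have h2 : |S lam c (rzw k) T - r * Real.log T| = Real.Gamma (k + 1) * ‖V 1 h‖ := by
    rw [← Real.norm_eq_abs, ← Complex.norm_real, h1, norm_mul, Complex.norm_real, Real.norm_eq_abs,
      abs_of_pos hG]
  rw [h2]
  refine mul_le_mul_of_nonneg_left ?_ hG.le
  refine norm_V_le ((decay_int (by linarith)).const_mul B) fun t => ?_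
  have h3 := hhn (((1 : ℝ) : ℂ) + t * Complex.I) (by simp)
  have h4 : (((1 : ℝ) : ℂ) + t * Complex.I).im = t := by simp
  rw [h4] at h3
  exact h3

end Pool.Agent.TH942.RA
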