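import Pool.Agent.TH942.RA.Hk
import Pool.Agent.TH942.RA.Lap
import Pool.Agent.TH942.RA.Means
import Pool.Agent.TH942.RA.Growth
import Pool.Agent.TH942.OS.Gen
import Pool.Agent.TH942.ES.Ext
import Pool.Agent.TH270.SH.Law

/-!
# Riesz means of an Euler product and zero-free continuation with a polynomially bounded logarithm
-/

set_option autoImplicit false

open MeasureTheory Filter Topology Set Complex
open Pool.Agent.TH942.LS (Dat S)
open Pool.Agent.TH942.SL (DD)
open Pool.Agent.TH942.RZ (rzw HP HP_open HP_convex log_unique)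
open Pool.Agent.TH942.ES

namespace Pool.Agent.TH942.RA

variable {X : Type} {d : ℕ} {N : X → ℕ} {α : X → Fin d → ℂ} {Ψ : ℂ → ℂ}

/-- the Riesz mean of order `k` of the logarithms of the local factors -/
noncomputable def Rz (N : X → ℕ) (α : X → Fin d → ℂ) (k T : ℝ) : ℝ :=
  ∑' v, if Real.log (N v) ≤ T then cv N α v * (1 - Real.log (N v) / T) ^ k else 0

/-- the law -/
def RLaw (N : X → ℕ) (α : X → Fin d → ℂ) (k r : ℝ) : Prop :=
  ∃ C : ℝ, ∀ᶠ T : ℝ in atTop, |Rz N α k T - r * Real.log T| ≤ C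

/-- the Euler product continues to the half plane as the exponential of a function with
`G(s) = r log (s / (1 + s)) + O((|s| / Re s)^κ)` -/
def LogCont (N : X → ℕ) (α : X → Fin d → ℂ) (r : ℝ) : Prop :=
  ∃ G : ℂ → ℂ, (∀ s : ℂ, 0 < s.re → DifferentiableAt ℂ G s) ∧
    (∀ s : ℂ, 1 / 2 < s.re → exp (G s) = LE N α s) ∧
    ∃ C κ : ℝ, ∀ s : ℂ, 0 < s.re → ‖G s - r * log (s / (1 + s))‖ ≤ C * (‖s‖ / s.re) ^ κ

lemma one_le_q {s : ℂ} (hs : 0 < s.re) : 1 ≤ ‖s‖ / s.re := by
  rw [one_le_div hs]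
  exact Complex.re_le_norm s

lemma log_inv_eq {s : ℂ} (hs : 0 < s.re) : log ((1 + s) / s) = -log (s / (1 + s)) := by
  have h1 : (1 + s) / s = (s / (1 + s))⁻¹ := by rw [inv_div]
  rw [h1, Complex.log_inv]
  intro h
  have h2 : 0 < (s / (1 + s)).re := by
    have h3 : s / (1 + s) = 1 - (1 + s)⁻¹ := by
      have h4 : 1 + s ≠ 0 := Means.ne_one_add hs
      field_simp
      ring
    rw [h3, Complex.sub_re, Complex.one_re, Complex.inv_re, sub_pos, div_lt_one]
    · rw [Complex.normSq_apply, Complex.add_re, Complex.one_re, Complex.add_im, Complex.one_im]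
      nlinarith [mul_self_nonneg s.im]
    · exact Complex.normSq_pos.2 (Means.ne_one_add hs)
  rw [Complex.arg_eq_pi_iff] at h
  linarith [h.1]

/-- the correction function -/
theorem GG_bound (E : Sys N α) : ∃ A : ℝ, 0 ≤ A ∧ ∀ s : ℂ, 0 < s.re →
    ‖GG N α s‖ ≤ A * (‖s‖ / s.re) := by
  obtain ⟨C, σ₀, hσ₀, hC⟩ := E.log_sum
  set B : ℝ := 8 * d * ∑' v, (N v : ℝ) ^ (-(1 + σ₀ / 2)) with hB
  have hB0 : 0 ≤ B := by
    have : 0 ≤ ∑' v, (N v : ℝ) ^ (-(1 + σ₀ / 2)) := tsum_nonneg fun v => by positivity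
    positivity
  refine ⟨4 * d * |C| + B, by positivity, fun s hs => ?_⟩
  have hq := one_le_q hs
  by_cases hc : s.re < σ₀ / 2
  · obtain ⟨h1, h2⟩ := hC s.re hs (by linarith)
    have h3 : ‖GG N α s‖ ≤ 4 * d * ‖s‖ * ∑' v, Real.log (N v) * (N v : ℝ) ^ (-(1 + s.re)) :=
      tsum_of_norm_bounded (h1.hasSum.mul_left _) fun v => E.norm_gv₂ hs.le v
    have h5 : 4 * d * ‖s‖ * (∑' v, Real.log (N v) * (N v : ℝ) ^ (-(1 + s.re))) ≤
        4 * d * |C| * (‖s‖ / s.re) := by
      calc _ = 4 * d * (‖s‖ / s.re) * (s.re * ∑' v, Real.log (N v) * (N v : ℝ) ^ (-(1 + s.re))) := by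
            field_simp
        _ ≤ 4 * d * (‖s‖ / s.re) * |C| := by
            have := h2.trans (le_abs_self C)
            gcongr
        _ = _ := by ring
    have h6 : 0 ≤ B * (‖s‖ / s.re) := by positivity
    linarith
  · push Not at hc
    have h3 : ‖GG N α s‖ ≤ B :=
      tsum_of_norm_bounded ((E.sum (1 + σ₀ / 2) (by linarith)).hasSum.mul_left _) fun v =>
        E.norm_gv₁ (by linarith) hc v
    have h4 : B * 1 ≤ B * (‖s‖ / s.re) := mul_le_mul_of_nonneg_left hq hB0
    have h5 : 0 ≤ 4 * d * |C| * (‖s‖ / s.re) := by positivity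
    linarith

lemma Rz_eq {e : X → ℕ} (he : Function.Injective e) (k T : ℝ) :
    Rz N α k T = Rm (lamN N e) (cN N α e) k T := by
  unfold Rz Rm
  exact (tsum_cN he (fun c l => if l ≤ T then c * (1 - l / T) ^ k else 0) (fun l => by simp)).symm

lemma S_eq {lam c : ℕ → ℝ} {k T : ℝ} (hk : 0 < k) (hT : 0 < T) :
    S lam c (rzw k) T = Rm lam c k T := by
  unfold S Rm rzw
  congr 1
  funext n
  by_cases h : lam n ≤ T
  · rw [if_pos h, max_eq_left]
    rw [sub_nonneg, div_le_one hT]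
    exact h
  · rw [if_neg h, max_eq_right, Real.zero_rpow hk.ne', mul_zero]
    push Not at h
    rw [sub_nonpos, one_le_div hT]
    exact h.le

lemma cint {g : ℝ → ℝ} (hg : Measurable g) {k : ℝ} {s : ℂ}
    (h : IntegrableOn (fun T : ℝ => T ^ k * g T * Real.exp (-(s.re * T))) (Ioi 0)) :
    IntegrableOn (fun T : ℝ => exp (-(s * T)) * ((T ^ k * g T : ℝ) : ℂ)) (Ioi 0) := by
  refine Integrable.mono h ?_ ?_
  · have h1 : Measurable fun T : ℝ => T ^ k * g T := (measurable_id.pow_const k).mul hg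
    have h2 : Continuous fun T : ℝ => exp (-(s * T)) := by fun_prop
    exact (h2.measurable.mul (Complex.measurable_ofReal.comp h1)).aestronglyMeasurable
  · refine ae_of_all _ fun T => le_of_eq ?_
    rw [norm_mul, norm_mul, Complex.norm_exp, Complex.norm_real, Real.norm_eq_abs (Real.exp _),
      abs_of_pos (Real.exp_pos _), mul_comm]
    congr 2
    rw [Complex.neg_re, Complex.re_mul_ofReal]

/-- the Laplace integral of a bounded function times a power -/
lemma pow_int {u : ℝ → ℝ} (hu : Measurable u) {k C : ℝ} (hk : 0 ≤ k)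
    (hC : ∀ T, 0 < T → |u T| ≤ C) {x : ℝ} (hx : 0 < x) :
    IntegrableOn (fun T : ℝ => T ^ k * u T * Real.exp (-(x * T))) (Ioi 0) ∧
      ∀ s : ℂ, s.re = x → ‖∫ T in Ioi (0 : ℝ), exp (-(s * T)) * ((T ^ k * u T : ℝ) : ℂ)‖ ≤
        C * (Real.Gamma (k + 1) * (1 / x) ^ (k + 1)) := by
  have h0 : IntegrableOn (fun T : ℝ => T ^ k * Real.exp (-(x * T))) (Ioi 0) := by
    have h2 := (integrableOn_rpow_mul_exp_neg_mul_rpow (s := k) (p := 1) (b := x) (by linarith)
      one_pos hx)
    refine h2.congr_fun (fun T hT => ?_) measurableSet_Ioi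
    simp only [Real.rpow_one, neg_mul]
  have hval : ∫ T in Ioi (0 : ℝ), T ^ k * Real.exp (-(x * T)) =
      Real.Gamma (k + 1) * (1 / x) ^ (k + 1) := by
    have h1 := Real.integral_rpow_mul_exp_neg_mul_Ioi (a := k + 1) (r := x) (by linarith) hx
    rw [show k + 1 - 1 = k by ring] at h1
    rw [h1, mul_comm]
  have hm : Measurable fun T : ℝ => T ^ k * u T * Real.exp (-(x * T)) := by
    have h1 : Measurable fun T : ℝ => T ^ k * u T := (measurable_id.pow_const k).mul hu
    exact h1.mul (by fun_prop)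
  refine ⟨?_, fun s hs => ?_⟩
  · refine Integrable.mono' (h0.const_mul C) hm.aestronglyMeasurable ?_
    rw [ae_restrict_iff' measurableSet_Ioi]
    refine ae_of_all _ fun T hT => ?_
    have hT0 : 0 < T := hT
    have h2 : 0 ≤ T ^ k := Real.rpow_nonneg hT0.le k
    rw [norm_mul, norm_mul, Real.norm_eq_abs, Real.norm_eq_abs, Real.norm_eq_abs, abs_of_nonneg h2,
      abs_of_pos (Real.exp_pos _)]
    have h3 := mul_le_mul_of_nonneg_left (hC T hT0) h2
    calc _ ≤ T ^ k * C * Real.exp (-(x * T)) := mul_le_mul_of_nonneg_right h3 (Real.exp_pos _).le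
      _ = _ := by ring
  · rw [← hval, ← integral_const_mul]
    refine norm_integral_le_of_norm_le (h0.const_mul C) ?_
    rw [ae_restrict_iff' measurableSet_Ioi]
    refine ae_of_all _ fun T hT => ?_
    have hT0 : 0 < T := hT
    have h2 : 0 ≤ T ^ k := Real.rpow_nonneg hT0.le k
    rw [norm_mul, Complex.norm_exp, Complex.norm_real, norm_mul, Real.norm_eq_abs,
      Real.norm_eq_abs, abs_of_nonneg h2, Complex.neg_re, Complex.re_mul_ofReal, hs]
    have h3 := mul_le_mul_of_nonneg_left (hC T hT0) h2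
    calc _ ≤ Real.exp (-(x * T)) * (T ^ k * C) := mul_le_mul_of_nonneg_left h3 (Real.exp_pos _).le
      _ = _ := by ring

/-- **a law for one order implies the continuation** -/
theorem logCont_of_law (E : Sys N α) {k r : ℝ} (hk : 0 ≤ k) (h : RLaw N α k r) : LogCont N α r := by
  have := E.cnt
  obtain ⟨e, he⟩ := Countable.exists_injective_nat X
  set lam := lamN N e with hlam
  set c := cN N α e with hc
  have D : Dat lam c (Real.log 2) 1 := E.dat he
  obtain ⟨C, hC⟩ := h
  obtain ⟨T₀, hT₀⟩ := hC.exists_forall_of_atTop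
  obtain ⟨hm1, -, hb1, -⟩ := riesz_laplace D.δ0 D.lam_ge D.σ0 D.sum hk
  obtain ⟨hm2, ⟨Ch, hh1, hh2⟩, hh3⟩ := hk_spec hk
  have hCh : 0 ≤ Ch := (abs_nonneg _).trans (hh1 1 one_pos le_rfl)
  set Q : ℝ := ∑' n, |c n| * Real.exp (-(1 * lam n)) with hQ
  have hQ0 : 0 ≤ Q := tsum_nonneg fun n => by positivity
  set T₁ : ℝ := max T₀ 1 with hT₁
  have hT11 : 1 ≤ T₁ := le_max_right _ _
  have hlT : 0 ≤ Real.log T₁ := Real.log_nonneg hT11
  set u : ℝ → ℝ := fun T => Rm lam c k T - r * RA.hk k T with hu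
  have hum : Measurable u := hm1.sub (hm2.const_mul r)
  set C' : ℝ := |C| + |r| * Ch + (Real.exp (1 * T₁) * Q + |r| * (Ch + Real.log T₁)) with hC'
  have hC'0 : 0 ≤ C' := by positivity
  have hub : ∀ T, 0 < T → |u T| ≤ C' := by
    intro T hT
    rcases le_or_gt T₁ T with h1 | h1
    · have e1 := hT₀ T ((le_max_left _ _).trans h1)
      rw [Rz_eq he] at e1
      have e2 := hh2 T (hT11.trans h1)
      have e3 : u T = (Rm lam c k T - r * Real.log T) - r * (RA.hk k T - Real.log T) := by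
        rw [hu]; ring
      rw [e3]
      refine (abs_sub _ _).trans ?_
      rw [abs_mul]
      have e4 : |r| * |RA.hk k T - Real.log T| ≤ |r| * Ch :=
        mul_le_mul_of_nonneg_left e2 (abs_nonneg _)
      have e5 := e1.trans (le_abs_self C)
      have e6 : 0 ≤ Real.exp (1 * T₁) * Q + |r| * (Ch + Real.log T₁) := by positivity
      rw [hC']
      linarith
    · have e1 := hb1 T
      have e2 : |RA.hk k T| ≤ Ch + Real.log T₁ := by
        rcases le_or_gt T 1 with h2 | h2
        · linarith [hh1 T hT h2]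
        · have e3 := hh2 T h2.le
          have e4 : |Real.log T| ≤ Real.log T₁ := by
            rw [abs_of_nonneg (Real.log_nonneg h2.le)]
            exact Real.log_le_log hT h1.le
          have e5 := abs_add_le (RA.hk k T - Real.log T) (Real.log T)
          rw [sub_add_cancel] at e5
          linarith
      rw [hu]
      simp only
      refine (abs_sub _ _).trans ?_
      rw [abs_mul]
      have e4 : |r| * |RA.hk k T| ≤ |r| * (Ch + Real.log T₁) :=
        mul_le_mul_of_nonneg_left e2 (abs_nonneg _)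
      have e5 : Real.exp (1 * T) * Q ≤ Real.exp (1 * T₁) * Q := by gcongr
      have e6 : 0 ≤ |C| + |r| * Ch := by positivity
      rw [hC']
      linarith
  set H : ℂ → ℂ := fun s => ∫ T in Ioi (0 : ℝ), exp (-(s * T)) * ((T ^ k * u T : ℝ) : ℂ) with hH
  have hG0 : 0 < Real.Gamma (k + 1) := Real.Gamma_pos_of_pos (by linarith)
  have hGc : ((Real.Gamma (k + 1) : ℝ) : ℂ) ≠ 0 := by exact_mod_cast hG0.ne'
  have hHd : ∀ s : ℂ, 0 < s.re → DifferentiableAt ℂ H s := by
    intro s hs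
    refine Pool.Agent.TH942.OS.lap_diff (f := fun T => T ^ k * u T) (α := 0) ?_ (fun x hx => ?_) hs
    · exact ((measurable_id.pow_const k).mul hum).aestronglyMeasurable
    · exact (pow_int hum hk hub hx).1
  have hHb : ∀ s : ℂ, 0 < s.re → ‖H s‖ ≤ C' * (Real.Gamma (k + 1) * (1 / s.re) ^ (k + 1)) :=
    fun s hs => (pow_int hum hk hub hs).2 s rfl
  set En : ℂ → ℂ := fun s => s ^ ((k : ℂ) + 1) / Real.Gamma (k + 1) * H s +
    r * log ((1 + s) / s) with hEn
  have hne : ∀ s : ℂ, 0 < s.re → s ≠ 0 := fun s hs => Means.ne_zero_of hs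
  -- the value to the right of `1/2`
  have hEeq : ∀ s : ℂ, 1 / 2 < s.re → En s = DE N α s := by
    intro s hs
    have hs0 : 0 < s.re := by linarith
    obtain ⟨σ, hσ1, hσ2⟩ := exists_between hs
    have D' := E.dat' he hσ1
    obtain ⟨-, -, -, hl⟩ := riesz_laplace D'.δ0 D'.lam_ge D'.σ0 D'.sum hk
    obtain ⟨i1, v1⟩ := hl s hσ2
    obtain ⟨i2, v2⟩ := hh3 s hs0
    have j1 := cint hm1 i1
    have j2 := cint hm2 i2
    have e1 : H s = (∫ T in Ioi (0 : ℝ), exp (-(s * T)) * ((T ^ k * Rm lam c k T : ℝ) : ℂ)) -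
        r * ∫ T in Ioi (0 : ℝ), exp (-(s * T)) * ((T ^ k * RA.hk k T : ℝ) : ℂ) := by
      rw [← integral_const_mul, ← integral_sub j1 (j2.const_mul _)]
      refine setIntegral_congr_fun measurableSet_Ioi fun T _ => ?_
      simp only [hu]
      push_cast
      ring
    have e2 : (∑' n, (c n : ℂ) * exp (-(s * lam n))) = DE N α s := Sys.DD_eq he s
    have e3 : s ^ ((k : ℂ) + 1) * s ^ (-((k : ℂ) + 1)) = 1 := by
      rw [Complex.cpow_neg, mul_inv_cancel₀]
      rw [Complex.cpow_ne_zero_iff]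
      exact Or.inl (hne s hs0)
    rw [v1, v2, e2] at e1
    rw [hEn]
    simp only
    rw [e1]
    have e4 : s ^ ((k : ℂ) + 1) / (Real.Gamma (k + 1) : ℂ) *
        ((Real.Gamma (k + 1) : ℂ) * s ^ (-((k : ℂ) + 1)) * DE N α s -
          r * ((Real.Gamma (k + 1) : ℂ) * s ^ (-((k : ℂ) + 1)) * log ((1 + s) / s))) =
        (s ^ ((k : ℂ) + 1) * s ^ (-((k : ℂ) + 1))) * (DE N α s - r * log ((1 + s) / s)) := by
      field_simp
    rw [e4, e3]
    ring
  have hlogd : ∀ s : ℂ, 0 < s.re → DifferentiableAt ℂ (fun s => log ((1 + s) / s)) s := by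
    intro s hs
    have h1 : (1 + s) / s ∈ slitPlane := by
      left
      have h3 : (1 + s) / s = 1 + s⁻¹ := by
        have h4 := hne s hs
        field_simp
        ring
      rw [h3, Complex.add_re, Complex.one_re, Complex.inv_re]
      have : 0 < s.re / normSq s := div_pos hs (Complex.normSq_pos.2 (hne s hs))
      linarith
    refine DifferentiableAt.clog ?_ h1
    exact ((differentiableAt_const _).add differentiableAt_id).div differentiableAt_id (hne s hs)
  have hEd : ∀ s : ℂ, 0 < s.re → DifferentiableAt ℂ En s := by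
    intro s hs
    have h1 : DifferentiableAt ℂ (fun s : ℂ => s ^ ((k : ℂ) + 1)) s :=
      differentiableAt_id.cpow_const (Or.inl hs)
    exact ((h1.div_const _).mul (hHd s hs)).add ((hlogd s hs).const_mul _)
  obtain ⟨A, hA, hAA⟩ := GG_bound E
  refine ⟨fun s => GG N α s - En s, fun s hs => (E.GG_diff hs).sub (hEd s hs), fun s hs => ?_,
    A + C', k + 1, fun s hs => ?_⟩
  · simp only
    rw [hEeq s hs, E.LE_eq hs]
  · have hq := one_le_q hs
    have e1 : ‖s ^ ((k : ℂ) + 1) / Real.Gamma (k + 1) * H s‖ ≤ C' * (‖s‖ / s.re) ^ (k + 1) := by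
      rw [norm_mul, norm_div, Complex.norm_real, Real.norm_eq_abs, abs_of_pos hG0]
      have h2 : ‖s ^ ((k : ℂ) + 1)‖ = ‖s‖ ^ (k + 1) := by
        have h3 : ((k : ℂ) + 1) = ((k + 1 : ℝ) : ℂ) := by push_cast; rfl
        rw [h3, Complex.norm_cpow_real]
      rw [h2, Real.div_rpow (norm_nonneg _) hs.le]
      have h4 := hHb s hs
      have h5 : 0 ≤ ‖s‖ ^ (k + 1) := by positivity
      calc ‖s‖ ^ (k + 1) / Real.Gamma (k + 1) * ‖H s‖ ≤
            ‖s‖ ^ (k + 1) / Real.Gamma (k + 1) *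
              (C' * (Real.Gamma (k + 1) * (1 / s.re) ^ (k + 1))) := by gcongr
        _ = C' * (‖s‖ ^ (k + 1) / s.re ^ (k + 1)) := by
            rw [Real.div_rpow zero_le_one hs.le, Real.one_rpow]
            field_simp
    have e2 : GG N α s - En s - r * log (s / (1 + s)) =
        GG N α s - s ^ ((k : ℂ) + 1) / Real.Gamma (k + 1) * H s := by
      rw [hEn]
      simp only
      rw [log_inv_eq hs]
      ring
    rw [e2]
    refine (norm_sub_le _ _).trans ?_
    have e3 := hAA s hs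
    have e4 : ‖s‖ / s.re ≤ (‖s‖ / s.re) ^ (k + 1) := by
      calc ‖s‖ / s.re = (‖s‖ / s.re) ^ (1 : ℝ) := (Real.rpow_one _).symm
        _ ≤ _ := Real.rpow_le_rpow_of_exponent_le hq (by linarith)
    have e5 : A * (‖s‖ / s.re) ≤ A * (‖s‖ / s.re) ^ (k + 1) := mul_le_mul_of_nonneg_left e4 hA
    linarith

/-- **the continuation implies the laws of large order** -/
theorem law_of_logCont (E : Sys N α) {r : ℝ} (h : LogCont N α r) :
    ∃ k₀ : ℝ, 0 ≤ k₀ ∧ ∀ k : ℝ, k₀ ≤ k → RLaw N α k r := by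
  have := E.cnt
  obtain ⟨e, he⟩ := Countable.exists_injective_nat X
  obtain ⟨G, g1, g2, C, κ, g3⟩ := h
  have D : Dat (lamN N e) (cN N α e) (Real.log 2) 1 := E.dat he
  obtain ⟨A, hA, hAA⟩ := GG_bound E
  set κ' : ℝ := max κ 1 with hκ'
  have hκ1 : 1 ≤ κ' := le_max_right _ _
  set En : ℂ → ℂ := fun s => GG N α s - G s with hEn
  have hEd : ∀ s : ℂ, 0 < s.re → DifferentiableAt ℂ En s := fun s hs =>
    (E.GG_diff hs).sub (g1 s hs)
  set n₀ : ℂ := En 1 - DE N α 1 with hn₀
  have hEeq : ∀ s : ℂ, 1 / 2 < s.re → En s - n₀ = DE N α s := by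
    intro s hs
    have h1 := log_unique (U := HP (1 / 2)) (HP_convex _) (f := En) (g := DE N α)
      (f' := fun s => deriv En s) (g' := fun s => deriv (DE N α) s)
      (fun z hz => (hEd z (by have : 1 / 2 < z.re := hz; linarith)).hasDerivAt)
      (fun z hz => (E.DE_diff hz).hasDerivAt)
      (fun z hz => by
        have e1 := g2 z hz
        rw [E.LE_eq hz] at e1
        rw [hEn]
        simp only
        rw [Complex.exp_sub, e1, Complex.exp_sub]
        have := Complex.exp_ne_zero (GG N α z)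
        have := Complex.exp_ne_zero (DE N α z)
        field_simp) (HP_open _) (z := s) (w := 1) hs
      (by show (1 / 2 : ℝ) < (1 : ℂ).re; rw [Complex.one_re]; norm_num)
    rw [hn₀]
    linear_combination h1
  refine ⟨2 * κ' + 3, by linarith, fun k hk => ?_⟩
  have hk0 : 0 < k := by linarith
  obtain ⟨C', hC'⟩ := means_bounded D (E := fun s => En s - n₀) (r := r) (κ := κ')
    (C := A + |C| + ‖n₀‖) (k := k) (by linarith) (fun s hs => (hEd s hs).sub_const _)
    (fun s hs => by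
      rw [hEeq s (by linarith), Sys.DD_eq he]
      rfl)
    (fun s hs => by
      have hq := one_le_q hs
      have e1 : En s - n₀ + r * log (s / (1 + s)) =
          GG N α s - (G s - r * log (s / (1 + s))) - n₀ := by
        rw [hEn]; ring
      rw [e1]
      refine (norm_sub_le _ _).trans ?_
      have e2 := norm_sub_le (GG N α s) (G s - r * log (s / (1 + s)))
      have e3 := hAA s hs
      have e4 := g3 s hs
      have e5 : ‖s‖ / s.re ≤ (‖s‖ / s.re) ^ κ' := by
        calc ‖s‖ / s.re = (‖s‖ / s.re) ^ (1 : ℝ) := (Real.rpow_one _).symm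
          _ ≤ _ := Real.rpow_le_rpow_of_exponent_le hq hκ1
      have e6 : (‖s‖ / s.re) ^ κ ≤ (‖s‖ / s.re) ^ κ' :=
        Real.rpow_le_rpow_of_exponent_le hq (le_max_left _ _)
      have e7 : 1 ≤ (‖s‖ / s.re) ^ κ' := Real.one_le_rpow hq (by linarith)
      have e8 : C * (‖s‖ / s.re) ^ κ ≤ |C| * (‖s‖ / s.re) ^ κ' := by
        have : 0 ≤ (‖s‖ / s.re) ^ κ := by positivity
        calc _ ≤ |C| * (‖s‖ / s.re) ^ κ := mul_le_mul_of_nonneg_right (le_abs_self C) this
          _ ≤ _ := mul_le_mul_of_nonneg_left e6 (abs_nonneg _)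
      have e9 : A * (‖s‖ / s.re) ≤ A * (‖s‖ / s.re) ^ κ' := mul_le_mul_of_nonneg_left e5 hA
      have e10 : ‖n₀‖ * 1 ≤ ‖n₀‖ * (‖s‖ / s.re) ^ κ' :=
        mul_le_mul_of_nonneg_left e7 (norm_nonneg _)
      linarith)
    (by linarith)
  refine ⟨C', ?_⟩
  filter_upwards [hC', eventually_gt_atTop 0] with T h1 h2
  rw [S_eq hk0 h2, ← Rz_eq he] at h1
  exact h1

/-- **Riesz means and zero-free continuation** -/
theorem law_tfae (E : Sys N α) (r : ℝ) : List.TFAE [LogCont N α r,
    ∃ k : ℝ, 0 ≤ k ∧ RLaw N α k r,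
    ∃ k₀ : ℝ, 0 ≤ k₀ ∧ ∀ k : ℝ, k₀ ≤ k → RLaw N α k r] := by
  tfae_have 1 → 3 := fun h => law_of_logCont E h
  tfae_have 3 → 2 := by
    rintro ⟨k₀, h0, h1⟩
    exact ⟨k₀, h0, h1 k₀ le_rfl⟩
  tfae_have 2 → 1 := by
    rintro ⟨k, hk, h⟩
    exact logCont_of_law E hk h
  tfae_finish

end Pool.Agent.TH942.RA
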