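import Pool.Agent.TH942.RA.DatT
import Pool.Agent.TH942.RA.Comp

/-!
# Riesz means of an Euler product with a pole, and continuation
-/

set_option autoImplicit false

open MeasureTheory Filter Topology Set Complex
open Pool.Agent.TH942.LS (Dat S)
open Pool.Agent.TH942.SL (DD dd_deriv)
open Pool.Agent.TH942.RZ (rzw HP HP_open HP_convex log_unique)
open Pool.Agent.TH942.ES

namespace Pool.Agent.TH942.RA

variable {X : Type} {d : ℕ} {N : X → ℕ} {α : X → Fin d → ℂ}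

/-- two sequences put together -/
def mix (a b : ℕ → ℝ) (n : ℕ) : ℝ := if Even n then a (n / 2) else b (n / 2)

lemma mix_even (a b : ℕ → ℝ) (n : ℕ) : mix a b (2 * n) = a n := by
  unfold mix
  rw [if_pos (even_two_mul n)]
  congr 1
  omega

lemma mix_odd (a b : ℕ → ℝ) (n : ℕ) : mix a b (2 * n + 1) = b n := by
  unfold mix
  rw [if_neg (by
    rw [Nat.not_even_iff_odd]
    exact ⟨n, rfl⟩)]
  congr 1
  omega

/-- the sum over two sequences put together -/
lemma mix_summable {l₁ l₂ c₁ c₂ : ℕ → ℝ} {E' : Type} [NormedAddCommGroup E'] [CompleteSpace E']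
    {F : ℝ → ℝ → E'} (h1 : Summable fun n => F (c₁ n) (l₁ n)) (h2 : Summable fun n => F (c₂ n) (l₂ n)) :
    Summable (fun n => F (mix c₁ c₂ n) (mix l₁ l₂ n)) ∧
      ∑' n, F (mix c₁ c₂ n) (mix l₁ l₂ n) = (∑' n, F (c₁ n) (l₁ n)) + ∑' n, F (c₂ n) (l₂ n) := by
  have h3 : HasSum (fun k => F (mix c₁ c₂ (2 * k)) (mix l₁ l₂ (2 * k))) (∑' n, F (c₁ n) (l₁ n)) := by
    simp only [mix_even]
    exact h1.hasSum
  have h4 : HasSum (fun k => F (mix c₁ c₂ (2 * k + 1)) (mix l₁ l₂ (2 * k + 1)))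
      (∑' n, F (c₂ n) (l₂ n)) := by
    simp only [mix_odd]
    exact h2.hasSum
  have h5 := HasSum.even_add_odd (f := fun n => F (mix c₁ c₂ n) (mix l₁ l₂ n)) h3 h4
  exact ⟨h5.summable, h5.tsum_eq⟩

theorem mix_dat {l₁ l₂ c₁ c₂ : ℕ → ℝ} {δ σ : ℝ} (D₁ : Dat l₁ c₁ δ σ) (D₂ : Dat l₂ c₂ δ σ) :
    Dat (mix l₁ l₂) (mix c₁ c₂) δ σ where
  δ0 := D₁.δ0
  σ0 := D₁.σ0
  lam_ge := fun n => by
    unfold mix
    split_ifs
    · exact D₁.lam_ge _
    · exact D₂.lam_ge _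
  sum := (mix_summable (F := fun c l => |c| * Real.exp (-(σ * l))) D₁.sum D₂.sum).1

theorem mix_Rm {l₁ l₂ c₁ c₂ : ℕ → ℝ} {δ σ k : ℝ} (D₁ : Dat l₁ c₁ δ σ) (D₂ : Dat l₂ c₂ δ σ)
    (hk : 0 ≤ k) (T : ℝ) :
    Rm (mix l₁ l₂) (mix c₁ c₂) k T = Rm l₁ c₁ k T + Rm l₂ c₂ k T := by
  have h : ∀ {l c : ℕ → ℝ}, Dat l c δ σ → Summable fun n => Lap.tm (l n) (c n) k T := by
    intro l c D
    refine Summable.of_norm_bounded (D.sum.mul_left (Real.exp (σ * T))) fun n => ?_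
    rw [Real.norm_eq_abs]
    exact Lap.tm_bd (D.δ0.trans_le (D.lam_ge n)) hk D.σ0 T
  exact (mix_summable (F := fun c l => Lap.tm l c k T) (h D₁) (h D₂)).2

theorem dat_csum {l c : ℕ → ℝ} {δ σ : ℝ} (D : Dat l c δ σ) {s : ℂ} (hs : σ ≤ s.re) :
    Summable fun n => (c n : ℂ) * exp (-(s * l n)) := by
  refine Summable.of_norm_bounded D.sum fun n => ?_
  rw [norm_mul, Complex.norm_real, Real.norm_eq_abs, Complex.norm_exp]
  have h1 : (-(s * (l n : ℂ))).re = -(s.re * l n) := by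
    rw [Complex.neg_re, Complex.re_mul_ofReal]
  rw [h1]
  have h2 := D.δ0.trans_le (D.lam_ge n)
  gcongr

theorem mix_DD {l₁ l₂ c₁ c₂ : ℕ → ℝ} {δ σ : ℝ} (D₁ : Dat l₁ c₁ δ σ) (D₂ : Dat l₂ c₂ δ σ)
    {s : ℂ} (hs : σ ≤ s.re) :
    DD (mix l₁ l₂) (mix c₁ c₂) s = DD l₁ c₁ s + DD l₂ c₂ s :=
  (mix_summable (F := fun c l => (c : ℂ) * exp (-(s * l))) (dat_csum D₁ hs) (dat_csum D₂ hs)).2

/-- the data of the integers, times `a` -/
theorem dat_I (a : ℝ) {σ : ℝ} (hσ : 1 / 2 < σ) :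
    Dat lamI (fun n => a * cI n) (Real.log 2) σ where
  δ0 := Real.log_pos (by norm_num)
  σ0 := by linarith
  lam_ge := fun n => by
    unfold lamI
    refine Real.log_le_log (by norm_num) ?_
    have : (0 : ℝ) ≤ n := Nat.cast_nonneg n
    linarith
  sum := by
    refine ((comp_summable hσ).mul_left |a|).congr fun n => ?_
    rw [abs_mul]
    ring

theorem Rm_mul (l c : ℕ → ℝ) (a k T : ℝ) : Rm l (fun n => a * c n) k T = a * Rm l c k T := by
  unfold Rm
  rw [← tsum_mul_left]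
  refine tsum_congr fun n => ?_
  split_ifs
  · ring
  · rw [mul_zero]

theorem DD_mul (l c : ℕ → ℝ) (a : ℝ) (s : ℂ) : DD l (fun n => a * c n) s = a * DD l c s := by
  unfold DD
  rw [← tsum_mul_left]
  refine tsum_congr fun n => ?_
  push_cast
  ring

/-- the mean over the integers -/
noncomputable def MI (k T : ℝ) : ℝ := Rm lamI cI k T

/-- the law with the main term of a pole of order `ρ` -/
def PolLaw (N : X → ℕ) (α : X → Fin d → ℂ) (ρ : ℕ) (k r : ℝ) : Prop :=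
  ∃ C : ℝ, ∀ᶠ T : ℝ in atTop, |Rz N α k T + ρ * MI k T - r * Real.log T| ≤ C

/-- the Euler product continues to the half plane without zeros, with a pole of order `ρ` at `1/2` only -/
def PolCont (N : X → ℕ) (α : X → Fin d → ℂ) (ρ : ℕ) (r : ℝ) : Prop :=
  ∃ G : ℂ → ℂ, (∀ s : ℂ, 0 < s.re → DifferentiableAt ℂ G s) ∧
    (∀ s : ℂ, 1 / 2 < s.re → exp (G s) = ((s - 1 / 2) / (s + 1)) ^ ρ * LE N α s) ∧
    ∃ C κ : ℝ, ∀ s : ℂ, 0 < s.re → ‖G s - r * log (s / (1 + s))‖ ≤ C * (‖s‖ / s.re) ^ κ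

/-- the data of the Euler product with the pole removed -/
theorem pol_dat (E : Sys N α) (ρ : ℕ) {e : X → ℕ} (he : Function.Injective e) {σ : ℝ}
    (hσ : 1 / 2 < σ) :
    Dat (mix (lamN N e) lamI) (mix (cN N α e) fun n => ρ * cI n) (Real.log 2) σ :=
  mix_dat (E.dat' he hσ) (dat_I ρ hσ)

theorem pol_Rm (E : Sys N α) (ρ : ℕ) {e : X → ℕ} (he : Function.Injective e) {k : ℝ} (hk : 0 ≤ k)
    (T : ℝ) :
    Rm (mix (lamN N e) lamI) (mix (cN N α e) fun n => ρ * cI n) k T =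
      Rz N α k T + ρ * MI k T := by
  rw [mix_Rm (E.dat he) (dat_I ρ (by norm_num)) hk, Rm_mul, Rz_eq he]
  rfl

lemma quot_ne {s : ℂ} (hs : 1 / 2 < s.re) : s - 1 / 2 ≠ 0 ∧ s + 1 ≠ 0 := by
  constructor
  · intro h
    have : (s - 1 / 2).re = 0 := by rw [h]; simp
    rw [Complex.sub_re] at this
    norm_num at this
    linarith
  · intro h
    have : (s + 1).re = 0 := by rw [h]; simp
    rw [Complex.add_re, Complex.one_re] at this
    linarith

theorem pol_DD (E : Sys N α) (ρ : ℕ) {e : X → ℕ} (he : Function.Injective e) {h : ℂ → ℂ}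
    (hh : ∀ s : ℂ, 1 / 2 < s.re → ∑' n : ℕ, (cI n : ℂ) * exp (-(s * lamI n)) =
      log ((s + 1) / (s - 1 / 2)) + h s) {s : ℂ} (hs : 1 / 2 < s.re) :
    DD (mix (lamN N e) lamI) (mix (cN N α e) fun n => ρ * cI n) s =
      DE N α s + ρ * (log ((s + 1) / (s - 1 / 2)) + h s) := by
  rw [mix_DD (E.dat' he hs) (dat_I ρ hs) le_rfl, DD_mul, Sys.DD_eq he, ← hh s hs]
  push_cast
  rfl

/-- the exponential -/
theorem pol_exp (E : Sys N α) (ρ : ℕ) {s : ℂ} (hs : 1 / 2 < s.re) :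
    exp (GG N α s - DE N α s - ρ * log ((s + 1) / (s - 1 / 2))) =
      ((s - 1 / 2) / (s + 1)) ^ ρ * LE N α s := by
  obtain ⟨h1, h2⟩ := quot_ne hs
  rw [Complex.exp_sub, ← E.LE_eq hs, Complex.exp_nat_mul, Complex.exp_log (div_ne_zero h2 h1),
    div_eq_mul_inv, mul_comm, ← inv_pow, inv_div]

lemma pw_one {q κ κ' : ℝ} (hq : 1 ≤ q) (h : κ ≤ κ') : q ^ κ ≤ q ^ κ' :=
  Real.rpow_le_rpow_of_exponent_le hq h

/-- **the continuation from one law** -/
theorem polCont_of_law (E : Sys N α) {ρ : ℕ} {k r : ℝ} (hk : 0 ≤ k) (h : PolLaw N α ρ k r) :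
    PolCont N α ρ r := by
  have := E.cnt
  obtain ⟨e, he⟩ := Countable.exists_injective_nat X
  obtain ⟨g, g1, g2, Cg, g3⟩ := comp_spec
  obtain ⟨A, hA, hAA⟩ := GG_bound E
  have hlaw : ∃ C : ℝ, ∀ᶠ T : ℝ in atTop,
      |Rm (mix (lamN N e) lamI) (mix (cN N α e) fun n => ρ * cI n) k T - r * Real.log T| ≤ C := by
    unfold PolLaw at h
    simpa only [pol_Rm E ρ he hk] using h
  set lam := mix (lamN N e) lamI with hlam
  set c := mix (cN N α e) (fun n => ρ * cI n) with hc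
  obtain ⟨-, d1, -, C', d3⟩ := dat_cont (pol_dat E ρ he (σ := 1) (by norm_num)) hk hlaw
  have d2 : ∀ s : ℂ, 1 / 2 < s.re → En lam c k s = DD lam c s := by
    intro s hs
    obtain ⟨σ, h1, h2⟩ := exists_between hs
    exact (dat_cont (pol_dat E ρ he h1) hk hlaw).2.2.1 s h2
  refine ⟨fun s => GG N α s - En lam c k s + ρ * g s, fun s hs => ?_, fun s hs => ?_,
    A + |Cg| * ρ + |C'|, k + 1, fun s hs => ?_⟩
  · exact ((E.GG_diff hs).sub (d1 s hs)).add ((g1 s hs).const_mul _)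
  · rw [← pol_exp E ρ hs]
    congr 1
    simp only
    rw [d2 s hs, hlam, hc, pol_DD E ρ he g2 hs]
    ring
  · have hq := one_le_q hs
    have e1 : GG N α s - En lam c k s + ρ * g s - r * log (s / (1 + s)) =
        GG N α s + ρ * g s - (En lam c k s + r * log (s / (1 + s))) := by ring
    rw [e1]
    refine (norm_sub_le _ _).trans ?_
    have e2 := norm_add_le (GG N α s) (ρ * g s)
    have e3 := hAA s hs
    have e4 := g3 s hs
    have e5 := d3 s hs
    have e6 : ‖s‖ / s.re ≤ (‖s‖ / s.re) ^ (k + 1) := by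
      calc ‖s‖ / s.re = (‖s‖ / s.re) ^ (1 : ℝ) := (Real.rpow_one _).symm
        _ ≤ _ := pw_one hq (by linarith)
    have e7 : ‖(ρ : ℂ) * g s‖ ≤ |Cg| * ρ * (‖s‖ / s.re) := by
      rw [norm_mul, Complex.norm_natCast]
      calc (ρ : ℝ) * ‖g s‖ ≤ ρ * (|Cg| * (‖s‖ / s.re)) := by
            refine mul_le_mul_of_nonneg_left (e4.trans ?_) (Nat.cast_nonneg _)
            exact mul_le_mul_of_nonneg_right (le_abs_self _) (by linarith)
        _ = _ := by ring
    have e8 : 0 ≤ A + |Cg| * ρ := by positivity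
    have e9 := mul_le_mul_of_nonneg_left e6 e8
    have e10 : C' * (‖s‖ / s.re) ^ (k + 1) ≤ |C'| * (‖s‖ / s.re) ^ (k + 1) :=
      mul_le_mul_of_nonneg_right (le_abs_self _) (by positivity)
    linarith

/-- **the continuation implies the laws of large order** -/
theorem law_of_polCont (E : Sys N α) {ρ : ℕ} {r : ℝ} (h : PolCont N α ρ r) :
    ∃ k₀ : ℝ, 0 ≤ k₀ ∧ ∀ k : ℝ, k₀ ≤ k → PolLaw N α ρ k r := by
  have := E.cnt
  obtain ⟨e, he⟩ := Countable.exists_injective_nat X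
  obtain ⟨G, a1, a2, C, κ, a3⟩ := h
  obtain ⟨g, g1, g2, Cg, g3⟩ := comp_spec
  obtain ⟨A, hA, hAA⟩ := GG_bound E
  have D := pol_dat E ρ he (σ := 1) (by norm_num)
  set lam := mix (lamN N e) lamI with hlam
  set c := mix (cN N α e) (fun n => ρ * cI n) with hc
  set κ' : ℝ := max κ 1 with hκ'
  have hκ1 : 1 ≤ κ' := le_max_right _ _
  set En' : ℂ → ℂ := fun s => GG N α s - G s + ρ * g s with hEn
  have hEd : ∀ s : ℂ, 0 < s.re → DifferentiableAt ℂ En' s := fun s hs =>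
    ((E.GG_diff hs).sub (a1 s hs)).add ((g1 s hs).const_mul _)
  set n₀ : ℂ := En' 1 - DD lam c 1 with hn₀
  have hdiff : ∀ s : ℂ, 1 / 2 < s.re → DifferentiableAt ℂ (DD lam c) s := by
    intro s hs
    obtain ⟨σ, h1, h2⟩ := exists_between hs
    exact (dd_deriv (pol_dat E ρ he h1) h2).differentiableAt
  have hEeq : ∀ s : ℂ, 1 / 2 < s.re → En' s - n₀ = DD lam c s := by
    intro s hs
    have h1 := log_unique (U := HP (1 / 2)) (HP_convex _) (f := En') (g := DD lam c)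
      (f' := fun s => deriv En' s) (g' := fun s => deriv (DD lam c) s)
      (fun z hz => (hEd z (by have : 1 / 2 < z.re := hz; linarith)).hasDerivAt)
      (fun z hz => (hdiff z hz).hasDerivAt)
      (fun z hz => by
        have e1 := a2 z hz
        rw [← pol_exp E ρ hz] at e1
        rw [hEn]
        simp only
        rw [hlam, hc, pol_DD E ρ he g2 hz, Complex.exp_add, Complex.exp_sub, e1, Complex.exp_sub,
          Complex.exp_sub, mul_add, Complex.exp_add, Complex.exp_add]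
        have := Complex.exp_ne_zero (GG N α z)
        have := Complex.exp_ne_zero (DE N α z)
        have := Complex.exp_ne_zero ((ρ : ℂ) * log ((z + 1) / (z - 1 / 2)))
        field_simp) (HP_open _) (z := s) (w := 1) hs
      (by show (1 / 2 : ℝ) < (1 : ℂ).re; rw [Complex.one_re]; norm_num)
    rw [hn₀]
    linear_combination h1
  refine ⟨2 * κ' + 3, by linarith, fun k hk => ?_⟩
  have hk0 : 0 < k := by linarith
  obtain ⟨C', hC'⟩ := means_bounded D (E := fun s => En' s - n₀) (r := r) (κ := κ')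
    (C := A + |Cg| * ρ + |C| + ‖n₀‖) (k := k) (by linarith) (fun s hs => (hEd s hs).sub_const _)
    (fun s hs => hEeq s (by linarith))
    (fun s hs => by
      have hq := one_le_q hs
      have e1 : En' s - n₀ + r * log (s / (1 + s)) =
          GG N α s + ρ * g s - (G s - r * log (s / (1 + s))) - n₀ := by
        rw [hEn]; ring
      rw [e1]
      refine (norm_sub_le _ _).trans ?_
      have e2 := norm_sub_le (GG N α s + ρ * g s) (G s - r * log (s / (1 + s)))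
      have e2' := norm_add_le (GG N α s) (ρ * g s)
      have e3 := hAA s hs
      have e4 := a3 s hs
      have e5 : ‖s‖ / s.re ≤ (‖s‖ / s.re) ^ κ' := by
        calc ‖s‖ / s.re = (‖s‖ / s.re) ^ (1 : ℝ) := (Real.rpow_one _).symm
          _ ≤ _ := pw_one hq hκ1
      have e6 : (‖s‖ / s.re) ^ κ ≤ (‖s‖ / s.re) ^ κ' := pw_one hq (le_max_left _ _)
      have e7 : 1 ≤ (‖s‖ / s.re) ^ κ' := Real.one_le_rpow hq (by linarith)
      have e8 : C * (‖s‖ / s.re) ^ κ ≤ |C| * (‖s‖ / s.re) ^ κ' := by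
        have : 0 ≤ (‖s‖ / s.re) ^ κ := by positivity
        calc _ ≤ |C| * (‖s‖ / s.re) ^ κ := mul_le_mul_of_nonneg_right (le_abs_self C) this
          _ ≤ _ := mul_le_mul_of_nonneg_left e6 (abs_nonneg _)
      have e7' : ‖(ρ : ℂ) * g s‖ ≤ |Cg| * ρ * (‖s‖ / s.re) := by
        rw [norm_mul, Complex.norm_natCast]
        calc (ρ : ℝ) * ‖g s‖ ≤ ρ * (|Cg| * (‖s‖ / s.re)) := by
              refine mul_le_mul_of_nonneg_left ((g3 s hs).trans ?_) (Nat.cast_nonneg _)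
              exact mul_le_mul_of_nonneg_right (le_abs_self _) (by linarith)
          _ = _ := by ring
      have e9 : (A + |Cg| * ρ) * (‖s‖ / s.re) ≤ (A + |Cg| * ρ) * (‖s‖ / s.re) ^ κ' :=
        mul_le_mul_of_nonneg_left e5 (by positivity)
      have e10 : ‖n₀‖ * 1 ≤ ‖n₀‖ * (‖s‖ / s.re) ^ κ' :=
        mul_le_mul_of_nonneg_left e7 (norm_nonneg _)
      linarith)
    (by linarith)
  refine ⟨C', ?_⟩
  filter_upwards [hC', eventually_gt_atTop 0] with T h1 h2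
  rw [S_eq hk0 h2, hlam, hc, pol_Rm E ρ he hk0.le] at h1
  exact h1

/-- **Riesz means and continuation with a pole** -/
theorem pol_tfae (E : Sys N α) (ρ : ℕ) (r : ℝ) : List.TFAE [PolCont N α ρ r,
    ∃ k : ℝ, 0 ≤ k ∧ PolLaw N α ρ k r,
    ∃ k₀ : ℝ, 0 ≤ k₀ ∧ ∀ k : ℝ, k₀ ≤ k → PolLaw N α ρ k r] := by
  tfae_have 1 → 3 := fun h => law_of_polCont E h
  tfae_have 3 → 2 := by
    rintro ⟨k₀, h0, h1⟩
    exact ⟨k₀, h0, h1 k₀ le_rfl⟩
  tfae_have 2 → 1 := by
    rintro ⟨k, hk, h⟩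
    exact polCont_of_law E hk h
  tfae_finish

end Pool.Agent.TH942.RA
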