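import Pool.Agent.TH942.RA.Pol
import Pool.Agent.TH942.RA.Known
import Pool.Agent.TH942.RA.Growth

/-!
# The law with a pole if the continuation is known
-/

set_option autoImplicit false

open MeasureTheory Filter Topology Set Complex
open Pool.Agent.TH942.LS (Dat S)
open Pool.Agent.TH942.SL (DD)
open Pool.Agent.TH942.RZ (rzw)
open Pool.Agent.TH942.ES

namespace Pool.Agent.TH942.RA

variable {X : Type} {d : ℕ} {N : X → ℕ} {α : X → Fin d → ℂ} {Ψ : ℂ → ℂ}

/-- the continuation with the pole removed -/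
structure PolCon (N : X → ℕ) (α : X → Fin d → ℂ) (ρ : ℕ) (Ψ : ℂ → ℂ) : Prop where
  diff : ∀ s : ℂ, 0 < s.re → DifferentiableAt ℂ Ψ s
  eq : ∀ s : ℂ, 1 / 2 < s.re → Ψ s = ((s - 1 / 2) / (s + 1)) ^ ρ * LE N α s

/-- the order at `0` from the size of the logarithm -/
theorem ord_of_log {G : ℂ → ℂ} (he : ∀ s : ℂ, 0 < s.re → Ψ s = exp (G s))
    (h0 : AnalyticAt ℂ Ψ 0) {r C κ : ℝ}
    (g3 : ∀ s : ℂ, 0 < s.re → ‖G s - r * log (s / (1 + s))‖ ≤ C * (‖s‖ / s.re) ^ κ) :
    ∀ m : ℕ, analyticOrderAt Ψ 0 = m → (m : ℝ) = r := by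
  intro m hm
  obtain ⟨c, hc, hlim⟩ := (Pool.Agent.TH270.SH.ordZero h0 hm).limit
  have hlog := hlim.log hc.ne'
  have hB : ∀ᶠ x : ℝ in 𝓝[>] 0, |(r - m) * Real.log x| ≤ |Real.log c| + 1 + (C + |r| * Real.log 2) := by
    have e0 : ∀ᶠ x : ℝ in 𝓝[>] (0 : ℝ), |Real.log (‖Ψ x‖ / x ^ m) - Real.log c| < 1 := by
      refine ((Metric.tendsto_nhds.1 hlog) 1 one_pos).mono fun x hx => ?_
      rwa [Real.dist_eq] at hx
    filter_upwards [e0, self_mem_nhdsWithin, Ioo_mem_nhdsGT (show (0 : ℝ) < 1 by norm_num)]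
      with x h1 h2 h3
    have hx : 0 < x := h2
    have hre : (0 : ℝ) < (x : ℂ).re := by rwa [Complex.ofReal_re]
    have e1 := g3 x hre
    have e2 : ‖(x : ℂ)‖ / (x : ℂ).re = 1 := by
      rw [Complex.norm_real, Real.norm_eq_abs, abs_of_pos hx, Complex.ofReal_re, div_self hx.ne']
    rw [e2, Real.one_rpow, mul_one] at e1
    have e3 : (x : ℂ) / (1 + x) = ((x / (1 + x) : ℝ) : ℂ) := by push_cast; rfl
    have hx1 : 0 < x / (1 + x) := by positivity
    rw [e3, ← Complex.ofReal_log hx1.le] at e1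
    have e4 := (Complex.abs_re_le_norm _).trans e1
    rw [Complex.sub_re, ← Complex.ofReal_mul, Complex.ofReal_re,
      Real.log_div hx.ne' (by positivity)] at e4
    have e5 : Real.log ‖Ψ x‖ = (G x).re := by
      rw [he x hre, Complex.norm_exp, Real.log_exp]
    have hΨ : 0 < ‖Ψ x‖ := by
      rw [he x hre]
      exact norm_pos_iff.2 (Complex.exp_ne_zero _)
    rw [Real.log_div hΨ.ne' (by positivity), Real.log_pow, e5] at h1
    have e6 : 0 ≤ Real.log (1 + x) := Real.log_nonneg (by linarith)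
    have e7 : Real.log (1 + x) ≤ Real.log 2 := Real.log_le_log (by positivity) (by linarith [h3.2])
    have e8 : |r * Real.log (1 + x)| ≤ |r| * Real.log 2 := by
      rw [abs_mul, abs_of_nonneg e6]
      exact mul_le_mul_of_nonneg_left e7 (abs_nonneg _)
    have e9 := neg_abs_le (Real.log c)
    have e10 := le_abs_self (Real.log c)
    rw [abs_lt] at h1
    rw [abs_le] at e4 e8 ⊢
    constructor <;> nlinarith [h1.1, h1.2, e4.1, e4.2, e8.1, e8.2]
  by_contra hne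
  have hd : 0 < |r - m| := abs_pos.2 (sub_ne_zero.2 fun h => hne h.symm)
  have hinf := Real.tendsto_log_nhdsGT_zero
  have e1 := hinf.eventually_lt_atBot (-((|Real.log c| + 1 + (C + |r| * Real.log 2)) / |r - m|) - 1)
  obtain ⟨x, h1, h2, h3⟩ := (hB.and (e1.and
    (Ioo_mem_nhdsGT (show (0 : ℝ) < 1 by norm_num)))).exists
  have h4 : Real.log x < 0 := Real.log_neg h3.1 h3.2
  rw [abs_mul, abs_of_neg h4] at h1
  have h5 : -Real.log x ≤ (|Real.log c| + 1 + (C + |r| * Real.log 2)) / |r - m| := by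
    rw [le_div_iff₀ hd]
    linarith
  linarith

/-- the continuation by the exponential -/
theorem polCon_eq_exp {ρ : ℕ} (H : PolCon N α ρ Ψ) {G : ℂ → ℂ}
    (g1 : ∀ s : ℂ, 0 < s.re → DifferentiableAt ℂ G s)
    (g2 : ∀ s : ℂ, 1 / 2 < s.re → exp (G s) = ((s - 1 / 2) / (s + 1)) ^ ρ * LE N α s) :
    ∀ s : ℂ, 0 < s.re → Ψ s = exp (G s) := by
  have ho : IsOpen {z : ℂ | 0 < z.re} := isOpen_lt continuous_const Complex.continuous_re
  have a1 : AnalyticOnNhd ℂ Ψ {z : ℂ | 0 < z.re} :=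
    DifferentiableOn.analyticOnNhd (fun z hz => (H.diff z hz).differentiableWithinAt) ho
  have a2 : AnalyticOnNhd ℂ (fun z => exp (G z)) {z : ℂ | 0 < z.re} :=
    DifferentiableOn.analyticOnNhd (fun z hz => (g1 z hz).cexp.differentiableWithinAt) ho
  have h1 : (0 : ℝ) < (1 : ℂ).re := by norm_num
  have hnear : Ψ =ᶠ[𝓝 (1 : ℂ)] fun z => exp (G z) := by
    have ho2 : IsOpen {z : ℂ | 1 / 2 < z.re} := isOpen_lt continuous_const Complex.continuous_re
    filter_upwards [ho2.mem_nhds (show (1 / 2 : ℝ) < (1 : ℂ).re by norm_num)] with z hz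
    rw [g2 z hz, H.eq z hz]
  have a3 := a1.eqOn_of_preconnected_of_eventuallyEq a2
    (convex_halfSpace_re_gt 0).isPreconnected h1 hnear
  exact fun s hs => a3 hs

/-- **the continuation has no zeros and the order `r`** -/
theorem of_polCon {ρ : ℕ} (H : PolCon N α ρ Ψ) (h0 : AnalyticAt ℂ Ψ 0) {r : ℕ}
    (h : PolCont N α ρ r) : analyticOrderAt Ψ 0 = r ∧ ∀ s : ℂ, 0 < s.re → Ψ s ≠ 0 := by
  obtain ⟨G, g1, g2, C, κ, g3⟩ := h
  have he := polCon_eq_exp H g1 g2
  have hne : ∀ s : ℂ, 0 < s.re → Ψ s ≠ 0 := fun s hs => by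
    rw [he s hs]; exact Complex.exp_ne_zero _
  refine ⟨?_, hne⟩
  have h1 : analyticOrderAt Ψ 0 ≠ ⊤ := by
    intro htop
    rw [analyticOrderAt_eq_top] at htop
    obtain ⟨ε, hε, hb⟩ := Metric.eventually_nhds_iff.1 htop
    have hz1 : 0 < (((ε / 2 : ℝ) : ℂ)).re := by rw [Complex.ofReal_re]; linarith
    refine hne _ hz1 (hb ?_)
    rw [Complex.dist_eq, sub_zero, Complex.norm_real, Real.norm_eq_abs,
      abs_of_pos (show (0 : ℝ) < ε / 2 by linarith)]
    linarith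
  obtain ⟨m, hm⟩ := ENat.ne_top_iff_exists.1 h1
  have h2 := ord_of_log he h0 g3 m hm.symm
  have h3 : m = r := by exact_mod_cast h2
  rw [← hm, h3]

/-- **no zeros and moderate growth imply the continuation with bounds** -/
theorem polCont_of_con (E : Sys N α) {ρ : ℕ} (H : PolCon N α ρ Ψ) (h0 : AnalyticAt ℂ Ψ 0) {m : ℕ}
    (hm : analyticOrderAt Ψ 0 = m) (hz : ∀ s : ℂ, 0 < s.re → Ψ s ≠ 0) {A : ℝ}
    (hgr : ∀ s : ℂ, 0 < s.re → ‖Ψ s‖ ≤ A * (1 + ‖s‖) ^ A * (1 + 1 / s.re) ^ A) :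
    PolCont N α ρ m := by
  have d1 : ∀ s : ℂ, 1 / 2 < s.re →
      DifferentiableAt ℂ (fun s => GG N α s - DE N α s - ρ * log ((s + 1) / (s - 1 / 2))) s := by
    intro s hs
    refine ((E.GG_diff (by linarith)).sub (E.DE_diff hs)).sub (DifferentiableAt.const_mul ?_ _)
    obtain ⟨h1, h2⟩ := quot_ne hs
    refine DifferentiableAt.clog (by fun_prop (disch := exact h1)) ?_
    rw [Complex.mem_slitPlane_iff]
    left
    have h3 : (s + 1) / (s - 1 / 2) = 1 + (3 / 2) * (s - 1 / 2)⁻¹ := by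
      rw [div_eq_mul_inv]
      linear_combination mul_inv_cancel₀ h1
    rw [h3, Complex.add_re, Complex.one_re]
    have h4 : ((3 / 2 : ℂ) * (s - 1 / 2)⁻¹).re = 3 / 2 * ((s - 1 / 2)⁻¹).re := by
      have : (3 / 2 : ℂ) = ((3 / 2 : ℝ) : ℂ) := by push_cast; rfl
      rw [this, Complex.re_ofReal_mul]
    rw [h4, Complex.inv_re]
    have h5 : 0 < (s - 1 / 2).re := by
      rw [Complex.sub_re]
      norm_num
      linarith
    have h6 : 0 < Complex.normSq (s - 1 / 2) := Complex.normSq_pos.2 h1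
    positivity
  have d2 : ∀ s : ℂ, 1 ≤ s.re →
      ‖GG N α s - DE N α s - ρ * log ((s + 1) / (s - 1 / 2))‖ ≤
        8 * d * (∑' v, (N v : ℝ) ^ (-(1 + (1 : ℝ)))) +
          4 * d * (∑' v, (N v : ℝ) ^ (-(3 / 2 : ℝ))) + ρ * (Real.log 4 + Real.pi) := by
    intro s hs
    have hs2 : 1 / 2 < s.re := by linarith
    refine (norm_sub_le _ _).trans (add_le_add ((norm_sub_le _ _).trans (add_le_add ?_ ?_)) ?_)
    · exact tsum_of_norm_bounded ((E.sum (1 + 1) (by norm_num)).hasSum.mul_left _) fun v =>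
        E.norm_gv₁ zero_le_one hs v
    · refine tsum_of_norm_bounded ((E.sum (3 / 2) (by norm_num)).hasSum.mul_left _) fun v => ?_
      rw [norm_mul, Complex.norm_real, Real.norm_eq_abs, E.norm_xv]
      calc |cv N α v| * (N v : ℝ) ^ (-s.re) ≤
            (4 * d * (N v : ℝ) ^ (-(1 / 2 : ℝ))) * (N v : ℝ) ^ (-(1 : ℝ)) := by
            refine mul_le_mul (E.cv_abs v) ?_ (by positivity) (by positivity)
            exact Real.rpow_le_rpow_of_exponent_le (by have := E.Ntwo v; linarith) (by linarith)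
        _ = _ := by
          rw [mul_assoc, ← Real.rpow_add (E.Npos v)]
          congr 2
          norm_num
    · rw [norm_mul, Complex.norm_natCast]
      refine mul_le_mul_of_nonneg_left ?_ (Nat.cast_nonneg _)
      obtain ⟨h1, h2⟩ := quot_ne hs2
      refine (Growth.norm_log_le _).trans (add_le_add ?_ le_rfl)
      have h5 : 1 / 2 ≤ (s - 1 / 2).re := by
        rw [Complex.sub_re]
        norm_num
        linarith
      have h6 : 0 < ‖s - 1 / 2‖ := norm_pos_iff.2 h1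
      have h7 : ‖s - 1 / 2‖ ≤ ‖s + 1‖ := by
        rw [Complex.norm_def, Complex.norm_def]
        refine Real.sqrt_le_sqrt ?_
        rw [Complex.normSq_apply, Complex.normSq_apply]
        simp only [Complex.sub_re, Complex.sub_im, Complex.add_re, Complex.add_im, Complex.one_re,
          Complex.one_im]
        norm_num
        nlinarith
      have h8 : ‖s + 1‖ ≤ 4 * ‖s - 1 / 2‖ := by
        have e1 : s + 1 = (s - 1 / 2) + 3 / 2 := by ring
        have e2 := norm_add_le (s - 1 / 2) (3 / 2 : ℂ)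
        rw [← e1] at e2
        have e3 : ‖(3 / 2 : ℂ)‖ = 3 / 2 := by
          have : (3 / 2 : ℂ) = ((3 / 2 : ℝ) : ℂ) := by push_cast; rfl
          rw [this, Complex.norm_real, Real.norm_eq_abs, abs_of_pos (by norm_num)]
        have e4 := h5.trans (Complex.re_le_norm _)
        rw [e3] at e2
        linarith
      rw [norm_div]
      have h9 : 1 ≤ ‖s + 1‖ / ‖s - 1 / 2‖ := by
        rw [one_le_div h6]
        exact h7
      have h10 : ‖s + 1‖ / ‖s - 1 / 2‖ ≤ 4 := by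
        rw [div_le_iff₀ h6]
        exact h8
      rw [abs_of_nonneg (Real.log_nonneg h9)]
      exact Real.log_le_log (by linarith) h10
  obtain ⟨G, g1, g2, -, C, K, -, g4⟩ := log_of_growth (F := Ψ)
    (G₀ := fun s => GG N α s - DE N α s - ρ * log ((s + 1) / (s - 1 / 2))) H.diff hz h0 hm hgr
    (fun s hs => ⟨d1 s hs, by rw [pol_exp E ρ hs, H.eq s hs]⟩) d2
  exact ⟨G, g1, fun s hs => by rw [g2 s (by linarith), H.eq s hs], C, K, g4⟩

/-- **Riesz means with a pole, if a continuation of moderate growth is known** -/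
theorem polCon_tfae (E : Sys N α) {ρ : ℕ} (H : PolCon N α ρ Ψ) (h0 : AnalyticAt ℂ Ψ 0) {A : ℝ}
    (hgr : ∀ s : ℂ, 0 < s.re → ‖Ψ s‖ ≤ A * (1 + ‖s‖) ^ A * (1 + 1 / s.re) ^ A) (r : ℕ) :
    List.TFAE [analyticOrderAt Ψ 0 = r ∧ ∀ s : ℂ, 0 < s.re → Ψ s ≠ 0,
      ∃ k : ℝ, 0 ≤ k ∧ PolLaw N α ρ k r,
      ∃ k₀ : ℝ, 0 ≤ k₀ ∧ ∀ k : ℝ, k₀ ≤ k → PolLaw N α ρ k r] := by
  tfae_have 1 → 3 := fun h => law_of_polCont E (polCont_of_con E H h0 h.1 h.2 hgr)
  tfae_have 3 → 2 := by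
    rintro ⟨k₀, h1, h2⟩
    exact ⟨k₀, h1, h2 k₀ le_rfl⟩
  tfae_have 2 → 1 := by
    rintro ⟨k, hk, h⟩
    exact of_polCon H h0 (polCont_of_law E hk h)
  tfae_finish

end Pool.Agent.TH942.RA
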